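import Mathlib

set_option autoImplicit false

/-!
Starters in a finite group `G`, written multiplicatively: `G` acts on the vertices of the complete
graph `K_G` by `x ↦ x * g`, an edge `[x, y]` is written as an ordered pair `(x, y)` with `x ≠ y`,
and the difference `x - y` of the additive notation is `x * y⁻¹`.
-/

namespace Pool.Agent.Helper466.Starter

variable {G : Type*} [Group G]

/-- `g` is an involution, that is, an element of order two. -/
def IsInvol (g : G) : Prop := g ≠ 1 ∧ g * g = 1

/-- The element `g` fixes the edge `[x, y]` in the action `[x, y] ↦ [x * g, y * g]`. -/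
def Fixes (g : G) (e : G × G) : Prop := s(e.1 * g, e.2 * g) = s(e.1, e.2)

/-- An edge is short when some involution of `G` fixes it, and long otherwise. -/
def IsShort (e : G × G) : Prop := ∃ g : G, IsInvol g ∧ Fixes g e

open Classical in
/-- The list of differences of an edge: `{x * y⁻¹, y * x⁻¹}` for a long edge `[x, y]`,
and `{x * y⁻¹}` for a short one. -/
noncomputable def bdry (e : G × G) : Multiset G :=
  if IsShort e then {e.1 * e.2⁻¹} else {e.1 * e.2⁻¹, e.2 * e.1⁻¹}

open Classical in
/-- The vertices `φ` of an edge: `{x, y}` for a long edge `[x, y]`, and `{x}` for a short one. -/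
noncomputable def verts (e : G × G) : Multiset G :=
  if IsShort e then {e.1} else {e.1, e.2}

open Classical in
/-- `m` is a left transversal of `U`: each left coset `q` of `U` contains exactly one
element of `m`. -/
def IsLeftTransversal (m : Multiset G) (U : Subgroup G) : Prop :=
  ∀ q : G ⧸ U, (m.map (fun x : G => (x : G ⧸ U))).count q = 1

open Classical in
/-- `G` admits a starter: there are finitely many finite sets `S i` of edges and subgroups `H i`
such that the multiset union of all `∂ e`, `e ∈ S i`, contains every nonidentity element exactly
once (and not the identity), and for each `i` the multiset `φ (S i)` is a left transversal of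
`H i`, which contains every involution fixing a short edge of `S i`. -/
def HasStarter (G : Type*) [Group G] : Prop :=
  ∃ (k : ℕ) (S : Fin k → Finset (G × G)) (H : Fin k → Subgroup G),
    (∀ i, ∀ e ∈ S i, e.1 ≠ e.2) ∧
    (∀ g : G, (∑ i, ∑ e ∈ S i, bdry e).count g = if g = 1 then 0 else 1) ∧
    (∀ i, IsLeftTransversal (∑ e ∈ S i, verts e) (H i)) ∧
    (∀ i, ∀ e ∈ S i, IsShort e → ∀ g : G, IsInvol g → Fixes g e → g ∈ H i)

end Pool.Agent.Helper466.Starter
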