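import Mathlib
import Pool.Agent.Helper466.Starter.Defs

set_option autoImplicit false

namespace Pool.Agent.Helper466.Starter

variable {G : Type*} [Group G]

theorem fixes_iff {g : G} {e : G × G} (hne : e.1 ≠ e.2) :
    Fixes g e ↔ g = 1 ∨ (e.1 * g = e.2 ∧ e.2 * g = e.1) := by
  unfold Fixes
  rw [Sym2.eq_iff]
  constructor
  · rintro (⟨h1, _⟩ | ⟨h1, h2⟩)
    · left
      simpa using h1
    · right
      exact ⟨h1, h2⟩
  · rintro (rfl | ⟨h1, h2⟩)
    · left; simp
    · right; exact ⟨h1, h2⟩

theorem not_isShort_of_sq {e : G × G} (hne : e.1 ≠ e.2)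
    (h : (e.1 * e.2⁻¹) * (e.1 * e.2⁻¹) ≠ 1) : ¬ IsShort e := by
  rintro ⟨g, ⟨hg1, hg2⟩, hf⟩
  rw [fixes_iff hne] at hf
  rcases hf with hf | ⟨h1, h2⟩
  · exact hg1 hf
  · apply h
    have h3 : e.2 = e.1 * g := h1.symm
    have hgi : g⁻¹ = g := by
      rw [inv_eq_iff_mul_eq_one]; exact hg2
    rw [h3]
    calc e.1 * (e.1 * g)⁻¹ * (e.1 * (e.1 * g)⁻¹) = e.1 * g⁻¹ * g⁻¹ * e.1⁻¹ := by group
      _ = e.1 * (g * g) * e.1⁻¹ := by rw [hgi]; group
      _ = 1 := by rw [hg2]; group

/-- `D` is the set of differences of one block. -/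
def Blk (D : Finset G) : Prop :=
  ∃ (S : Finset (G × G)) (H : Subgroup G),
    (∀ e ∈ S, e.1 ≠ e.2) ∧
    (∑ e ∈ S, bdry e = D.val) ∧
    IsLeftTransversal (∑ e ∈ S, verts e) H ∧
    (∀ e ∈ S, IsShort e → ∀ g : G, IsInvol g → Fixes g e → g ∈ H)

/-- A disjoint union of blocks. -/
inductive Cov : Finset G → Prop
  | empty : Cov ∅
  | cons (D B : Finset G) [DecidableEq G] : Cov D → Blk B → Disjoint D B → Cov (D ∪ B)

open Classical in
/-- constructor for blocks -/
theorem Blk.mk' {ι κ : Type*} [Fintype ι] [Fintype κ] (H : Subgroup G) [Finite G]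
    (x y : ι → G) (u v : κ → G)
    (hlong : ∀ i, (x i * (y i)⁻¹) * (x i * (y i)⁻¹) ≠ 1)
    (hshort : ∀ j, ∃ t ∈ H, t ≠ 1 ∧ t * t = 1 ∧ v j = u j * t)
    (hV : Function.Injective (Sum.elim (Sum.elim (fun i => (x i : G ⧸ H)) (fun i => (y i : G ⧸ H)))
      (fun j => (u j : G ⧸ H))))
    (hcard : 2 * Fintype.card ι + Fintype.card κ = H.index)
    (D : Finset G)
    (hDinj : Function.Injective (Sum.elim (Sum.elim (fun i => x i * (y i)⁻¹)
      (fun i => y i * (x i)⁻¹)) (fun j => u j * (v j)⁻¹)))
    (hD : ∀ g, g ∈ D ↔ (∃ i, x i * (y i)⁻¹ = g) ∨ (∃ i, y i * (x i)⁻¹ = g) ∨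
      (∃ j, u j * (v j)⁻¹ = g)) : Blk D := by
  haveI : Fintype (G ⧸ H) := Fintype.ofFinite _
  set E : ι ⊕ κ → G × G := Sum.elim (fun i => (x i, y i)) (fun j => (u j, v j)) with hE
  have hEne : ∀ s, (E s).1 ≠ (E s).2 := by
    rintro (i | j)
    · intro h
      apply hlong i
      have h' : x i = y i := h
      rw [h']; group
    · intro h
      obtain ⟨t, _, ht1, _, hv⟩ := hshort j
      have h' : u j = v j := h
      rw [hv] at h'
      exact ht1 (by simpa using h'.symm)
  have hElong : ∀ i, ¬ IsShort (E (Sum.inl i)) := by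
    intro i
    exact not_isShort_of_sq (hEne _) (hlong i)
  have hEshort : ∀ j, IsShort (E (Sum.inr j)) := by
    intro j
    obtain ⟨t, _, ht1, ht2, hv⟩ := hshort j
    refine ⟨t, ⟨ht1, ht2⟩, ?_⟩
    rw [fixes_iff (hEne _)]
    right
    refine ⟨hv.symm, ?_⟩
    show v j * t = u j
    rw [hv, mul_assoc, ht2, mul_one]
  have hEinj : Function.Injective E := by
    rintro (i | j) (i' | j') h
    · have h1 : x i = x i' := congrArg Prod.fst h
      have h2 : y i = y i' := congrArg Prod.snd h
      have := @hDinj (Sum.inl (Sum.inl i)) (Sum.inl (Sum.inl i')) (by simp [h1, h2])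
      simpa using this
    · have h1 : x i = u j' := congrArg Prod.fst h
      have h2 : y i = v j' := congrArg Prod.snd h
      have := @hDinj (Sum.inl (Sum.inl i)) (Sum.inr j') (by simp [h1, h2])
      simp at this
    · have h1 : u j = x i' := congrArg Prod.fst h
      have h2 : v j = y i' := congrArg Prod.snd h
      have := @hDinj (Sum.inr j) (Sum.inl (Sum.inl i')) (by simp [h1, h2])
      simp at this
    · have h1 : u j = u j' := congrArg Prod.fst h
      have h2 : v j = v j' := congrArg Prod.snd h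
      have := @hDinj (Sum.inr j) (Sum.inr j') (by simp [h1, h2])
      simpa using this
  refine ⟨Finset.univ.image E, H, ?_, ?_, ?_, ?_⟩
  · intro e he
    simp only [Finset.mem_image, Finset.mem_univ, true_and] at he
    obtain ⟨s, rfl⟩ := he
    exact hEne s
  · rw [Finset.sum_image (fun a _ b _ h => hEinj h), Fintype.sum_sum_type]
    have h1 : ∀ i, bdry (E (Sum.inl i)) = {x i * (y i)⁻¹} + {y i * (x i)⁻¹} := by
      intro i
      rw [bdry, if_neg (hElong i)]
      rfl
    have h2 : ∀ j, bdry (E (Sum.inr j)) = {u j * (v j)⁻¹} := by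
      intro j
      rw [bdry, if_pos (hEshort j)]
      rfl
    simp only [h1, h2]
    have h3 : D = Finset.univ.image (Sum.elim (Sum.elim (fun i => x i * (y i)⁻¹)
      (fun i => y i * (x i)⁻¹)) (fun j => u j * (v j)⁻¹)) := by
      ext g
      rw [hD g]
      simp only [Finset.mem_image, Finset.mem_univ, true_and, Sum.exists, Sum.elim_inl,
        Sum.elim_inr]
      tauto
    have h4 : D.val = ∑ s, ({(Sum.elim (Sum.elim (fun i => x i * (y i)⁻¹)
      (fun i => y i * (x i)⁻¹)) (fun j => u j * (v j)⁻¹)) s} : Multiset G) := by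
      rw [h3, ← Finset.sum_multiset_singleton, Finset.sum_image (fun a _ b _ h => hDinj h)]
    rw [h4, Fintype.sum_sum_type, Fintype.sum_sum_type]
    simp only [Sum.elim_inl, Sum.elim_inr, Finset.sum_add_distrib]
  · intro q
    rw [Finset.sum_image (fun a _ b _ h => hEinj h), Fintype.sum_sum_type]
    have h1 : ∀ i, verts (E (Sum.inl i)) = {x i} + {y i} := by
      intro i
      rw [verts, if_neg (hElong i)]
      rfl
    have h2 : ∀ j, verts (E (Sum.inr j)) = {u j} := by
      intro j
      rw [verts, if_pos (hEshort j)]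
      rfl
    simp only [h1, h2]
    set V : (ι ⊕ ι) ⊕ κ → G ⧸ H := Sum.elim (Sum.elim (fun i => (x i : G ⧸ H))
      (fun i => (y i : G ⧸ H))) (fun j => (u j : G ⧸ H)) with hVdef
    have hbij : Function.Bijective V := by
      rw [Fintype.bijective_iff_injective_and_card]
      refine ⟨hV, ?_⟩
      rw [Fintype.card_sum, Fintype.card_sum, ← two_mul, hcard, Subgroup.index,
        Nat.card_eq_fintype_card]
    have h5 : Multiset.map (fun x : G => (x : G ⧸ H))
        (∑ i, ({x i} + {y i}) + ∑ j, ({u j} : Multiset G)) = ∑ s, {V s} := by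
      rw [Fintype.sum_sum_type, Fintype.sum_sum_type]
      simp only [hVdef, Sum.elim_inl, Sum.elim_inr, Finset.sum_add_distrib]
      have := fun (m : Multiset G) => (Multiset.coe_mapAddMonoidHom
        (fun x : G => (x : G ⧸ H)))
      simp only [Multiset.map_add]
      congr 1
      · congr 1
        · rw [← Multiset.coe_mapAddMonoidHom, map_sum]
          rfl
        · rw [← Multiset.coe_mapAddMonoidHom, map_sum]
          rfl
      · rw [← Multiset.coe_mapAddMonoidHom, map_sum]
        rfl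
    rw [h5]
    have h6 : ∑ s, ({V s} : Multiset (G ⧸ H)) = (Finset.univ : Finset (G ⧸ H)).val := by
      rw [← Finset.sum_multiset_singleton, ← Finset.image_univ_of_surjective hbij.2,
        Finset.sum_image (fun a _ b _ h => hbij.1 h)]
    rw [h6]
    exact Multiset.count_eq_one_of_mem Finset.univ.nodup (Finset.mem_univ q)
  · intro e he hs g hg hf
    simp only [Finset.mem_image, Finset.mem_univ, true_and] at he
    obtain ⟨s, rfl⟩ := he
    rcases s with i | j
    · exact absurd hs (hElong i)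
    · rw [fixes_iff (hEne _)] at hf
      obtain ⟨t, htH, _, _, hv⟩ := hshort j
      rcases hf with hf | ⟨hf, _⟩
      · exact absurd hf hg.1
      · have h1 : u j * g = v j := hf
        rw [hv] at h1
        rw [mul_left_cancel h1]
        exact htH

end Pool.Agent.Helper466.Starter
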