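import Mathlib
import Pool.Agent.Helper466.Starter.Base

set_option autoImplicit false

namespace Pool.Agent.Helper466.Starter

variable {G : Type*} [Group G]

theorem Cov.exists_family {D : Finset G} (h : Cov D) :
    ∃ (k : ℕ) (S : Fin k → Finset (G × G)) (H : Fin k → Subgroup G),
      (∀ i, ∀ e ∈ S i, e.1 ≠ e.2) ∧
      (∑ i, ∑ e ∈ S i, bdry e = D.val) ∧
      (∀ i, IsLeftTransversal (∑ e ∈ S i, verts e) (H i)) ∧
      (∀ i, ∀ e ∈ S i, IsShort e → ∀ g : G, IsInvol g → Fixes g e → g ∈ H i) := by
  induction h with
  | empty =>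
    exact ⟨0, Fin.elim0, Fin.elim0, fun i => i.elim0, by simp, fun i => i.elim0, fun i => i.elim0⟩
  | cons D B hD hB hdis ih =>
    obtain ⟨k, S, H, h1, h2, h3, h4⟩ := ih
    obtain ⟨S0, H0, g1, g2, g3, g4⟩ := hB
    refine ⟨k + 1, Fin.cons S0 S, Fin.cons H0 H, ?_, ?_, ?_, ?_⟩
    · intro i
      refine Fin.cases ?_ ?_ i
      · exact g1
      · exact h1
    · rw [Fin.sum_univ_succ]
      simp only [Fin.cons_zero, Fin.cons_succ]
      rw [g2, h2, ← Finset.disjUnion_eq_union D B hdis, add_comm]
      rfl
    · intro i
      refine Fin.cases ?_ ?_ i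
      · exact g3
      · exact h3
    · intro i
      refine Fin.cases ?_ ?_ i
      · exact g4
      · exact h4

theorem hasStarter_of_cov_full {D : Finset G} (h : Cov D) (hD : ∀ g, g ∈ D ↔ g ≠ 1) :
    HasStarter G := by
  classical
  obtain ⟨k, S, H, h1, h2, h3, h4⟩ := h.exists_family
  refine ⟨k, S, H, h1, ?_, h3, h4⟩
  intro g
  rw [h2]
  split_ifs with hg
  · rw [Multiset.count_eq_zero]
    intro hm
    exact (hD g).1 hm hg
  · exact Multiset.count_eq_one_of_mem D.nodup ((hD g).2 hg)

theorem blk_invol [Finite G] {j : G} (h1 : j ≠ 1) (h2 : j * j = 1) : Blk ({j} : Finset G) := by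
  have hji : j⁻¹ = j := by rw [inv_eq_iff_mul_eq_one]; exact h2
  refine Blk.mk' (ι := Empty) (κ := Unit) (⊤ : Subgroup G) Empty.elim Empty.elim
    (fun _ => 1) (fun _ => j) (fun i => i.elim) (fun _ => ⟨j, Subgroup.mem_top _, h1, h2, by simp⟩)
    ?_ (by simp) _ ?_ ?_
  · rintro ((i | i) | i) ((i' | i') | i') h
    all_goals first | exact i.elim | exact i'.elim | rfl
  · rintro ((i | i) | i) ((i' | i') | i') h
    all_goals first | exact i.elim | exact i'.elim | rfl
  · intro g
    simp only [Finset.mem_singleton, IsEmpty.exists_iff, false_or, exists_const, one_mul, hji]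
    exact eq_comm

theorem blk_pair [Finite G] [DecidableEq G] {d : G} (h2 : d * d ≠ 1) (H : Subgroup G)
    (hH : H.index = 2) (hd : d ∉ H) : Blk ({d, d⁻¹} : Finset G) := by
  have hdi : d ≠ d⁻¹ := by
    intro h
    apply h2
    nth_rewrite 2 [h]
    exact mul_inv_cancel d
  refine Blk.mk' (ι := Unit) (κ := Empty) H (fun _ => 1) (fun _ => d) Empty.elim Empty.elim
    ?_ (fun i => i.elim) ?_ (by simp [hH]) _ ?_ ?_
  · intro _
    rw [one_mul]
    intro h
    apply h2
    have := congrArg (·⁻¹) h
    simpa using this
  · rintro ((i | i) | i) ((i' | i') | i') h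
    any_goals first | exact i.elim | exact i'.elim | rfl
    · exfalso
      simp only [Sum.elim_inl, Sum.elim_inr] at h
      rw [QuotientGroup.eq] at h
      apply hd
      simpa using h
    · exfalso
      simp only [Sum.elim_inl, Sum.elim_inr] at h
      rw [QuotientGroup.eq] at h
      apply hd
      simpa using h
  · rintro ((i | i) | i) ((i' | i') | i') h
    any_goals first | exact i.elim | exact i'.elim | rfl
    · exfalso
      simp only [Sum.elim_inl, Sum.elim_inr] at h
      apply hdi
      simpa using h.symm
    · exfalso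
      simp only [Sum.elim_inl, Sum.elim_inr] at h
      apply hdi
      simpa using h
  · intro g
    simp only [Finset.mem_singleton, Finset.mem_insert, IsEmpty.exists_iff, or_false,
      exists_const, one_mul, inv_one, mul_one]
    rw [eq_comm (a := g), eq_comm (a := g)]
    tauto

/-- Completion of a partial cover: everything outside `D` is covered by involutions and by pairs
`{d, d⁻¹}` avoiding a subgroup of index two. -/
theorem hasStarter_of_cov [Finite G] {D : Finset G} (hD : Cov D) (h1 : 1 ∉ D)
    (hinv : ∀ g ∈ D, g⁻¹ ∈ D)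
    (hrest : ∀ d, d ∉ D → d * d ≠ 1 → ∃ H : Subgroup G, H.index = 2 ∧ d ∉ H) : HasStarter G := by
  classical
  haveI := Fintype.ofFinite G
  obtain ⟨n, hn⟩ : ∃ n, Fintype.card G - D.card ≤ n := ⟨_, le_rfl⟩
  induction n generalizing D with
  | zero =>
    exfalso
    have hc : Fintype.card G ≤ D.card := by omega
    have : D = Finset.univ := Finset.eq_univ_of_card D
      (le_antisymm (Finset.card_le_univ D) hc)
    rw [this] at h1
    exact h1 (Finset.mem_univ _)
  | succ n ih =>
    by_cases hfull : ∀ g, g ∈ D ↔ g ≠ 1
    · exact hasStarter_of_cov_full hD hfull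
    · push Not at hfull
      obtain ⟨g, hg⟩ := hfull
      have hg' : g ∉ D ∧ g ≠ 1 := by
        rcases hg with ⟨ha, hb⟩ | ⟨ha, hb⟩
        · exact absurd (hb ▸ ha) h1
        · exact ⟨ha, hb⟩
      obtain ⟨hgD, hg1⟩ := hg'
      have hlt : D.card < Fintype.card G := by
        refine lt_of_le_of_ne (Finset.card_le_univ D) ?_
        intro hc
        apply hgD
        rw [(Finset.card_eq_iff_eq_univ D).1 hc]
        exact Finset.mem_univ _
      by_cases hgg : g * g = 1
      · have hgi : g⁻¹ = g := by rw [inv_eq_iff_mul_eq_one]; exact hgg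
        have hdis : Disjoint D {g} := by simpa using hgD
        refine ih (Cov.cons D {g} hD (blk_invol hg1 hgg) hdis) ?_ ?_ ?_ ?_
        · simp [h1, hg1.symm]
        · intro x hx
          simp only [Finset.mem_union, Finset.mem_singleton] at hx ⊢
          rcases hx with hx | hx
          · exact Or.inl (hinv x hx)
          · right; rw [hx, hgi]
        · intro d hd hdd
          exact hrest d (fun h => hd (Finset.mem_union_left _ h)) hdd
        · rw [Finset.card_union_of_disjoint hdis, Finset.card_singleton]
          omega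
      · have hgi : g⁻¹ ∉ D := fun h => hgD (by simpa using hinv _ h)
        obtain ⟨H, hH, hgH⟩ := hrest g hgD hgg
        have hdis : Disjoint D {g, g⁻¹} := by
          rw [Finset.disjoint_right]
          intro x hx
          simp only [Finset.mem_insert, Finset.mem_singleton] at hx
          rcases hx with rfl | rfl
          · exact hgD
          · exact hgi
        refine ih (Cov.cons D {g, g⁻¹} hD (blk_pair hgg H hH hgH) hdis) ?_ ?_ ?_ ?_
        · simp only [Finset.mem_union, Finset.mem_insert, Finset.mem_singleton, not_or]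
          refine ⟨h1, hg1.symm, ?_⟩
          intro h
          apply hg1
          simpa using h.symm
        · intro x hx
          simp only [Finset.mem_union, Finset.mem_insert, Finset.mem_singleton] at hx ⊢
          rcases hx with hx | hx | hx
          · exact Or.inl (hinv x hx)
          · right; right; rw [hx]
          · right; left; rw [hx, inv_inv]
        · intro d hd hdd
          exact hrest d (fun h => hd (Finset.mem_union_left _ h)) hdd
        · rw [Finset.card_union_of_disjoint hdis]
          have : 0 < ({g, g⁻¹} : Finset G).card := Finset.card_pos.2 ⟨g, by simp⟩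
          omega

end Pool.Agent.Helper466.Starter
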