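import Mathlib

set_option autoImplicit false

namespace Pool.Agent.Helper466.Starter

section aux
variable {G : Type*} [Group G]

theorem comm_of_sq {a b : G} (ha : a * a = 1) (hb : b * b = 1) (hab : (a * b) * (a * b) = 1) :
    a * b = b * a := by
  have ha' : a⁻¹ = a := inv_eq_of_mul_eq_one_left ha
  have hb' : b⁻¹ = b := inv_eq_of_mul_eq_one_left hb
  have h : (a * b)⁻¹ = a * b := inv_eq_of_mul_eq_one_left hab
  rw [← h, mul_inv_rev, ha', hb']

theorem comm_of_mem {B : Subgroup G} {x : G} (hx : x * x = 1) (hc : ∀ b ∈ B, x * b = b * x)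
    {h : G} (hh : h * x ∈ B) : x * h = h * x := by
  have h1 : x * (h * x) = (h * x) * x := hc _ hh
  have h3 : x * h * x = h := by rw [mul_assoc, h1, mul_assoc, hx, mul_one]
  calc x * h = x * h * (x * x) := by rw [hx, mul_one]
    _ = (x * h * x) * x := by rw [mul_assoc (x * h)]
    _ = h * x := by rw [h3]

def extG (B : Subgroup G) (x : G) (hx : x * x = 1) (hc : ∀ b ∈ B, x * b = b * x) :
    Subgroup G where
  carrier := {g | g ∈ B ∨ g * x ∈ B}
  one_mem' := Or.inl B.one_mem
  mul_mem' := by
    intro g h hg hh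
    rcases hg with hg | hg <;> rcases hh with hh | hh
    · left; exact B.mul_mem hg hh
    · right; rw [mul_assoc]; exact B.mul_mem hg hh
    · right
      have : g * h * x = (g * x) * h := by rw [mul_assoc, ← hc h hh, mul_assoc]
      rw [this]; exact B.mul_mem hg hh
    · left
      have h2 : x * h = h * x := comm_of_mem hx hc hh
      have h4 : g * h = (g * x) * (h * x) := by
        calc g * h = g * (x * x) * h := by rw [hx, mul_one]
          _ = (g * x) * (x * h) := by simp only [mul_assoc]
          _ = (g * x) * (h * x) := by rw [h2]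
      rw [h4]; exact B.mul_mem hg hh
  inv_mem' := by
    intro g hg
    rcases hg with hg | hg
    · left; exact B.inv_mem hg
    · right
      have h2 : x * g = g * x := comm_of_mem hx hc hg
      have hx' : x⁻¹ = x := inv_eq_of_mul_eq_one_left hx
      have h3 : g⁻¹ * x = (g * x)⁻¹ := by
        rw [← h2, mul_inv_rev, hx']
      rw [h3]; exact B.inv_mem hg

theorem mem_extG {B : Subgroup G} {x : G} {hx : x * x = 1} {hc : ∀ b ∈ B, x * b = b * x} {g : G} :
    g ∈ extG B x hx hc ↔ g ∈ B ∨ g * x ∈ B := Iff.rfl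

theorem extG_sq {B : Subgroup G} {x : G} {hx : x * x = 1} {hc : ∀ b ∈ B, x * b = b * x}
    (hB : ∀ b ∈ B, b * b = 1) {g : G} (hg : g ∈ extG B x hx hc) : g * g = 1 := by
  rcases mem_extG.mp hg with hg | hg
  · exact hB g hg
  · have h2 : x * g = g * x := comm_of_mem hx hc hg
    have h3 := hB _ hg
    calc g * g = g * (x * x) * g := by rw [hx, mul_one]
      _ = (g * x) * (x * g) := by simp only [mul_assoc]
      _ = 1 := by rw [h2, h3]

theorem extension_lemma [Finite G] (P A : Subgroup G) [P.Normal]
    (hmax : ∀ B : Subgroup G, (∀ b ∈ B, b * b = 1) → B ⊓ P = ⊥ → Nat.card B ≤ Nat.card A)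
    (B : Subgroup G) (hB : ∀ b ∈ B, b * b = 1) (hBP : B ⊓ P = ⊥) (hAB : Nat.card A ≤ Nat.card B)
    (x : G) (hx : x * x = 1) (hc : ∀ b ∈ B, x * b = b * x) (hxB : x ∉ B ⊔ P) : False := by
  have h1 := hmax (extG B x hx hc) (fun b hb => extG_sq hB hb) (by
    rw [Subgroup.eq_bot_iff_forall]
    intro g hg
    obtain ⟨hg1, hg2⟩ := Subgroup.mem_inf.mp hg
    rcases mem_extG.mp hg1 with hg1 | hg1
    · have : g ∈ B ⊓ P := Subgroup.mem_inf.mpr ⟨hg1, hg2⟩
      rw [hBP] at this
      exact Subgroup.mem_bot.mp this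
    · exfalso
      apply hxB
      have : x = g⁻¹ * (g * x) := by group
      rw [this]
      exact (B ⊔ P).mul_mem ((B ⊔ P).inv_mem (Subgroup.mem_sup_right hg2))
        (Subgroup.mem_sup_left hg1))
  have h2 : B < extG B x hx hc := by
    refine lt_of_le_of_ne (fun b hb => Or.inl hb) ?_
    intro h
    apply hxB
    apply Subgroup.mem_sup_left
    rw [h]
    right
    rw [hx]
    exact B.one_mem
  have h3 : Nat.card B < Nat.card (extG B x hx hc) := by
    have h4 : (B : Set G) ⊂ (extG B x hx hc : Set G) := h2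
    exact Set.Finite.card_lt_card (Set.toFinite _) h4
  omega

theorem claimA_aux [Finite G] (z e : G) (hz1 : z ≠ 1) (hzz : z * z = 1)
    (hzc : ∀ g, g * z = z * g) (hee : e * e = 1)
    (hconj : ∀ g, g * e * g⁻¹ = e ∨ g * e * g⁻¹ = e * z)
    (P A : Subgroup G) [P.Normal] (hzP : z ∈ P) (heP : e ∈ P)
    (hA2 : ∀ a ∈ A, a * a = 1) (hAP : A ⊓ P = ⊥)
    (hmax : ∀ B : Subgroup G, (∀ b ∈ B, b * b = 1) → B ⊓ P = ⊥ → Nat.card B ≤ Nat.card A)
    (y : G) (hy : y ∉ A ⊔ P) (hyy : y * y = 1)
    (hstar : ∀ a ∈ A, ∃ f, (f = 1 ∨ f = z ∨ f = e ∨ f = e * z) ∧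
      (a * y * f) * (a * y * f) = 1) : False := by
  -- elements of `E`
  have hEP : ∀ f, (f = 1 ∨ f = z ∨ f = e ∨ f = e * z) → f ∈ P := by
    rintro f (rfl | rfl | rfl | rfl)
    · exact P.one_mem
    · exact hzP
    · exact heP
    · exact P.mul_mem heP hzP
  have hEsq : ∀ f, (f = 1 ∨ f = z ∨ f = e ∨ f = e * z) → f * f = 1 := by
    rintro f (rfl | rfl | rfl | rfl)
    · simp
    · exact hzz
    · exact hee
    · rw [mul_assoc, ← mul_assoc z, ← hzc e, mul_assoc e, hzz, mul_one, hee]
  have hEc : ∀ g, g * e = e * g → ∀ f, (f = 1 ∨ f = z ∨ f = e ∨ f = e * z) → g * f = f * g := by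
    rintro g hg f (rfl | rfl | rfl | rfl)
    · simp
    · exact hzc g
    · exact hg
    · rw [← mul_assoc, hg, mul_assoc, hzc g, mul_assoc]
  have hce : ∀ g, g * e * g⁻¹ = e → g * e = e * g := by
    intro g hg
    rw [mul_inv_eq_iff_eq_mul] at hg
    exact hg
  have hsame : ∀ g, g * e = e * g → ∀ f, (f = 1 ∨ f = z ∨ f = e ∨ f = e * z) →
      (g * f) * (g * f) = g * g := by
    intro g hg f hf
    have h1 := hEc g hg f hf
    calc (g * f) * (g * f) = g * (f * g) * f := by simp only [mul_assoc]
      _ = g * g * (f * f) := by rw [← h1]; simp only [mul_assoc]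
      _ = g * g := by rw [hEsq f hf, mul_one]
  have hno : ∀ g, ¬ (g * e = e * g) → g * e * g⁻¹ = e * z := by
    intro g hg
    rcases hconj g with h | h
    · exact absurd (hce g h) hg
    · exact h
  have hmulz : ∀ g h, g * e * g⁻¹ = e * z → h * e * h⁻¹ = e * z → (g * h) * e = e * (g * h) := by
    intro g h hg hh
    apply hce
    have h1 : g * h * e * (g * h)⁻¹ = g * (h * e * h⁻¹) * g⁻¹ := by
      simp only [mul_assoc, mul_inv_rev]
    have h2 : g * (e * z) * g⁻¹ = (g * e * g⁻¹) * z := by
      rw [← mul_assoc g, mul_assoc (g * e), ← hzc g⁻¹]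
      simp only [mul_assoc]
    rw [h1, hh, h2, hg, mul_assoc, hzz, mul_one]
  have hmulc : ∀ g h, g * e = e * g → h * e * h⁻¹ = e * z → (g * h) * e * (g * h)⁻¹ = e * z := by
    intro g h hg hh
    have h1 : g * h * e * (g * h)⁻¹ = g * (h * e * h⁻¹) * g⁻¹ := by
      simp only [mul_assoc, mul_inv_rev]
    have h2 : g * (e * z) * g⁻¹ = (g * e * g⁻¹) * z := by
      rw [← mul_assoc g, mul_assoc (g * e), ← hzc g⁻¹]
      simp only [mul_assoc]
    rw [h1, hh, h2, hg]
    simp
  have hyP : ∀ f, (f = 1 ∨ f = z ∨ f = e ∨ f = e * z) → y * f ∉ A ⊔ P := by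
    intro f hf h
    apply hy
    have : y = (y * f) * f⁻¹ := by group
    rw [this]
    exact (A ⊔ P).mul_mem h ((A ⊔ P).inv_mem (Subgroup.mem_sup_right (hEP f hf)))
  by_cases hye : y * e = e * y
  · -- case 1
    have hac : ∀ a ∈ A, a * e = e * a → a * y = y * a := by
      intro a ha hae
      obtain ⟨f, hf, hfy⟩ := hstar a ha
      have hay : (a * y) * e = e * (a * y) := by
        rw [mul_assoc, hye, ← mul_assoc, hae, mul_assoc]
      rw [hsame (a * y) hay f hf] at hfy
      exact comm_of_sq (hA2 a ha) hyy hfy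
    by_cases hall : ∀ a ∈ A, a * e = e * a
    · exact extension_lemma P A hmax A hA2 hAP le_rfl y hyy
        (fun b hb => (hac b hb (hall b hb)).symm) hy
    · push Not at hall
      obtain ⟨a0, ha0, ha0e⟩ := hall
      obtain ⟨f, hf, hfy⟩ := hstar a0 ha0
      have hy'2 : (y * f) * (y * f) = 1 := by rw [hsame y hye f hf, hyy]
      rw [mul_assoc a0] at hfy
      have ha0y := comm_of_sq (hA2 a0 ha0) hy'2 hfy
      have hac' : ∀ a ∈ A, a * e = e * a → a * (y * f) = (y * f) * a := by
        intro a ha hae
        rw [← mul_assoc, hac a ha hae, mul_assoc, hEc a hae f hf, mul_assoc]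
      refine extension_lemma P A hmax A hA2 hAP le_rfl (y * f) hy'2 ?_ (hyP f hf)
      intro a ha
      by_cases hae : a * e = e * a
      · exact (hac' a ha hae).symm
      · have h1 := hac' (a0 * a) (A.mul_mem ha0 ha) (hmulz a0 a (hno a0 ha0e) (hno a hae))
        have h2 : a = a0 * (a0 * a) := by rw [← mul_assoc, hA2 a0 ha0, one_mul]
        symm
        calc a * (y * f) = a0 * ((a0 * a) * (y * f)) := by
              rw [← mul_assoc a0 (a0 * a), ← h2]
          _ = a0 * ((y * f) * (a0 * a)) := by rw [h1]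
          _ = (a0 * (y * f)) * (a0 * a) := by simp only [mul_assoc]
          _ = (y * f) * (a0 * (a0 * a)) := by rw [ha0y]; simp only [mul_assoc]
          _ = (y * f) * a := by rw [← h2]
  · -- case 2
    have hyez := hno y hye
    by_cases hall : ∀ a ∈ A, a * e = e * a
    · -- case 2a
      have hAcomm : ∀ a ∈ A, ∀ a' ∈ A, a * a' = a' * a := by
        intro a ha a' ha'
        exact comm_of_sq (hA2 a ha) (hA2 a' ha') (hA2 _ (A.mul_mem ha ha'))
      -- conjugates of elements of E by y
      have hconjE : ∀ f, (f = 1 ∨ f = z ∨ f = e ∨ f = e * z) →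
          (y * f * y⁻¹ = 1 ∨ y * f * y⁻¹ = z ∨ y * f * y⁻¹ = e ∨ y * f * y⁻¹ = e * z) := by
        rintro f (rfl | rfl | rfl | rfl)
        · left; simp
        · right; left; rw [hzc y]; simp
        · right; right; right; exact hyez
        · right; right; left
          rw [← mul_assoc y, mul_assoc (y * e), ← hzc y⁻¹, ← mul_assoc, hyez, mul_assoc, hzz,
            mul_one]
      have hmulE : ∀ f, (f = 1 ∨ f = z ∨ f = e ∨ f = e * z) →
          (z * f = 1 ∨ z * f = z ∨ z * f = e ∨ z * f = e * z) := by
        rintro f (rfl | rfl | rfl | rfl)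
        · right; left; simp
        · left; exact hzz
        · right; right; right; rw [hzc]
        · right; right; left; rw [← mul_assoc, ← hzc e, mul_assoc, hzz, mul_one]
      -- the set B
      let S : Set (Subgroup G) := {C | z ∉ C ∧ ∀ c ∈ C, c * y = y * c ∧
        ∃ a ∈ A, ∃ f, (f = 1 ∨ f = z ∨ f = e ∨ f = e * z) ∧ c = a * f}
      have hSne : S.Nonempty := ⟨⊥, by
        refine ⟨by rwa [Subgroup.mem_bot], ?_⟩
        intro c hc
        rw [Subgroup.mem_bot] at hc
        subst hc
        exact ⟨by simp, 1, A.one_mem, 1, Or.inl rfl, by simp⟩⟩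
      obtain ⟨C, hCmax⟩ := (Set.toFinite S).exists_maximal hSne
      obtain ⟨hzC, hC⟩ := hCmax.prop
      -- properties of elements a * f
      have hsq : ∀ a ∈ A, ∀ f, (f = 1 ∨ f = z ∨ f = e ∨ f = e * z) → (a * f) * (a * f) = 1 := by
        intro a ha f hf
        rw [hsame a (hall a ha) f hf, hA2 a ha]
      have hCsq : ∀ c ∈ C, c * c = 1 := by
        intro c hc
        obtain ⟨-, a, ha, f, hf, rfl⟩ := hC c hc
        exact hsq a ha f hf
      have hEE : ∀ f, (f = 1 ∨ f = z ∨ f = e ∨ f = e * z) →
          ∀ f', (f' = 1 ∨ f' = z ∨ f' = e ∨ f' = e * z) → f * f' = f' * f := by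
        intro f hf f' hf'
        have h1 : e * f = f * e := hEc e rfl f hf
        exact hEc f h1.symm f' hf'
      have hcl : ∀ f, (f = 1 ∨ f = z ∨ f = e ∨ f = e * z) →
          ∀ f', (f' = 1 ∨ f' = z ∨ f' = e ∨ f' = e * z) →
          (f * f' = 1 ∨ f * f' = z ∨ f * f' = e ∨ f * f' = e * z) := by
        rintro f (rfl | rfl | rfl | rfl) f' hf'
        · simpa using hf'
        · exact hmulE f' hf'
        · rcases hf' with rfl | rfl | rfl | rfl
          · right; right; left; simp
          · right; right; right; rfl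
          · left; exact hee
          · right; left; rw [← mul_assoc, hee, one_mul]
        · rcases hf' with rfl | rfl | rfl | rfl
          · right; right; right; simp
          · right; right; left; rw [mul_assoc, hzz, mul_one]
          · right; left; rw [mul_assoc, ← hzc f', ← mul_assoc, hee, one_mul]
          · left; exact hEsq _ (Or.inr (Or.inr (Or.inr rfl)))
      have hcommaf : ∀ a ∈ A, ∀ f, (f = 1 ∨ f = z ∨ f = e ∨ f = e * z) →
          ∀ a' ∈ A, ∀ f', (f' = 1 ∨ f' = z ∨ f' = e ∨ f' = e * z) →
          (a * f) * (a' * f') = (a' * f') * (a * f) := by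
        intro a ha f hf a' ha' f' hf'
        have h1 := hEc a' (hall a' ha') f hf
        have h2 := hEc a (hall a ha) f' hf'
        calc (a * f) * (a' * f') = a * (f * a') * f' := by simp only [mul_assoc]
          _ = (a * a') * (f * f') := by rw [← h1]; simp only [mul_assoc]
          _ = (a' * a) * (f' * f) := by rw [hAcomm a ha a' ha', hEE f hf f' hf']
          _ = a' * (a * f') * f := by simp only [mul_assoc]
          _ = (a' * f') * (a * f) := by rw [h2]; simp only [mul_assoc]
      -- maximality
      have hfull : ∀ a ∈ A, ∀ f, (f = 1 ∨ f = z ∨ f = e ∨ f = e * z) →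
          (a * f) * y = y * (a * f) → a * f ∈ C ∨ z * (a * f) ∈ C := by
        intro a ha f hf hxy
        by_contra hcon
        push Not at hcon
        have hxc : ∀ b ∈ C, (a * f) * b = b * (a * f) := by
          intro b hb
          obtain ⟨-, a', ha', f', hf', rfl⟩ := hC b hb
          exact hcommaf a ha f hf a' ha' f' hf'
        have hD : extG C (a * f) (hsq a ha f hf) hxc ∈ S := by
          refine ⟨?_, ?_⟩
          · intro h
            rcases mem_extG.mp h with h | h
            · exact hzC h
            · exact hcon.2 h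
          · intro c hc
            rcases mem_extG.mp hc with hc | hc
            · exact hC c hc
            · obtain ⟨h1, a', ha', f', hf', h2⟩ := hC _ hc
              have h3 : c = (a' * f') * (a * f) := by
                rw [← h2, mul_assoc, hsq a ha f hf, mul_one]
              refine ⟨?_, a' * a, A.mul_mem ha' ha, f' * f, hcl f' hf' f hf, ?_⟩
              · have h4 : c = (c * (a * f)) * (a * f) := by
                  rw [mul_assoc, hsq a ha f hf, mul_one]
                rw [h4, mul_assoc, hxy, ← mul_assoc, h1, mul_assoc]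
              · rw [h3]
                have h5 := hEc a (hall a ha) f' hf'
                calc (a' * f') * (a * f) = a' * (f' * a) * f := by simp only [mul_assoc]
                  _ = (a' * a) * (f' * f) := by rw [← h5]; simp only [mul_assoc]
        have hle : C ≤ extG C (a * f) (hsq a ha f hf) hxc := fun b hb => Or.inl hb
        have hge := hCmax.le_of_ge hD hle
        apply hcon.1
        apply hge
        right
        rw [hsq a ha f hf]
        exact C.one_mem
      have hsurj : ∀ a : A, ∃ c : C, ∃ f, (f = 1 ∨ f = z ∨ f = e ∨ f = e * z) ∧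
          (c : G) = a * f := by
        rintro ⟨a, ha⟩
        obtain ⟨f, hf, hfy⟩ := hstar a ha
        have hf' := hconjE f hf
        have hby : (a * (y * f * y⁻¹)) * y = a * y * f := by group
        have hc := comm_of_sq (hsq a ha _ hf') hyy (by rw [hby]; exact hfy)
        rcases hfull a ha _ hf' hc with h | h
        · exact ⟨⟨_, h⟩, _, hf', rfl⟩
        · refine ⟨⟨_, h⟩, _, hmulE _ hf', ?_⟩
          simp only
          rw [← mul_assoc z a, ← hzc a, mul_assoc]
      choose φ hφ using hsurj
      have hinj : Function.Injective φ := by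
        intro a a' haa
        obtain ⟨f, hf, h1⟩ := hφ a
        obtain ⟨f', hf', h2⟩ := hφ a'
        rw [haa, h2] at h1
        have h3 : (a : G)⁻¹ * a' = f * f'⁻¹ := by
          have : (a : G)⁻¹ * a' = (a : G)⁻¹ * (a' * f') * f'⁻¹ := by group
          rw [this, h1]
          group
        have h4 : (a : G)⁻¹ * a' ∈ A ⊓ P := by
          refine Subgroup.mem_inf.mpr ⟨A.mul_mem (A.inv_mem a.2) a'.2, ?_⟩
          rw [h3]
          exact P.mul_mem (hEP f hf) (P.inv_mem (hEP f' hf'))
        rw [hAP, Subgroup.mem_bot] at h4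
        apply Subtype.ext
        exact inv_mul_eq_one.mp h4
      have hcard : Nat.card A ≤ Nat.card C := Nat.card_le_card_of_injective φ hinj
      refine extension_lemma P A hmax C hCsq ?_ hcard y hyy (fun b hb => (hC b hb).1.symm) ?_
      · rw [Subgroup.eq_bot_iff_forall]
        intro c hc
        obtain ⟨hc1, hc2⟩ := Subgroup.mem_inf.mp hc
        obtain ⟨hcy, a, ha, f, hf, hcaf⟩ := hC c hc1
        have ha1 : a = 1 := by
          have h4 : a ∈ A ⊓ P := by
            refine Subgroup.mem_inf.mpr ⟨ha, ?_⟩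
            have : a = c * f⁻¹ := by rw [hcaf]; group
            rw [this]
            exact P.mul_mem hc2 (P.inv_mem (hEP f hf))
          rw [hAP, Subgroup.mem_bot] at h4
          exact h4
        rw [ha1, one_mul] at hcaf
        subst hcaf
        rcases hf with rfl | rfl | rfl | rfl
        · rfl
        · exact absurd hc1 hzC
        · exact absurd hcy.symm hye
        · exfalso
          apply hye
          have h5 : e * z * y = e * y * z := by rw [mul_assoc, ← hzc y, mul_assoc]
          rw [h5, ← mul_assoc] at hcy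
          exact (mul_right_cancel hcy).symm
      · intro h
        apply hy
        have : C ⊔ P ≤ A ⊔ P := by
          refine sup_le ?_ le_sup_right
          intro c hc
          obtain ⟨-, a, ha, f, hf, rfl⟩ := hC c hc
          exact (A ⊔ P).mul_mem (Subgroup.mem_sup_left ha) (Subgroup.mem_sup_right (hEP f hf))
        exact this h
    · -- case 2b
      push Not at hall
      obtain ⟨a0, ha0, ha0e⟩ := hall
      have hac : ∀ a ∈ A, ¬ (a * e = e * a) → a * y = y * a := by
        intro a ha hae
        obtain ⟨f, hf, hfy⟩ := hstar a ha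
        have hay : (a * y) * e = e * (a * y) := hmulz a y (hno a hae) hyez
        rw [hsame (a * y) hay f hf] at hfy
        exact comm_of_sq (hA2 a ha) hyy hfy
      refine extension_lemma P A hmax A hA2 hAP le_rfl y hyy ?_ hy
      intro a ha
      by_cases hae : a * e = e * a
      · have h1 : ¬ ((a * a0) * e = e * (a * a0)) := by
          intro h
          have h2 := hmulc a a0 hae (hno a0 ha0e)
          rw [h, mul_inv_cancel_right] at h2
          apply hz1
          have h3 : e * 1 = e * z := by rw [mul_one]; exact h2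
          exact (mul_left_cancel h3).symm
        have h2 := hac (a * a0) (A.mul_mem ha ha0) h1
        have h3 := hac a0 ha0 ha0e
        have h4 : a = (a * a0) * a0 := by rw [mul_assoc, hA2 a0 ha0, mul_one]
        symm
        calc a * y = ((a * a0) * a0) * y := by rw [← h4]
          _ = (a * a0) * (a0 * y) := by rw [mul_assoc]
          _ = (a * a0) * y * a0 := by rw [h3]; simp only [mul_assoc]
          _ = y * ((a * a0) * a0) := by rw [h2]; simp only [mul_assoc]
          _ = y * a := by rw [← h4]
      · exact (hac a ha hae).symm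

end aux

/-- Maximality claim. `E = {1, z, e, e z}` is a normal Klein four-group, `P` a normal subgroup
containing `E` and all squares and centralising `E`; `A` is a subgroup of exponent 2 with
`A ⊓ P = ⊥`, of maximal order. If `y ∉ A ⊔ P`, then for some `a ∈ A` the coset `a y E` contains no
element of square 1. -/
theorem claimA {G : Type*} [Group G] [Finite G] (z e : G) (hz1 : z ≠ 1) (hzz : z * z = 1)
    (hzc : ∀ g, g * z = z * g) (hee : e * e = 1) (he1 : e ≠ 1) (hez : e ≠ z)
    (hconj : ∀ g, g * e * g⁻¹ = e ∨ g * e * g⁻¹ = e * z)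
    (P A : Subgroup G) [P.Normal] (hzP : z ∈ P) (heP : e ∈ P) (hsq : ∀ g : G, g * g ∈ P)
    (hcomm : ∀ x ∈ P, x * e = e * x)
    (hA2 : ∀ a ∈ A, a * a = 1) (hAP : A ⊓ P = ⊥)
    (hmax : ∀ B : Subgroup G, (∀ b ∈ B, b * b = 1) → B ⊓ P = ⊥ → Nat.card B ≤ Nat.card A)
    (y : G) (hy : y ∉ A ⊔ P) :
    ∃ a ∈ A, ∀ f, (f = 1 ∨ f = z ∨ f = e ∨ f = e * z) → (a * y * f) * (a * y * f) ≠ 1 := by
  by_contra hcon
  push Not at hcon
  obtain ⟨f0, hf0, hy0⟩ := hcon 1 A.one_mem
  rw [one_mul] at hy0
  have hEP : ∀ f, (f = 1 ∨ f = z ∨ f = e ∨ f = e * z) → f ∈ P := by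
    rintro f (rfl | rfl | rfl | rfl)
    · exact P.one_mem
    · exact hzP
    · exact heP
    · exact P.mul_mem heP hzP
  have hf0sq : f0 * f0 = 1 := by
    rcases hf0 with rfl | rfl | rfl | rfl
    · simp
    · exact hzz
    · exact hee
    · rw [mul_assoc, ← mul_assoc z, ← hzc e, mul_assoc e, hzz, mul_one, hee]
  have hmulE : ∀ f, (f = 1 ∨ f = z ∨ f = e ∨ f = e * z) →
      (z * f = 1 ∨ z * f = z ∨ z * f = e ∨ z * f = e * z) := by
    rintro f (rfl | rfl | rfl | rfl)
    · right; left; simp
    · left; exact hzz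
    · right; right; right; rw [hzc]
    · right; right; left; rw [← mul_assoc, ← hzc e, mul_assoc, hzz, mul_one]
  have hcl : ∀ f, (f = 1 ∨ f = z ∨ f = e ∨ f = e * z) →
      ∀ f', (f' = 1 ∨ f' = z ∨ f' = e ∨ f' = e * z) →
      (f * f' = 1 ∨ f * f' = z ∨ f * f' = e ∨ f * f' = e * z) := by
    rintro f (rfl | rfl | rfl | rfl) f' hf'
    · simpa using hf'
    · exact hmulE f' hf'
    · rcases hf' with rfl | rfl | rfl | rfl
      · right; right; left; simp
      · right; right; right; rfl
      · left; exact hee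
      · right; left; rw [← mul_assoc, hee, one_mul]
    · rcases hf' with rfl | rfl | rfl | rfl
      · right; right; right; simp
      · right; right; left; rw [mul_assoc, hzz, mul_one]
      · right; left; rw [mul_assoc, ← hzc f', ← mul_assoc, hee, one_mul]
      · left; rw [mul_assoc, ← mul_assoc z, ← hzc e, mul_assoc e, hzz, mul_one, hee]
  refine claimA_aux z e hz1 hzz hzc hee hconj P A hzP heP hA2 hAP hmax (y * f0) ?_ hy0 ?_
  · intro h
    apply hy
    have : y = (y * f0) * f0⁻¹ := by group
    rw [this]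
    exact (A ⊔ P).mul_mem h ((A ⊔ P).inv_mem (Subgroup.mem_sup_right (hEP f0 hf0)))
  · intro a ha
    obtain ⟨f, hf, hfy⟩ := hcon a ha
    refine ⟨f0 * f, hcl f0 hf0 f hf, ?_⟩
    have : a * (y * f0) * (f0 * f) = a * y * f := by
      calc a * (y * f0) * (f0 * f) = a * y * (f0 * f0) * f := by simp only [mul_assoc]
        _ = a * y * f := by rw [hf0sq, mul_one]
    rw [this]
    exact hfy

end Pool.Agent.Helper466.Starter
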