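import Mathlib

set_option autoImplicit false

namespace Pool.Agent.Helper466.Starter

open Classical in
/-- rainbow matchings as sets of pairs (colour, point) -/
structure RM {α β ι : Type*} (C : Finset ι) (σ : ι → α → β) (R : Finset (ι × α)) : Prop where
  col : ∀ p ∈ R, p.1 ∈ C
  inj1 : Set.InjOn Prod.fst (R : Set (ι × α))
  inj2 : Set.InjOn Prod.snd (R : Set (ι × α))
  inj3 : Set.InjOn (fun p : ι × α => σ p.1 p.2) (R : Set (ι × α))

open Classical in
theorem RM.insert' {α β ι : Type*} {C : Finset ι} {σ : ι → α → β} {R : Finset (ι × α)}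
    (h : RM C σ R) {g : ι} {a : α} (hg : g ∈ C) (h1 : ∀ p ∈ R, p.1 ≠ g) (h2 : ∀ p ∈ R, p.2 ≠ a)
    (h3 : ∀ p ∈ R, σ p.1 p.2 ≠ σ g a) : RM C σ (insert (g, a) R) := by
  refine ⟨?_, ?_, ?_, ?_⟩
  · intro p hp
    rcases Finset.mem_insert.mp hp with rfl | hp
    · exact hg
    · exact h.col p hp
  · rw [Finset.coe_insert]
    intro p hp p' hp' he
    rcases hp with rfl | hp <;> rcases hp' with rfl | hp'
    · rfl
    · exact absurd he.symm (h1 _ hp')
    · exact absurd he (h1 _ hp)
    · exact h.inj1 hp hp' he
  · rw [Finset.coe_insert]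
    intro p hp p' hp' he
    rcases hp with rfl | hp <;> rcases hp' with rfl | hp'
    · rfl
    · exact absurd he.symm (h2 _ hp')
    · exact absurd he (h2 _ hp)
    · exact h.inj2 hp hp' he
  · rw [Finset.coe_insert]
    intro p hp p' hp' he
    rcases hp with rfl | hp <;> rcases hp' with rfl | hp'
    · rfl
    · exact absurd he.symm (h3 _ hp')
    · exact absurd he (h3 _ hp)
    · exact h.inj3 hp hp' he

theorem RM.mono {α β ι : Type*} {C : Finset ι} {σ : ι → α → β} {R R' : Finset (ι × α)}
    (h : RM C σ R) (hR : R' ⊆ R) : RM C σ R' :=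
  ⟨fun p hp => h.col p (hR hp), h.inj1.mono (fun _ hx => hR hx), h.inj2.mono (fun _ hx => hR hx),
    h.inj3.mono (fun _ hx => hR hx)⟩

open Classical in
theorem rm_step {α β ι : Type*} [Fintype α] (n : ℕ) (hα : n ≤ Fintype.card α)
    (C : Finset ι) (hC : 2 * n ≤ C.card) (σ : ι → α → β)
    (hσ : ∀ c ∈ C, Function.Injective (σ c)) (k : ℕ) (hk : k < n) (R : Finset (ι × α))
    (hR : RM C σ R) (hRk : R.card = k) : ∃ R' : Finset (ι × α), RM C σ R' ∧ R'.card = k + 1 := by
  by_contra hno
  push Not at hno
  have key : ∀ j : ℕ, j ≤ k + 1 → ∃ (J : Finset (ι × α)) (G : Finset ι), J ⊆ R ∧ J.card = j ∧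
      G.card = j ∧ (∀ p ∈ R, p.1 ∉ G) ∧
      ∀ a : α, (∀ p ∈ R \ J, p.2 ≠ a) → ∃ R' : Finset (ι × α), RM C σ R' ∧ R'.card = k ∧
        (R'.image (fun p => σ p.1 p.2) = R.image (fun p => σ p.1 p.2)) ∧ (∀ p ∈ R', p.2 ≠ a) ∧
        R \ J ⊆ R' ∧ ∀ p ∈ R', p.1 ∈ R.image Prod.fst ∪ G := by
    intro j
    induction j with
    | zero =>
      intro _
      refine ⟨∅, ∅, Finset.empty_subset _, rfl, rfl, fun p _ => by simp, ?_⟩
      intro a ha
      rw [Finset.sdiff_empty] at ha
      refine ⟨R, hR, hRk, rfl, ha, by rw [Finset.sdiff_empty], ?_⟩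
      intro p hp
      exact Finset.mem_union_left _ (Finset.mem_image_of_mem _ hp)
    | succ j ih =>
      intro hj
      obtain ⟨J, G, hJR, hJc, hGc, hGR, hX⟩ := ih (by omega)
      -- a new colour
      obtain ⟨g, hgC, hgR, hgG⟩ : ∃ g ∈ C, (∀ p ∈ R, p.1 ≠ g) ∧ g ∉ G := by
        have h1 : ((R.image Prod.fst) ∪ G).card < C.card := by
          have h2 := Finset.card_union_le (R.image Prod.fst) G
          have h3 : (R.image Prod.fst).card ≤ R.card := Finset.card_image_le
          omega
        obtain ⟨g, hg, hg'⟩ := Finset.exists_mem_notMem_of_card_lt_card h1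
        rw [Finset.mem_union, not_or] at hg'
        exact ⟨g, hg, fun p hp h => hg'.1 (h ▸ Finset.mem_image_of_mem _ hp), hg'.2⟩
      set X : Finset α := Finset.univ \ (R \ J).image Prod.snd with hXdef
      have hXmem : ∀ a, a ∈ X ↔ ∀ p ∈ R \ J, p.2 ≠ a := by
        intro a
        rw [hXdef, Finset.mem_sdiff, Finset.mem_image]
        constructor
        · rintro ⟨-, h⟩ p hp he
          exact h ⟨p, hp, he⟩
        · intro h
          exact ⟨Finset.mem_univ _, fun ⟨p, hp, he⟩ => h p hp he⟩
      have hXc : j + 1 ≤ X.card := by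
        have h1 : ((R \ J).image Prod.snd).card ≤ (R \ J).card := Finset.card_image_le
        have h2 : (R \ J).card = k - j := by
          rw [Finset.card_sdiff_of_subset hJR, hRk, hJc]
        have h3 : Fintype.card α - ((R \ J).image Prod.snd).card ≤ X.card := by
          rw [hXdef, ← Finset.card_univ]
          exact Finset.le_card_sdiff _ _
        omega
      -- all images in B(R)
      have hB : ∀ a ∈ X, σ g a ∈ R.image (fun p => σ p.1 p.2) := by
        intro a ha
        by_contra hb
        obtain ⟨R', r1, r2, r3, r4, r5, r6⟩ := hX a ((hXmem a).mp ha)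
        rw [← r3] at hb
        have hg1 : ∀ p ∈ R', p.1 ≠ g := by
          intro p hp h
          have := r6 p hp
          rw [Finset.mem_union, Finset.mem_image, h] at this
          rcases this with ⟨p', hp', he⟩ | h'
          · exact hgR p' hp' he
          · exact hgG h'
        refine hno (insert (g, a) R') (r1.insert' hgC hg1 r4 ?_) ?_
        · intro p hp he
          exact hb (Finset.mem_image.mpr ⟨p, hp, he⟩)
        · rw [Finset.card_insert_of_notMem, r2]
          intro h
          exact hg1 _ h rfl
      -- choose a0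
      obtain ⟨b, hb1, hb2⟩ : ∃ b ∈ X.image (σ g), b ∉ J.image (fun p => σ p.1 p.2) := by
        apply Finset.exists_mem_notMem_of_card_lt_card
        rw [Finset.card_image_of_injective _ (hσ g hgC)]
        have : (J.image (fun p => σ p.1 p.2)).card ≤ J.card := Finset.card_image_le
        omega
      obtain ⟨a0, ha0, rfl⟩ := Finset.mem_image.mp hb1
      obtain ⟨e, heR, heb⟩ := Finset.mem_image.mp (hB a0 ha0)
      have heJ : e ∉ J := fun h => hb2 (Finset.mem_image.mpr ⟨e, h, heb⟩)
      obtain ⟨R', r1, r2, r3, r4, r5, r6⟩ := hX a0 ((hXmem a0).mp ha0)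
      have heR' : e ∈ R' := r5 (Finset.mem_sdiff.mpr ⟨heR, heJ⟩)
      have hg1 : ∀ p ∈ R', p.1 ≠ g := by
        intro p hp h
        have := r6 p hp
        rw [Finset.mem_union, Finset.mem_image, h] at this
        rcases this with ⟨p', hp', he⟩ | h'
        · exact hgR p' hp' he
        · exact hgG h'
      refine ⟨insert e J, insert g G, ?_, ?_, ?_, ?_, ?_⟩
      · exact Finset.insert_subset heR hJR
      · rw [Finset.card_insert_of_notMem heJ, hJc]
      · rw [Finset.card_insert_of_notMem hgG, hGc]
      · intro p hp h
        rcases Finset.mem_insert.mp h with h | h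
        · exact hgR p hp h
        · exact hGR p hp h
      · intro a ha
        by_cases haX : a ∈ X
        · obtain ⟨S, s1, s2, s3, s4, s5, s6⟩ := hX a ((hXmem a).mp haX)
          refine ⟨S, s1, s2, s3, s4, ?_, ?_⟩
          · intro p hp
            rw [Finset.mem_sdiff, Finset.mem_insert, not_or] at hp
            exact s5 (Finset.mem_sdiff.mpr ⟨hp.1, hp.2.2⟩)
          · intro p hp
            have := s6 p hp
            rw [Finset.mem_union] at this ⊢
            exact this.imp id (Finset.mem_insert_of_mem)
        · have hae : a = e.2 := by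
            rw [hXmem] at haX
            push Not at haX
            obtain ⟨p, hp, hpa⟩ := haX
            by_cases hpe : p = e
            · rw [← hpa, hpe]
            · exfalso
              refine ha p ?_ hpa
              rw [Finset.mem_sdiff] at hp ⊢
              refine ⟨hp.1, fun h => ?_⟩
              rcases Finset.mem_insert.mp h with h | h
              · exact hpe h
              · exact hp.2 h
          refine ⟨insert (g, a0) (R'.erase e), ?_, ?_, ?_, ?_, ?_, ?_⟩
          · refine (r1.mono (Finset.erase_subset e R')).insert' hgC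
              (fun p hp => hg1 p (Finset.mem_of_mem_erase hp))
              (fun p hp => r4 p (Finset.mem_of_mem_erase hp)) ?_
            intro p hp he
            apply Finset.ne_of_mem_erase hp
            apply r1.inj3 (Finset.mem_of_mem_erase hp) heR'
            show σ p.1 p.2 = σ e.1 e.2
            rw [he, ← heb]
          · rw [Finset.card_insert_of_notMem, Finset.card_erase_of_mem heR', r2]
            · have : 0 < R'.card := Finset.card_pos.mpr ⟨e, heR'⟩
              omega
            · intro h
              exact hg1 _ (Finset.mem_of_mem_erase h) rfl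
          · rw [← r3, Finset.image_insert]
            show insert (σ g a0) _ = _
            rw [← heb]
            ext b
            rw [Finset.mem_insert, Finset.mem_image, Finset.mem_image]
            constructor
            · rintro (rfl | ⟨p, hp, rfl⟩)
              · exact ⟨e, heR', rfl⟩
              · exact ⟨p, Finset.mem_of_mem_erase hp, rfl⟩
            · rintro ⟨p, hp, rfl⟩
              by_cases hpe : p = e
              · left
                rw [hpe]
              · right
                exact ⟨p, Finset.mem_erase.mpr ⟨hpe, hp⟩, rfl⟩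
          · intro p hp hpa
            rcases Finset.mem_insert.mp hp with rfl | hp
            · have h1 := (hXmem a0).mp ha0 e (Finset.mem_sdiff.mpr ⟨heR, heJ⟩)
              exact h1 (by rw [← hae, ← hpa])
            · apply Finset.ne_of_mem_erase hp
              apply r1.inj2 (Finset.mem_of_mem_erase hp) heR'
              rw [hpa, hae]
          · intro p hp
            rw [Finset.mem_sdiff, Finset.mem_insert, not_or] at hp
            apply Finset.mem_insert_of_mem
            exact Finset.mem_erase.mpr ⟨hp.2.1, r5 (Finset.mem_sdiff.mpr ⟨hp.1, hp.2.2⟩)⟩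
          · intro p hp
            rw [Finset.mem_union]
            rcases Finset.mem_insert.mp hp with rfl | hp
            · right
              exact Finset.mem_insert_self _ _
            · have := r6 p (Finset.mem_of_mem_erase hp)
              rw [Finset.mem_union] at this
              exact this.imp id (Finset.mem_insert_of_mem)
  obtain ⟨J, G, hJR, hJc, -⟩ := key (k + 1) le_rfl
  have := Finset.card_le_card hJR
  omega

theorem exists_rm {α β ι : Type*} [Fintype α] (n : ℕ) (hα : n ≤ Fintype.card α)
    (C : Finset ι) (hC : 2 * n ≤ C.card) (σ : ι → α → β)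
    (hσ : ∀ c ∈ C, Function.Injective (σ c)) (k : ℕ) (hk : k ≤ n) :
    ∃ R : Finset (ι × α), RM C σ R ∧ R.card = k := by
  induction k with
  | zero =>
    exact ⟨∅, ⟨fun p hp => absurd hp (Finset.notMem_empty p), by simp, by simp, by simp⟩, rfl⟩
  | succ k ih =>
    obtain ⟨R, h1, h2⟩ := ih (by omega)
    exact rm_step n hα C hC σ hσ k (by omega) R h1 h2

/-- Rainbow matching lemma (Drisko; Aharoni and Berger) in the form with `2 n` colours: a set `C` of
at least `2 n` colours, each colour an injective map `σ c : α → β`, and `α` has at least `n` elements.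
Then there are `n` distinct colours and `n` distinct points of `α` whose images are distinct. -/
theorem rainbow {α β ι : Type*} [Fintype α] (n : ℕ) (hα : n ≤ Fintype.card α)
    (C : Finset ι) (hC : 2 * n ≤ C.card) (σ : ι → α → β)
    (hσ : ∀ c ∈ C, Function.Injective (σ c)) :
    ∃ (c : Fin n → ι) (a : Fin n → α), Function.Injective c ∧ (∀ j, c j ∈ C) ∧
      Function.Injective a ∧ Function.Injective (fun j => σ (c j) (a j)) := by
  obtain ⟨R, hR, hc⟩ := exists_rm n hα C hC σ hσ n le_rfl
  let e : Fin n ≃ R := (Finset.equivFinOfCardEq hc).symm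
  refine ⟨fun j => (e j).1.1, fun j => (e j).1.2, ?_, ?_, ?_, ?_⟩
  · intro i j h
    exact e.injective (Subtype.ext (hR.inj1 (e i).2 (e j).2 h))
  · intro j
    exact hR.col _ (e j).2
  · intro i j h
    exact e.injective (Subtype.ext (hR.inj2 (e i).2 (e j).2 h))
  · intro i j h
    exact e.injective (Subtype.ext (hR.inj3 (e i).2 (e j).2 h))

end Pool.Agent.Helper466.Starter
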