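import Mathlib
import Pool.Agent.Helper466.Starter.Base2
import Pool.Agent.Helper466.Starter.Rainbow

set_option autoImplicit false

namespace Pool.Agent.Helper466.Starter

/-- the four elements of a double -/
def qd {G : Type*} [Group G] (pr : G → G) (f : G) : Bool → Bool → G
  | false, false => f
  | false, true => f⁻¹
  | true, false => pr f
  | true, true => (pr f)⁻¹

/-- the finset of the four elements of a double -/
def quad {G : Type*} [Group G] [DecidableEq G] (pr : G → G) (f : G) : Finset G :=
  {f, f⁻¹, pr f, (pr f)⁻¹}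

theorem mem_quad {G : Type*} [Group G] [DecidableEq G] (pr : G → G) (f x : G) :
    x ∈ quad pr f ↔ ∃ s t, qd pr f s t = x := by
  simp only [quad, Finset.mem_insert, Finset.mem_singleton, Bool.exists_bool, qd]
  constructor
  · rintro (h | h | h | h) <;> simp [h]
  · rintro ((h | h) | (h | h)) <;> simp [h]

section

variable {G : Type*} [Group G]

/-- If `A ⊓ U = ⊥`, the elements of `U` outside `L` avoid `L ⊔ A`. -/
theorem mem_of_mem_sup {L U A : Subgroup G} [L.Normal] (hLU : L ≤ U) (hAU : A ⊓ U = ⊥)
    {x : G} (hxU : x ∈ U) (hx : x ∈ L ⊔ A) : x ∈ L := by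
  rw [Subgroup.mem_sup_of_normal_left] at hx
  obtain ⟨l, hl, a, ha, rfl⟩ := hx
  have ha' : a ∈ U := by
    have := U.mul_mem (U.inv_mem (hLU hl)) hxU
    simpa using this
  have : a ∈ A ⊓ U := ⟨ha, ha'⟩
  rw [hAU, Subgroup.mem_bot] at this
  rw [this, mul_one]
  exact hl

theorem two_point_inj {I : Type*} {H K : Subgroup G} (hHK : H ≤ K) (W : I → G ⧸ K)
    (hW : Function.Injective W) (w : I → Bool → G) (hw : ∀ i b, (w i b : G ⧸ K) = W i)
    (hne : ∀ i, (w i false : G ⧸ H) ≠ (w i true : G ⧸ H)) :
    Function.Injective (fun p : I × Bool => (w p.1 p.2 : G ⧸ H)) := by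
  rintro ⟨i, b⟩ ⟨i', b'⟩ h
  have h1 : (w i b : G ⧸ H) = (w i' b' : G ⧸ H) := h
  have h2 : (w i b : G ⧸ K) = (w i' b' : G ⧸ K) := by
    rw [QuotientGroup.eq] at h1 ⊢
    exact hHK h1
  rw [hw, hw] at h2
  have h3 := hW h2
  subst h3
  rcases b with _ | _ <;> rcases b' with _ | _
  · rfl
  · exact absurd h1 (hne i)
  · exact absurd h1.symm (hne i)
  · rfl

end

theorem lemmaB {G : Type*} [Group G] [Finite G] [DecidableEq G] (L U A M : Subgroup G)
    [L.Normal] [U.Normal] (hLU : L ≤ U) (d0 : G) (hd0U : d0 ∈ U) (hd0L : d0 ∉ L)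
    (hAU : A ⊓ U = ⊥) (hUM : U ≤ M) (hAM : A ≤ M) (hM : M.index = 2)
    (hidx : (L ⊔ A).index = 2 * (U ⊔ A).index)
    (pr : G → G) (C : Finset G) (hCM : ∀ f ∈ C, f ∉ M) (hpr : ∀ f ∈ C, f⁻¹ * pr f ∈ L)
    (hC : ∀ f ∈ C, ∀ f' ∈ C, ∀ s t s' t' : Bool, qd pr f s t = qd pr f' s' t' →
      f = f' ∧ s = s' ∧ t = t')
    (P : Finset G) (hPU : ∀ d ∈ P, d ∈ U) (hPL : ∀ d ∈ P, d ∉ L) (hP : ∀ d ∈ P, d⁻¹ ∉ P)
    (n : ℕ) (hn : (U ⊔ A).index = 2 * n + P.card) (hnC : 2 * n ≤ C.card) :
    ∃ C' ⊆ C, C'.card = n ∧ Blk (P ∪ P.image (·⁻¹) ∪ C'.biUnion (quad pr)) := by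
  classical
  set K : Subgroup G := U ⊔ A with hKdef
  set H : Subgroup G := L ⊔ A with hHdef
  have hKM : K ≤ M := sup_le hUM hAM
  have hHK : H ≤ K := sup_le_sup_right hLU A
  -- the index type of the left cosets of K in M
  haveI : Fintype (M ⧸ K.subgroupOf M) := Fintype.ofFinite _
  haveI : Fintype (G ⧸ K) := Fintype.ofFinite _
  have hcardM : 2 * Fintype.card (M ⧸ K.subgroupOf M) = K.index := by
    have h := Subgroup.relIndex_mul_index hKM
    rw [hM, Subgroup.relIndex, Subgroup.index, Nat.card_eq_fintype_card] at h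
    rw [← h, mul_comm]
  have hnα : n ≤ Fintype.card (M ⧸ K.subgroupOf M) := by omega
  set rep : (M ⧸ K.subgroupOf M) → G := fun a => ((a.out : M) : G) with hrep
  have hrepM : ∀ a, rep a ∈ M := fun a => (a.out : M).2
  have hrepinj : ∀ a b, (rep a)⁻¹ * rep b ∈ K → a = b := by
    intro a b h
    rw [← Quotient.out_eq a, ← Quotient.out_eq b]
    apply Quotient.sound
    rw [← Quotient.eq_iff_equiv]
    have : (QuotientGroup.mk (a.out : M) : M ⧸ K.subgroupOf M) = QuotientGroup.mk (b.out : M) := by
      rw [QuotientGroup.eq, Subgroup.mem_subgroupOf]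
      exact h
    exact this
  obtain ⟨c, a, hcinj, hcC, hainj, hσinj⟩ := rainbow n hnα C hnC
    (fun f a => ((f * rep a : G) : G ⧸ K)) (by
      intro f _ a b h
      apply hrepinj
      have h' : ((f * rep a : G) : G ⧸ K) = ((f * rep b : G) : G ⧸ K) := h
      rw [QuotientGroup.eq] at h'
      have e : (f * rep a)⁻¹ * (f * rep b) = (rep a)⁻¹ * rep b := by group
      rwa [e] at h')
  -- the part W1 of the K-cosets used by the rainbow matching
  set W1 : Fin n ⊕ Fin n → G ⧸ K := Sum.elim (fun j => (rep (a j) : G ⧸ K))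
    (fun j => ((c j * rep (a j) : G) : G ⧸ K)) with hW1
  have hW1inj : Function.Injective W1 := by
    have hx : ∀ j j', (rep (a j) : G ⧸ K) ≠ ((c j' * rep (a j') : G) : G ⧸ K) := by
      intro j j' h
      rw [QuotientGroup.eq] at h
      apply hCM (c j') (hcC j')
      have h1 := hKM h
      have h2 := M.mul_mem (M.mul_mem (hrepM (a j)) h1) (M.inv_mem (hrepM (a j')))
      have e : rep (a j) * ((rep (a j))⁻¹ * (c j' * rep (a j'))) * (rep (a j'))⁻¹ = c j' := by
        group
      rwa [e] at h2
    rintro (j | j) (j' | j') h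
    · simp only [hW1, Sum.elim_inl] at h
      rw [QuotientGroup.eq] at h
      rw [hainj (hrepinj _ _ h)]
    · exact absurd h (hx j j')
    · exact absurd h.symm (hx j' j)
    · simp only [hW1, Sum.elim_inr] at h
      rw [hσinj h]
  have hcompl : Fintype.card {q : G ⧸ K // q ∉ Set.range W1} = Fintype.card {d // d ∈ P} := by
    have h1 : Fintype.card {q : G ⧸ K // q ∉ Set.range W1} =
        Fintype.card (G ⧸ K) - Fintype.card {q : G ⧸ K // q ∈ Set.range W1} :=
      Fintype.card_subtype_compl _
    have h2 : Fintype.card {q : G ⧸ K // q ∈ Set.range W1} = 2 * n := by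
      have := Fintype.card_congr (Equiv.ofInjective W1 hW1inj)
      rw [Fintype.card_sum, Fintype.card_fin] at this
      rw [two_mul, this]
    have h3 : Fintype.card (G ⧸ K) = 2 * n + P.card := by
      rw [← hn, Subgroup.index, Nat.card_eq_fintype_card]
    rw [h1, h2, h3, Fintype.card_coe, Nat.add_sub_cancel_left]
  have eqv := Fintype.equivOfCardEq hcompl
  set yy : {d // d ∈ P} → G := fun d => ((eqv.symm d).1).out with hyy
  have hyyK : ∀ d, (yy d : G ⧸ K) = (eqv.symm d).1 := fun d => Quotient.out_eq _
  set W : (Fin n ⊕ Fin n) ⊕ {d // d ∈ P} → G ⧸ K :=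
    Sum.elim W1 (fun d => (eqv.symm d).1) with hW
  have hWinj : Function.Injective W := by
    rintro (i | d) (i' | d') h
    · rw [hW1inj h]
    · exact absurd ⟨i, h⟩ (eqv.symm d').2
    · exact absurd ⟨i', h.symm⟩ (eqv.symm d).2
    · have : eqv.symm d = eqv.symm d' := Subtype.ext h
      rw [eqv.symm.injective this]
  -- the two vertices in each K-coset
  set w : (Fin n ⊕ Fin n) ⊕ {d // d ∈ P} → Bool → G := fun i b =>
    match i, b with
    | Sum.inl (Sum.inl j), false => rep (a j)
    | Sum.inl (Sum.inl j), true => d0 * rep (a j)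
    | Sum.inl (Sum.inr j), false => c j * rep (a j)
    | Sum.inl (Sum.inr j), true => pr (c j) * (d0 * rep (a j))
    | Sum.inr d, false => yy d
    | Sum.inr d, true => d.1 * yy d with hw
  -- left multiplication by elements of U outside L
  have key1 : ∀ u ∈ U, ∀ x : G, ((u * x : G) : G ⧸ K) = (x : G ⧸ K) := by
    intro u hu x
    rw [QuotientGroup.eq]
    have h1 : x⁻¹ * u⁻¹ * x ∈ U := by
      have := ‹U.Normal›.conj_mem u⁻¹ (U.inv_mem hu) x⁻¹
      simpa using this
    have e : (u * x)⁻¹ * x = x⁻¹ * u⁻¹ * x := by group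
    rw [e]
    exact Subgroup.mem_sup_left h1
  have key2 : ∀ u ∈ U, u ∉ L → ∀ x : G, (x : G ⧸ H) ≠ ((u * x : G) : G ⧸ H) := by
    intro u hu huL x h
    rw [QuotientGroup.eq] at h
    have h1 : x⁻¹ * u * x ∈ U := by
      have := ‹U.Normal›.conj_mem u hu x⁻¹
      simpa using this
    have e : x⁻¹ * (u * x) = x⁻¹ * u * x := by group
    rw [e] at h
    have h2 := mem_of_mem_sup hLU hAU h1 h
    apply huL
    have := ‹L.Normal›.conj_mem _ h2 x
    have e2 : x * (x⁻¹ * u * x) * x⁻¹ = u := by group
    rwa [e2] at this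
  have hprU : ∀ j, ∃ u ∈ U, u ∉ L ∧ pr (c j) * (d0 * rep (a j)) = u * (c j * rep (a j)) := by
    intro j
    refine ⟨pr (c j) * d0 * (c j)⁻¹, ?_, ?_, by group⟩
    · have h1 : (c j)⁻¹ * pr (c j) ∈ U := hLU (hpr _ (hcC j))
      have h2 := ‹U.Normal›.conj_mem _ (U.mul_mem h1 hd0U) (c j)
      have e : c j * ((c j)⁻¹ * pr (c j) * d0) * (c j)⁻¹ = pr (c j) * d0 * (c j)⁻¹ := by group
      rwa [e] at h2
    · intro h
      apply hd0L
      have h2 := ‹L.Normal›.conj_mem _ h (c j)⁻¹
      have e : (c j)⁻¹ * (pr (c j) * d0 * (c j)⁻¹) * ((c j)⁻¹)⁻¹ = (c j)⁻¹ * pr (c j) * d0 := by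
        group
      rw [e] at h2
      have h3 := L.mul_mem (L.inv_mem (hpr _ (hcC j))) h2
      have e2 : ((c j)⁻¹ * pr (c j))⁻¹ * ((c j)⁻¹ * pr (c j) * d0) = d0 := by group
      rwa [e2] at h3
  have hwW : ∀ i b, (w i b : G ⧸ K) = W i := by
    rintro ((j | j) | d) (_ | _)
    · rfl
    · exact key1 d0 hd0U _
    · rfl
    · obtain ⟨u, hu, _, he⟩ := hprU j
      show ((pr (c j) * (d0 * rep (a j)) : G) : G ⧸ K) = ((c j * rep (a j) : G) : G ⧸ K)
      rw [he]
      exact key1 u hu _
    · exact hyyK d
    · show ((d.1 * yy d : G) : G ⧸ K) = (eqv.symm d).1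
      rw [key1 d.1 (hPU _ d.2), hyyK]
  have hwne : ∀ i, (w i false : G ⧸ H) ≠ (w i true : G ⧸ H) := by
    rintro ((j | j) | d)
    · exact key2 d0 hd0U hd0L _
    · obtain ⟨u, hu, huL, he⟩ := hprU j
      show ((c j * rep (a j) : G) : G ⧸ H) ≠ ((pr (c j) * (d0 * rep (a j)) : G) : G ⧸ H)
      rw [he]
      exact key2 u hu huL _
    · exact key2 d.1 (hPU _ d.2) (hPL _ d.2) _
  have hinjw := two_point_inj hHK W hWinj w hwW hwne
  refine ⟨Finset.univ.image c, ?_, ?_, ?_⟩
  · intro f hf
    simp only [Finset.mem_image, Finset.mem_univ, true_and] at hf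
    obtain ⟨j, rfl⟩ := hf
    exact hcC j
  · rw [Finset.card_image_of_injective _ hcinj, Finset.card_univ, Fintype.card_fin]
  · have hcsq : ∀ j, c j ≠ (c j)⁻¹ := by
      intro j h
      have := hC (c j) (hcC j) (c j) (hcC j) false false false true h
      simp at this
    have hpsq : ∀ j, pr (c j) ≠ (pr (c j))⁻¹ := by
      intro j h
      have := hC (c j) (hcC j) (c j) (hcC j) true false true true h
      simp at this
    have hPsq : ∀ d : {d // d ∈ P}, (d.1 : G) ≠ (d.1)⁻¹ := by
      intro d h
      apply hP _ d.2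
      rw [← h]
      exact d.2
    have sqne : ∀ g : G, g ≠ g⁻¹ → g⁻¹ * g⁻¹ ≠ 1 := by
      intro g hg h
      apply hg
      have : g⁻¹ = g⁻¹⁻¹ := (inv_eq_of_mul_eq_one_right h).symm
      rw [inv_inv] at this
      exact this.symm
    set xx : (Fin n ⊕ Fin n) ⊕ {d // d ∈ P} → G := fun i => match i with
        | Sum.inl (Sum.inl j) => rep (a j)
        | Sum.inl (Sum.inr j) => d0 * rep (a j)
        | Sum.inr d => yy d with hxx
    set yv : (Fin n ⊕ Fin n) ⊕ {d // d ∈ P} → G := fun i => match i with
        | Sum.inl (Sum.inl j) => c j * rep (a j)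
        | Sum.inl (Sum.inr j) => pr (c j) * (d0 * rep (a j))
        | Sum.inr d => d.1 * yy d with hyv
    set δ : (Fin n ⊕ Fin n) ⊕ {d // d ∈ P} → G := fun i => match i with
        | Sum.inl (Sum.inl j) => c j
        | Sum.inl (Sum.inr j) => pr (c j)
        | Sum.inr d => d.1 with hδ
    have hd1 : ∀ i, xx i * (yv i)⁻¹ = (δ i)⁻¹ := by
      rintro ((j | j) | d) <;> simp only [hxx, hyv, hδ] <;> group
    have hd2 : ∀ i, yv i * (xx i)⁻¹ = δ i := by
      rintro ((j | j) | d) <;> simp only [hxx, hyv, hδ] <;> group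
    have hδne : ∀ i, δ i ≠ (δ i)⁻¹ := by
      rintro ((j | j) | d)
      · exact hcsq j
      · exact hpsq j
      · exact hPsq d
    have hin : ∀ d, δ (Sum.inr d) ∈ M := fun d => hUM (hPU _ d.2)
    have hout : ∀ i, δ (Sum.inl i) ∉ M := by
      have hcM : ∀ j, c j ∉ M := fun j => hCM _ (hcC j)
      rintro (j | j)
      · exact hcM j
      · intro h
        apply hcM j
        have h0 : pr (c j) ∈ M := h
        have h1 := M.mul_mem h0 (M.inv_mem (hUM (hLU (hpr _ (hcC j)))))
        have e : pr (c j) * ((c j)⁻¹ * pr (c j))⁻¹ = c j := by group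
        rwa [e] at h1
    -- injectivity of the signed differences
    have hsig : ∀ i i', (δ i = δ i' → i = i') ∧ (δ i)⁻¹ ≠ δ i' := by
      rintro ((j | j) | d) ((j' | j') | d')
      · constructor
        · intro h
          rw [hcinj h]
        · intro h
          have := hC (c j) (hcC j) (c j') (hcC j') false true false false h
          simp at this
      · constructor
        · intro h
          have := hC (c j) (hcC j) (c j') (hcC j') false false true false h
          simp at this
        · intro h
          have := hC (c j) (hcC j) (c j') (hcC j') false true true false h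
          simp at this
      · constructor
        · intro h
          exact absurd (show δ (Sum.inl (Sum.inl j)) ∈ M from by rw [h]; exact hin d') (hout (Sum.inl j))
        · intro h
          exact absurd (show δ (Sum.inl (Sum.inl j)) ∈ M from by
            rw [← M.inv_mem_iff, h]; exact hin d') (hout (Sum.inl j))
      · constructor
        · intro h
          have := hC (c j) (hcC j) (c j') (hcC j') true false false false h
          simp at this
        · intro h
          have := hC (c j) (hcC j) (c j') (hcC j') true true false false h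
          simp at this
      · constructor
        · intro h
          have := hC (c j) (hcC j) (c j') (hcC j') true false true false h
          rw [hcinj this.1]
        · intro h
          have := hC (c j) (hcC j) (c j') (hcC j') true true true false h
          simp at this
      · constructor
        · intro h
          exact absurd (show δ (Sum.inl (Sum.inr j)) ∈ M from by rw [h]; exact hin d') (hout (Sum.inr j))
        · intro h
          exact absurd (show δ (Sum.inl (Sum.inr j)) ∈ M from by
            rw [← M.inv_mem_iff, h]; exact hin d') (hout (Sum.inr j))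
      · constructor
        · intro h
          exact absurd (show δ (Sum.inl (Sum.inl j')) ∈ M from by rw [← h]; exact hin d) (hout (Sum.inl j'))
        · intro h
          exact absurd (show δ (Sum.inl (Sum.inl j')) ∈ M from by
            rw [← h, M.inv_mem_iff]; exact hin d) (hout (Sum.inl j'))
      · constructor
        · intro h
          exact absurd (show δ (Sum.inl (Sum.inr j')) ∈ M from by rw [← h]; exact hin d) (hout (Sum.inr j'))
        · intro h
          exact absurd (show δ (Sum.inl (Sum.inr j')) ∈ M from by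
            rw [← h, M.inv_mem_iff]; exact hin d) (hout (Sum.inr j'))
      · constructor
        · intro h
          rw [Subtype.ext (show d.1 = d'.1 from h)]
        · intro h
          apply hP _ d.2
          have h' : (d.1)⁻¹ = d'.1 := h
          rw [h']
          exact d'.2
    refine Blk.mk' (ι := (Fin n ⊕ Fin n) ⊕ {d // d ∈ P}) (κ := Empty) H
      xx yv Empty.elim Empty.elim ?_ (fun j => j.elim) ?_ ?_ _ ?_ ?_
    · intro i
      rw [hd1]
      exact sqne _ (hδne i)
    · -- vertices
      set φ : (((Fin n ⊕ Fin n) ⊕ {d // d ∈ P}) ⊕ ((Fin n ⊕ Fin n) ⊕ {d // d ∈ P})) ⊕ Empty →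
          ((Fin n ⊕ Fin n) ⊕ {d // d ∈ P}) × Bool := fun s => match s with
        | Sum.inl (Sum.inl (Sum.inl (Sum.inl j))) => (Sum.inl (Sum.inl j), false)
        | Sum.inl (Sum.inl (Sum.inl (Sum.inr j))) => (Sum.inl (Sum.inl j), true)
        | Sum.inl (Sum.inl (Sum.inr d)) => (Sum.inr d, false)
        | Sum.inl (Sum.inr (Sum.inl (Sum.inl j))) => (Sum.inl (Sum.inr j), false)
        | Sum.inl (Sum.inr (Sum.inl (Sum.inr j))) => (Sum.inl (Sum.inr j), true)
        | Sum.inl (Sum.inr (Sum.inr d)) => (Sum.inr d, true) with hφ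
      have hφinj : Function.Injective φ := by
        rintro ((((j | j) | d) | ((j | j) | d)) | e) ((((j' | j') | d') | ((j' | j') | d')) | e') h
        all_goals first
          | exact e.elim
          | exact e'.elim
          | (simp only [hφ, Prod.mk.injEq, Sum.inl.injEq, Sum.inr.injEq, reduceCtorEq,
              and_false, and_true] at h; try subst h; try rfl)
      have hcomp := hinjw.comp hφinj
      convert hcomp using 1
      funext s
      rcases s with (((j | j) | d) | ((j | j) | d)) | e
      all_goals first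
        | exact e.elim
        | rfl
    · rw [hidx, hn]
      simp only [Fintype.card_sum, Fintype.card_fin, Fintype.card_coe]
      have : Fintype.card Empty = 0 := rfl
      omega
    · rintro ((i | i) | e) ((i' | i') | e') h
      rotate_left 2
      · exact e'.elim
      rotate_left 2
      · exact e'.elim
      · exact e.elim
      · exact e.elim
      · exact e.elim
      · simp only [Sum.elim_inl, hd1] at h
        rw [(hsig i i').1 (inv_injective h)]
      · simp only [Sum.elim_inl, Sum.elim_inr, hd1, hd2] at h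
        exact absurd h (hsig i i').2
      · simp only [Sum.elim_inl, Sum.elim_inr, hd1, hd2] at h
        exact absurd h.symm (hsig i' i).2
      · simp only [Sum.elim_inl, Sum.elim_inr, hd2] at h
        rw [(hsig i i').1 h]
    · intro g
      simp only [hd1, hd2, Finset.mem_union, Finset.mem_biUnion, Finset.mem_image,
        Finset.mem_univ, true_and, IsEmpty.exists_iff, or_false, exists_exists_eq_and]
      constructor
      · rintro ((hg | ⟨d, hd, hg⟩) | ⟨j, hj⟩)
        · right; exact ⟨Sum.inr ⟨g, hg⟩, rfl⟩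
        · left; exact ⟨Sum.inr ⟨d, hd⟩, hg⟩
        · simp only [quad, Finset.mem_insert, Finset.mem_singleton] at hj
          rcases hj with hj | hj | hj | hj
          · right; exact ⟨Sum.inl (Sum.inl j), hj.symm⟩
          · left; exact ⟨Sum.inl (Sum.inl j), hj.symm⟩
          · right; exact ⟨Sum.inl (Sum.inr j), hj.symm⟩
          · left; exact ⟨Sum.inl (Sum.inr j), hj.symm⟩
      · rintro (⟨((j | j) | d), hg⟩ | ⟨((j | j) | d), hg⟩)
        · right
          refine ⟨j, ?_⟩
          rw [← hg]
          simp [quad, hδ]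
        · right
          refine ⟨j, ?_⟩
          rw [← hg]
          simp [quad, hδ]
        · left; right
          exact ⟨d.1, d.2, hg⟩
        · right
          refine ⟨j, ?_⟩
          rw [← hg]
          simp [quad, hδ]
        · right
          refine ⟨j, ?_⟩
          rw [← hg]
          simp [quad, hδ]
        · left; left
          rw [← hg]
          exact d.2

end Pool.Agent.Helper466.Starter
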