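import Mathlib
import Pool.Agent.Helper466.Starter.LemmaB

set_option autoImplicit false

namespace Pool.Agent.Helper466.Starter

theorem Cov.of_eq {G : Type*} [Group G] {D D' : Finset G} (h : Cov D) (he : D = D') : Cov D' :=
  he ▸ h

theorem Cov.union {G : Type*} [Group G] [dec : DecidableEq G] {D D' : Finset G} (h : Cov D)
    (h' : Cov D') (hdis : Disjoint D D') : Cov (D ∪ D') := by
  induction h' with
  | empty => simpa using h
  | @cons D1 B inst hD1 hB hdis1 ih =>
    have hinst : inst = dec := Subsingleton.elim _ _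
    subst hinst
    have h1 : Disjoint D D1 := by
      rw [Finset.disjoint_left] at hdis ⊢
      intro x hx hx1
      exact hdis hx (by simp [hx1])
    have h2 : Disjoint (D ∪ D1) B := by
      rw [Finset.disjoint_left] at hdis hdis1 ⊢
      intro x hx hxB
      rcases Finset.mem_union.1 hx with hx | hx
      · exact hdis hx (by simp [hxB])
      · exact hdis1 hx hxB
    refine (Cov.cons _ B (ih h1) hB h2).of_eq ?_
    ext x
    simp only [Finset.mem_union]
    tauto

theorem Cov.blk {G : Type*} [Group G] {B : Finset G} (h : Blk B) : Cov B := by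
  classical
  refine (Cov.cons ∅ B Cov.empty h (Finset.disjoint_empty_left _)).of_eq ?_
  simp

/-- one layer `U \ L`: a set `R` of representatives of inverse pairs, of even size, is covered with
the help of at most `m / 2` doubles, `m = |G : U A|`. -/
theorem layer_cov {G : Type*} [Group G] [Finite G] [DecidableEq G] (L U A M : Subgroup G)
    [L.Normal] [U.Normal] (hLU : L ≤ U) (d0 : G) (hd0U : d0 ∈ U) (hd0L : d0 ∉ L)
    (hAU : A ⊓ U = ⊥) (hUM : U ≤ M) (hAM : A ≤ M) (hM : M.index = 2)
    (hidx : (L ⊔ A).index = 2 * (U ⊔ A).index)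
    (pr : G → G) (C : Finset G) (hCM : ∀ f ∈ C, f ∉ M) (hpr : ∀ f ∈ C, f⁻¹ * pr f ∈ L)
    (hC : ∀ f ∈ C, ∀ f' ∈ C, ∀ s t s' t' : Bool, qd pr f s t = qd pr f' s' t' →
      f = f' ∧ s = s' ∧ t = t')
    (hev : Even (U ⊔ A).index) (hmC : (U ⊔ A).index ≤ C.card)
    (r : ℕ) (R : Finset G) (hr : R.card ≤ r) (hRU : ∀ d ∈ R, d ∈ U) (hRL : ∀ d ∈ R, d ∉ L)
    (hR : ∀ d ∈ R, d⁻¹ ∉ R) (hRe : Even R.card) :
    ∃ C' ⊆ C, 2 * C.card ≤ 2 * C'.card + (U ⊔ A).index ∧
      Cov (R ∪ R.image (·⁻¹) ∪ (C \ C').biUnion (quad pr)) := by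
  induction r generalizing R with
  | zero =>
    have : R = ∅ := Finset.card_eq_zero.1 (by omega)
    subst this
    refine ⟨C, subset_rfl, by omega, ?_⟩
    refine Cov.empty.of_eq ?_
    simp
  | succ r ih =>
    by_cases h0 : R.card = 0
    · have : R = ∅ := Finset.card_eq_zero.1 h0
      subst this
      refine ⟨C, subset_rfl, by omega, ?_⟩
      refine Cov.empty.of_eq ?_
      simp
    have hm0 : 0 < (U ⊔ A).index := Nat.pos_of_ne_zero Subgroup.index_ne_zero_of_finite
    by_cases hle : R.card ≤ (U ⊔ A).index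
    · -- one partial block
      obtain ⟨k, hk⟩ := hRe
      obtain ⟨m, hm⟩ := hev
      have hkm : k ≤ m := by omega
      obtain ⟨C1, hC1, hC1c, hB⟩ := lemmaB L U A M hLU d0 hd0U hd0L hAU hUM hAM hM hidx pr C hCM
        hpr hC R hRU hRL hR (m - k) (by omega) (by omega)
      refine ⟨C \ C1, Finset.sdiff_subset, ?_, ?_⟩
      · rw [Finset.card_sdiff_of_subset hC1, hC1c]
        omega
      · refine (Cov.blk hB).of_eq ?_
        rw [Finset.sdiff_sdiff_eq_self hC1]
    · push Not at hle
      obtain ⟨R1, hR1, hR1c⟩ := Finset.exists_subset_card_eq hle.le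
      obtain ⟨C1, hC1, hC1c, hB⟩ := lemmaB L U A M hLU d0 hd0U hd0L hAU hUM hAM hM hidx pr C hCM
        hpr hC R1 (fun d hd => hRU d (hR1 hd)) (fun d hd => hRL d (hR1 hd))
        (fun d hd h => hR d (hR1 hd) (hR1 h)) 0 (by omega) (by omega)
      have hC1e : C1 = ∅ := Finset.card_eq_zero.1 hC1c
      subst hC1e
      rw [Finset.biUnion_empty, Finset.union_empty] at hB
      have hcs : (R \ R1).card = R.card - R1.card := Finset.card_sdiff_of_subset hR1
      obtain ⟨C2, hC2, hC2c, hcov⟩ := ih (R \ R1) (by omega)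
        (fun d hd => hRU d (Finset.sdiff_subset hd)) (fun d hd => hRL d (Finset.sdiff_subset hd))
        (fun d hd h => hR d (Finset.sdiff_subset hd) (Finset.sdiff_subset h)) (by
          rw [hcs, hR1c]
          obtain ⟨k, hk⟩ := hRe
          obtain ⟨m, hm⟩ := hev
          exact ⟨k - m, by omega⟩)
      refine ⟨C2, hC2, hC2c, ?_⟩
      refine (Cov.union hcov (Cov.blk hB) ?_).of_eq ?_
      · rw [Finset.disjoint_left]
        intro x hx hx1
        have hxU : x ∈ U ∧ (x ∈ R1 ∨ x⁻¹ ∈ R1) := by
          rcases Finset.mem_union.1 hx1 with h | h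
          · exact ⟨hRU x (hR1 h), Or.inl h⟩
          · obtain ⟨y, hy, rfl⟩ := Finset.mem_image.1 h
            exact ⟨U.inv_mem (hRU y (hR1 hy)), Or.inr (by simpa using hy)⟩
        obtain ⟨hxU, hx1'⟩ := hxU
        rcases Finset.mem_union.1 hx with h | h
        · rcases Finset.mem_union.1 h with h | h
          · rw [Finset.mem_sdiff] at h
            rcases hx1' with h' | h'
            · exact h.2 h'
            · exact hR x h.1 (hR1 h')
          · obtain ⟨y, hy, rfl⟩ := Finset.mem_image.1 h
            rw [Finset.mem_sdiff] at hy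
            rcases hx1' with h' | h'
            · exact hR y hy.1 (hR1 h')
            · exact hy.2 (by simpa using h')
        · obtain ⟨f, hf, hxf⟩ := Finset.mem_biUnion.1 h
          have hfC : f ∈ C := (Finset.mem_sdiff.1 hf).1
          have hfM := hCM f hfC
          have hxM := hUM hxU
          have hprM : pr f ∉ M := by
            intro h
            apply hfM
            have h1 := M.mul_mem h (M.inv_mem (hUM (hLU (hpr f hfC))))
            have e : pr f * (f⁻¹ * pr f)⁻¹ = f := by group
            rwa [e] at h1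
          simp only [quad, Finset.mem_insert, Finset.mem_singleton] at hxf
          rcases hxf with h | h | h | h
          · rw [h] at hxM; exact hfM hxM
          · rw [h] at hxM; exact hfM (M.inv_mem_iff.1 hxM)
          · rw [h] at hxM; exact hprM hxM
          · rw [h] at hxM; exact hprM (M.inv_mem_iff.1 hxM)
      · ext x
        simp only [Finset.mem_union, Finset.mem_image, Finset.mem_sdiff]
        constructor
        · rintro ((((h | ⟨y, hy, rfl⟩) | h) | (h | ⟨y, hy, rfl⟩)))
          · exact Or.inl (Or.inl h.1)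
          · exact Or.inl (Or.inr ⟨y, hy.1, rfl⟩)
          · exact Or.inr h
          · exact Or.inl (Or.inl (hR1 h))
          · exact Or.inl (Or.inr ⟨y, hR1 hy, rfl⟩)
        · rintro ((h | ⟨y, hy, rfl⟩) | h)
          · by_cases hx : x ∈ R1
            · exact Or.inr (Or.inl hx)
            · exact Or.inl (Or.inl (Or.inl ⟨h, hx⟩))
          · by_cases hx : y ∈ R1
            · exact Or.inr (Or.inr ⟨y, hx, rfl⟩)
            · exact Or.inl (Or.inl (Or.inr ⟨y, ⟨hy, hx⟩, rfl⟩))
          · exact Or.inl (Or.inr h)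

end Pool.Agent.Helper466.Starter
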