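import Mathlib
import Pool.Agent.Helper466.Starter.Layer

set_option autoImplicit false

namespace Pool.Agent.Helper466.Starter

/-- representatives of inverse pairs -/
theorem exists_reps {G : Type*} [Group G] [Finite G] [DecidableEq G] (T : Finset G)
    (hinv : ∀ x ∈ T, x⁻¹ ∈ T) (hsq : ∀ x ∈ T, x * x ≠ 1) :
    ∃ R ⊆ T, (∀ d ∈ R, d⁻¹ ∉ R) ∧ T = R ∪ R.image (·⁻¹) ∧ T.card = 2 * R.card := by
  classical
  obtain ⟨R, hR, hmax⟩ := Finset.exists_max_image
    (T.powerset.filter (fun R => ∀ d ∈ R, d⁻¹ ∉ R)) Finset.card ⟨∅, by simp⟩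
  simp only [Finset.mem_filter, Finset.mem_powerset] at hR hmax
  obtain ⟨hRT, hRinv⟩ := hR
  have hT : T = R ∪ R.image (·⁻¹) := by
    ext x
    simp only [Finset.mem_union, Finset.mem_image]
    constructor
    · intro hx
      by_contra hcon
      push Not at hcon
      obtain ⟨h1, h2⟩ := hcon
      have hxi : x⁻¹ ∉ R := fun h => h2 _ h (inv_inv x)
      have hxx : x⁻¹ ≠ x := by
        intro h
        apply hsq x hx
        nth_rewrite 1 [← h]
        exact inv_mul_cancel x
      have := hmax (insert x R) ⟨?_, ?_⟩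
      · rw [Finset.card_insert_of_notMem h1] at this
        omega
      · intro y hy
        rcases Finset.mem_insert.1 hy with rfl | hy
        · exact hx
        · exact hRT hy
      · intro d hd h
        rcases Finset.mem_insert.1 hd with rfl | hd
        · rcases Finset.mem_insert.1 h with h | h
          · exact hxx h
          · exact hxi h
        · rcases Finset.mem_insert.1 h with h | h
          · rw [← h, inv_inv] at hxi
            exact hxi hd
          · exact hRinv d hd h
    · rintro (h | ⟨y, hy, rfl⟩)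
      · exact hRT h
      · exact hinv y (hRT hy)
  refine ⟨R, hRT, hRinv, hT, ?_⟩
  have hdis : Disjoint R (R.image (·⁻¹)) := by
    rw [Finset.disjoint_left]
    intro x hx h
    obtain ⟨y, hy, rfl⟩ := Finset.mem_image.1 h
    exact hRinv y hy hx
  conv_lhs => rw [hT]
  rw [Finset.card_union_of_disjoint hdis, Finset.card_image_of_injective _ inv_injective]
  ring

section

variable {G : Type*} [Group G] [DecidableEq G] (z e : G)

/-- the partner of `f` in its double -/
def prt (f : G) : G := if f * f = z then f * e else f * z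

variable {z e}

omit [DecidableEq G] in
theorem qd_inj_of {pr : G → G} {f : G} (h1 : f ≠ f⁻¹) (h2 : f ≠ pr f) (h3 : f ≠ (pr f)⁻¹)
    (h4 : f⁻¹ ≠ pr f) (h5 : f⁻¹ ≠ (pr f)⁻¹) (h6 : pr f ≠ (pr f)⁻¹) :
    ∀ s t s' t' : Bool, qd pr f s t = qd pr f s' t' → s = s' ∧ t = t' := by
  rintro (_ | _) (_ | _) (_ | _) (_ | _) h
  · exact ⟨rfl, rfl⟩
  · exact absurd h h1
  · exact absurd h h2
  · exact absurd h h3
  · exact absurd h.symm h1
  · exact ⟨rfl, rfl⟩
  · exact absurd h h4
  · exact absurd h h5
  · exact absurd h.symm h2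
  · exact absurd h.symm h4
  · exact ⟨rfl, rfl⟩
  · exact absurd h h6
  · exact absurd h.symm h3
  · exact absurd h.symm h5
  · exact absurd h.symm h6
  · exact ⟨rfl, rfl⟩

/-- the case `f² = z` -/
theorem quad_sq (hzz : z * z = 1) (hee : e * e = 1)
    (hconj : ∀ g, g * e * g⁻¹ = e ∨ g * e * g⁻¹ = e * z)
    (f : G) (hfsq : f * e * (f * e) ≠ 1) (hfz : f * f = z) :
    f⁻¹ = f * z ∧ f * e * (f * e) = z ∧ prt z e f = f * e ∧ (f * e)⁻¹ = f * e * z := by
  have hfi : f⁻¹ = f * z := by
    rw [inv_eq_iff_mul_eq_one, ← mul_assoc, hfz, hzz]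
  have hfe : f * e * f⁻¹ = e := by
    rcases hconj f with h | h
    · exact h
    · exfalso
      apply hfsq
      calc f * e * (f * e) = (f * e * f⁻¹) * (f * f) * e := by group
        _ = (e * z) * z * e := by rw [h, hfz]
        _ = e * (z * z) * e := by group
        _ = 1 := by rw [hzz, mul_one, hee]
  have hfe' : f * e = e * f := by
    calc f * e = (f * e * f⁻¹) * f := by group
      _ = e * f := by rw [hfe]
  have hfee : f * e * (f * e) = z := by
    calc f * e * (f * e) = f * (e * f) * e := by group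
      _ = f * (f * e) * e := by rw [hfe']
      _ = (f * f) * (e * e) := by group
      _ = z := by rw [hfz, hee, mul_one]
  have hfei : (f * e)⁻¹ = f * e * z := by
    rw [inv_eq_iff_mul_eq_one, ← mul_assoc, hfee, hzz]
  exact ⟨hfi, hfee, by rw [prt, if_pos hfz], hfei⟩

theorem mem_quad_sq (hzz : z * z = 1) (hee : e * e = 1)
    (hconj : ∀ g, g * e * g⁻¹ = e ∨ g * e * g⁻¹ = e * z)
    (f : G) (hfsq : f * e * (f * e) ≠ 1) (hfz : f * f = z) (g : G) :
    g ∈ quad (prt z e) f ↔ g = f ∨ g = f * z ∨ g = f * e ∨ g = f * e * z := by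
  obtain ⟨h1, _, h3, h4⟩ := quad_sq hzz hee hconj f hfsq hfz
  simp only [quad, Finset.mem_insert, Finset.mem_singleton]
  rw [h3, h4, h1]

theorem mem_quad_nsq (hzi : z⁻¹ = z) (hzc : ∀ g, g * z = z * g) (f : G) (hfz : f * f ≠ z) (g : G) :
    g ∈ quad (prt z e) f ↔ g = f ∨ g = f⁻¹ ∨ g = f * z ∨ g = f⁻¹ * z := by
  have h3 : prt z e f = f * z := by rw [prt, if_neg hfz]
  simp only [quad, Finset.mem_insert, Finset.mem_singleton]
  rw [h3, mul_inv_rev, hzi, ← hzc]

theorem quad_spec (hz1 : z ≠ 1) (hzz : z * z = 1)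
    (hzc : ∀ g, g * z = z * g) (hee : e * e = 1) (he1 : e ≠ 1) (hez : e ≠ z)
    (hconj : ∀ g, g * e * g⁻¹ = e ∨ g * e * g⁻¹ = e * z)
    (F : Finset G) (hFz : ∀ f ∈ F, f * z ∈ F) (hFe : ∀ f ∈ F, f * e ∈ F)
    (hFinv : ∀ f ∈ F, f⁻¹ ∈ F) (hFsq : ∀ f ∈ F, f * f ≠ 1) (f : G) (hf : f ∈ F) :
    (∀ s t s' t' : Bool, qd (prt z e) f s t = qd (prt z e) f s' t' → s = s' ∧ t = t') ∧
    (∀ g ∈ quad (prt z e) f, g ∈ F ∧ quad (prt z e) g = quad (prt z e) f) := by
  have hzi : z⁻¹ = z := by rw [inv_eq_iff_mul_eq_one]; exact hzz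
  have hei : e⁻¹ = e := by rw [inv_eq_iff_mul_eq_one]; exact hee
  have hez' : e * z = z * e := hzc e
  by_cases hfz : f * f = z
  · obtain ⟨h1, h2, h3, h4⟩ := quad_sq hzz hee hconj f (hFsq _ (hFe f hf)) hfz
    constructor
    · apply qd_inj_of
      · rw [h1]; intro h; exact hz1 (by simpa using h.symm)
      · rw [h3]; intro h; exact he1 (by simpa using h.symm)
      · rw [h3, h4, mul_assoc]; intro h
        have h5 : e * z = 1 := by simpa using h.symm
        apply hez
        rw [mul_eq_one_iff_eq_inv, hzi] at h5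
        exact h5
      · rw [h3, h1]; intro h
        exact hez (mul_left_cancel h).symm
      · rw [h3, h4, h1]; intro h
        rw [mul_assoc] at h
        have h5 := mul_left_cancel h
        apply he1
        have h6 : 1 * z = e * z := by rw [one_mul]; exact h5
        exact (mul_right_cancel h6).symm
      · rw [h3, h4]; intro h
        exact hz1 (by simpa using h.symm)
    · intro g hg
      rw [mem_quad_sq hzz hee hconj f (hFsq _ (hFe f hf)) hfz] at hg
      have hgF : g ∈ F := by
        rcases hg with rfl | rfl | rfl | rfl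
        · exact hf
        · exact hFz f hf
        · exact hFe f hf
        · exact hFz _ (hFe f hf)
      have hgg : g * g = z := by
        have hzz' : ∀ x : G, x * z * (x * z) = x * x := by
          intro x
          calc x * z * (x * z) = x * (z * x) * z := by group
            _ = x * (x * z) * z := by rw [hzc x]
            _ = x * x * (z * z) := by group
            _ = x * x := by rw [hzz, mul_one]
        rcases hg with rfl | rfl | rfl | rfl
        · exact hfz
        · rw [hzz']; exact hfz
        · exact h2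
        · rw [hzz']; exact h2
      refine ⟨hgF, ?_⟩
      ext x
      rw [mem_quad_sq hzz hee hconj f (hFsq _ (hFe f hf)) hfz,
        mem_quad_sq hzz hee hconj g (hFsq _ (hFe g hgF)) hgg]
      have c1 : ∀ x : G, x * z * z = x := fun x => by rw [mul_assoc, hzz, mul_one]
      have c2 : ∀ x : G, x * e * e = x := fun x => by rw [mul_assoc, hee, mul_one]
      have c3 : ∀ x : G, x * z * e = x * e * z := fun x => by
        rw [mul_assoc, mul_assoc, hez']
      rcases hg with rfl | rfl | rfl | rfl
      · rfl
      · rw [c1, c3, c1]; tauto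
      · rw [c2]; tauto
      · rw [c1, c3, c2, c1]; tauto
  · have h3 : prt z e f = f * z := by rw [prt, if_neg hfz]
    have h4 : (f * z)⁻¹ = f⁻¹ * z := by rw [mul_inv_rev, hzi, ← hzc]
    have hff := hFsq f hf
    have hfi : f ≠ f⁻¹ := by
      intro h
      apply hff
      nth_rewrite 2 [h]
      exact mul_inv_cancel f
    have hffz : f ≠ f⁻¹ * z := by
      intro h
      apply hfz
      nth_rewrite 2 [h]
      group
    constructor
    · apply qd_inj_of
      · exact hfi
      · rw [h3]; intro h; exact hz1 (by simpa using h.symm)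
      · rw [h3, h4]; exact hffz
      · rw [h3]; intro h
        apply hffz
        rw [h, mul_assoc, hzz, mul_one]
      · rw [h3, h4]; intro h; exact hz1 (by simpa using h.symm)
      · rw [h3, h4]; intro h
        exact hfi (mul_right_cancel h)
    · intro g hg
      rw [mem_quad_nsq hzi hzc f hfz] at hg
      have hgF : g ∈ F := by
        rcases hg with rfl | rfl | rfl | rfl
        · exact hf
        · exact hFinv f hf
        · exact hFz f hf
        · exact hFz _ (hFinv f hf)
      have hfz' : f⁻¹ * f⁻¹ ≠ z := by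
        intro h
        apply hfz
        have := congrArg (·⁻¹) h
        simpa [hzi] using this
      have hzz' : ∀ x : G, x * z * (x * z) = x * x := by
        intro x
        calc x * z * (x * z) = x * (z * x) * z := by group
          _ = x * (x * z) * z := by rw [hzc x]
          _ = x * x * (z * z) := by group
          _ = x * x := by rw [hzz, mul_one]
      have hgg : g * g ≠ z := by
        rcases hg with rfl | rfl | rfl | rfl
        · exact hfz
        · exact hfz'
        · rw [hzz']; exact hfz
        · rw [hzz']; exact hfz'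
      refine ⟨hgF, ?_⟩
      ext x
      rw [mem_quad_nsq hzi hzc f hfz, mem_quad_nsq hzi hzc g hgg]
      have c1 : ∀ x : G, x * z * z = x := fun x => by rw [mul_assoc, hzz, mul_one]
      have c4 : (f⁻¹ * z)⁻¹ = f * z := by rw [mul_inv_rev, hzi, inv_inv, ← hzc]
      rcases hg with rfl | rfl | rfl | rfl
      · rfl
      · rw [inv_inv]; tauto
      · rw [h4, c1, c1]; tauto
      · rw [c4, c1, c1]; tauto

theorem exists_doubles [Finite G] (hz1 : z ≠ 1) (hzz : z * z = 1)
    (hzc : ∀ g, g * z = z * g) (hee : e * e = 1) (he1 : e ≠ 1) (hez : e ≠ z)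
    (hconj : ∀ g, g * e * g⁻¹ = e ∨ g * e * g⁻¹ = e * z)
    (F : Finset G) (hFz : ∀ f ∈ F, f * z ∈ F) (hFe : ∀ f ∈ F, f * e ∈ F)
    (hFinv : ∀ f ∈ F, f⁻¹ ∈ F) (hFsq : ∀ f ∈ F, f * f ≠ 1) :
    ∃ C ⊆ F, F.card = 4 * C.card ∧
      ∀ f ∈ C, ∀ f' ∈ C, ∀ s t s' t' : Bool, qd (prt z e) f s t = qd (prt z e) f' s' t' →
        f = f' ∧ s = s' ∧ t = t' := by
  classical
  have hspec := quad_spec hz1 hzz hzc hee he1 hez hconj F hFz hFe hFinv hFsq
  have hself : ∀ f : G, f ∈ quad (prt z e) f := fun f => by simp [quad]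
  obtain ⟨C, hC, hmax⟩ := Finset.exists_max_image
    (F.powerset.filter (fun R => ∀ f ∈ R, ∀ f' ∈ R, f' ∈ quad (prt z e) f → f = f'))
    Finset.card ⟨∅, by simp⟩
  simp only [Finset.mem_filter, Finset.mem_powerset] at hC hmax
  obtain ⟨hCF, hCq⟩ := hC
  have hcover : F = C.biUnion (quad (prt z e)) := by
    ext x
    simp only [Finset.mem_biUnion]
    constructor
    · intro hx
      by_contra hcon
      push Not at hcon
      have hxC : x ∉ C := fun h => hcon x h (hself x)
      have := hmax (insert x C) ⟨?_, ?_⟩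
      · rw [Finset.card_insert_of_notMem hxC] at this
        omega
      · intro y hy
        rcases Finset.mem_insert.1 hy with rfl | hy
        · exact hx
        · exact hCF hy
      · intro f hf f' hf' hff'
        rcases Finset.mem_insert.1 hf with hf1 | hf1
        · rcases Finset.mem_insert.1 hf' with hf2 | hf2
          · rw [hf1, hf2]
          · exfalso
            apply hcon f' hf2
            rw [hf1] at hff'
            rw [((hspec x hx).2 f' hff').2]
            exact hself x
        · rcases Finset.mem_insert.1 hf' with hf2 | hf2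
          · rw [hf2] at hff'
            exact absurd hff' (hcon f hf1)
          · exact hCq f hf1 f' hf2 hff'
    · rintro ⟨f, hf, hxf⟩
      exact ((hspec f (hCF hf)).2 x hxf).1
  have hqdis : ∀ f ∈ C, ∀ f' ∈ C, ∀ x, x ∈ quad (prt z e) f → x ∈ quad (prt z e) f' → f = f' := by
    intro f hf f' hf' x hx hx'
    apply hCq f hf f' hf'
    have h1 := ((hspec f (hCF hf)).2 x hx).2
    have h2 := ((hspec f' (hCF hf')).2 x hx').2
    rw [← h1, h2]
    exact hself f'
  refine ⟨C, hCF, ?_, ?_⟩
  · have hc4 : ∀ f ∈ C, (quad (prt z e) f).card = 4 := by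
      intro f hf
      have h := (hspec f (hCF hf)).1
      have : quad (prt z e) f = (Finset.univ : Finset (Bool × Bool)).image
          (fun p => qd (prt z e) f p.1 p.2) := by
        ext x
        rw [mem_quad]
        simp only [Finset.mem_image, Finset.mem_univ, true_and, Prod.exists]
      rw [this, Finset.card_image_of_injective]
      · rfl
      · rintro ⟨s, t⟩ ⟨s', t'⟩ hh
        have := h s t s' t' hh
        rw [this.1, this.2]
    conv_lhs => rw [hcover]
    rw [Finset.card_biUnion]
    · rw [Finset.sum_congr rfl hc4, Finset.sum_const, smul_eq_mul, mul_comm]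
    · intro f hf f' hf' hne
      show Disjoint _ _
      rw [Finset.disjoint_left]
      intro x hx hx'
      exact hne (hqdis f hf f' hf' x hx hx')
  · intro f hf f' hf' s t s' t' h
    have hff : f = f' := hqdis f hf f' hf' (qd (prt z e) f s t) ((mem_quad _ _ _).2 ⟨s, t, rfl⟩)
      ((mem_quad _ _ _).2 ⟨s', t', h.symm⟩)
    subst hff
    exact ⟨rfl, (hspec f (hCF hf)).1 s t s' t' h⟩

end

end Pool.Agent.Helper466.Starter
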