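import Mathlib

set_option autoImplicit false

namespace Pool.Agent.Helper466.Starter

/-- Between two normal subgroups `N < P` of a finite 2-group there is a normal subgroup `K`, with
`|K : N| = 2`: it is `N ∪ d N` for some `d`. -/
theorem exists_layer {G : Type*} [Group G] [Finite G] (h2 : IsPGroup 2 G) (N P : Subgroup G)
    [N.Normal] [P.Normal] (hlt : N < P) :
    ∃ (K : Subgroup G) (d : G), K.Normal ∧ N ≤ K ∧ K ≤ P ∧ d ∈ K ∧ d ∉ N ∧
      ∀ x ∈ K, x ∈ N ∨ d * x ∈ N := by
  classical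
  have hQ : IsPGroup 2 (G ⧸ N) := h2.to_quotient N
  set PQ : Subgroup (G ⧸ N) := P.map (QuotientGroup.mk' N) with hPQ
  have : PQ.Normal := Subgroup.Normal.map inferInstance _ (QuotientGroup.mk'_surjective N)
  have hne : PQ ≠ ⊥ := by
    intro h
    have : P ≤ N := by
      intro x hx
      have : QuotientGroup.mk' N x ∈ PQ := Subgroup.mem_map_of_mem _ hx
      rw [h, Subgroup.mem_bot] at this
      exact (QuotientGroup.eq_one_iff x).1 this
    exact hlt.not_ge this
  obtain ⟨x, hx, hx1, hxc, hx2⟩ : ∃ x ∈ PQ, x ≠ 1 ∧ (∀ g, g * x = x * g) ∧ x * x = 1 := by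
    have hcard : 2 ∣ Nat.card PQ := by
      obtain ⟨k, hk⟩ := IsPGroup.iff_card.1 (hQ.to_subgroup PQ)
      rw [hk]
      apply dvd_pow_self
      rintro rfl
      apply hne
      rw [← Subgroup.card_eq_one]; simpa using hk
    have hfix1 : (1 : PQ) ∈ MulAction.fixedPoints (ConjAct (G ⧸ N)) PQ := by
      intro g
      apply Subtype.ext
      simp
    obtain ⟨b, hb, hb1⟩ := (hQ.of_equiv ConjAct.toConjAct).exists_fixed_point_of_prime_dvd_card_of_fixed_point PQ hcard hfix1
    have hbc : ∀ g : G ⧸ N, g * (b : G ⧸ N) = b * g := by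
      intro g
      have := congrArg Subtype.val (hb (ConjAct.toConjAct g))
      rw [ConjAct.Subgroup.val_conj_smul, ConjAct.smul_def] at this
      simp only [ConjAct.ofConjAct_toConjAct] at this
      exact mul_inv_eq_iff_eq_mul.1 this
    obtain ⟨k, hk⟩ := IsPGroup.iff_orderOf.1 hQ (b : G ⧸ N)
    have hb1' : (b : G ⧸ N) ≠ 1 := fun h => hb1 (Subtype.ext h.symm)
    have hk0 : k ≠ 0 := by
      rintro rfl
      rw [pow_zero, orderOf_eq_one_iff] at hk
      exact hb1' hk
    refine ⟨(b : G ⧸ N) ^ (2 ^ (k - 1)), PQ.pow_mem b.2 _, ?_, fun g => ?_, ?_⟩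
    · intro h
      have h3 := orderOf_dvd_of_pow_eq_one h
      rw [hk] at h3
      have h4 := (Nat.pow_dvd_pow_iff_le_right (by norm_num)).1 h3
      omega
    · exact (Commute.pow_right (hbc g) _)
    · rw [← pow_add, ← two_mul, ← pow_succ', Nat.sub_add_cancel (Nat.one_le_iff_ne_zero.2 hk0), ← hk,
        pow_orderOf_eq_one]
  obtain ⟨d, hdP, hdx⟩ := Subgroup.mem_map.1 hx
  have hxin : x⁻¹ = x := inv_eq_of_mul_eq_one_right hx2
  -- the subgroup {1, x}
  let Kx : Subgroup (G ⧸ N) :=
    { carrier := {y | y = 1 ∨ y = x}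
      mul_mem' := by
        rintro a b (rfl | rfl) (rfl | rfl)
        · left; simp
        · right; simp
        · right; simp
        · left; exact hx2
      one_mem' := Or.inl rfl
      inv_mem' := by
        rintro a (rfl | rfl)
        · left; simp
        · right; exact hxin }
  have hKx : ∀ y, y ∈ Kx ↔ (y = 1 ∨ y = x) := fun y => Iff.rfl
  have hKn : Kx.Normal := by
    constructor
    intro n hn g
    rw [hKx] at hn ⊢
    rcases hn with rfl | rfl
    · left; simp
    · right; rw [hxc]; simp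
  refine ⟨Kx.comap (QuotientGroup.mk' N), d, inferInstance, ?_, ?_, ?_, ?_, ?_⟩
  · intro n hn
    rw [Subgroup.mem_comap, hKx]
    left
    exact (QuotientGroup.eq_one_iff n).2 hn
  · intro y hy
    rw [Subgroup.mem_comap, hKx] at hy
    rcases hy with hy | hy
    · exact hlt.le ((QuotientGroup.eq_one_iff y).1 hy)
    · rw [← hdx] at hy
      have : d⁻¹ * y ∈ N := QuotientGroup.eq.1 hy.symm
      have h3 := P.mul_mem hdP (hlt.le this)
      simpa using h3
  · rw [Subgroup.mem_comap, hKx]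
    right; exact hdx
  · intro hd
    apply hx1
    rw [← hdx]
    exact (QuotientGroup.eq_one_iff d).2 hd
  · intro y hy
    rw [Subgroup.mem_comap, hKx] at hy
    rcases hy with hy | hy
    · left; exact (QuotientGroup.eq_one_iff y).1 hy
    · right
      rw [← QuotientGroup.eq_one_iff (N := N)]
      have : QuotientGroup.mk' N (d * y) = 1 := by rw [map_mul, hdx, hy, hx2]
      exact this

/-- If `P` contains all squares and `d ∉ P`, then some subgroup of index two contains `P` but
not `d`. -/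
theorem exists_index_two {G : Type*} [Group G] [Finite G] (P : Subgroup G)
    (hsq : ∀ g : G, g * g ∈ P) (d : G) (hd : d ∉ P) :
    ∃ H : Subgroup G, P ≤ H ∧ H.index = 2 ∧ d ∉ H := by
  obtain ⟨H, hH⟩ := (Set.toFinite {H : Subgroup G | P ≤ H ∧ d ∉ H}).exists_maximal ⟨P, le_rfl, hd⟩
  have hPH : P ≤ H := hH.prop.1
  have hdH : d ∉ H := hH.prop.2
  have hsqH : ∀ g : G, g * g ∈ H := fun g => hPH (hsq g)
  have hn : H.Normal := by
    constructor
    intro h hh g
    have e : g * h * g⁻¹ = (g * h) * (g * h) * (h⁻¹ * (g⁻¹ * g⁻¹)) := by group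
    rw [e]
    exact H.mul_mem (hsqH _) (H.mul_mem (H.inv_mem hh) (hsqH _))
  refine ⟨H, hPH, ?_, hdH⟩
  rw [Subgroup.index_eq_two_iff_exists_notMem_and]
  refine ⟨d, hdH, fun b => ?_⟩
  by_contra hcon
  rw [not_or] at hcon
  obtain ⟨h1, h2⟩ := hcon
  have hK : d ∈ H ⊔ Subgroup.zpowers b := by
    by_contra hdK
    have : H ⊔ Subgroup.zpowers b ≤ H := hH.le_of_ge ⟨hPH.trans le_sup_left, hdK⟩ le_sup_left
    exact h2 (this (Subgroup.mem_sup_right (Subgroup.mem_zpowers b)))
  rw [Subgroup.mem_sup_of_normal_left] at hK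
  obtain ⟨y, hy, z, hz, hyz⟩ := hK
  obtain ⟨n, rfl⟩ := Subgroup.mem_zpowers_iff.1 hz
  have hev : ∀ m : ℤ, b ^ (m + m) ∈ H := fun m => by rw [zpow_add]; exact hsqH _
  rcases Int.even_or_odd' n with ⟨m, hm | hm⟩
  · apply hdH
    rw [← hyz, hm, two_mul]
    exact H.mul_mem hy (hev m)
  · apply h1
    -- b * d = b * y * b^(2m+1) 
    have e : b * d = (b * y * b⁻¹) * (b ^ (m + 1 + (m + 1))) := by
      rw [← hyz, hm]
      have : b ^ (m + 1 + (m + 1)) = b * b ^ (2 * m + 1) := by
        rw [← zpow_one_add]; congr 1; ring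
      rw [this]; group
    rw [e]
    exact H.mul_mem (hn.conj_mem y hy b) (hev _)

/-- Frattini: the squares do not help generating a finite 2-group. -/
theorem eq_top_of_sup {G : Type*} [Group G] [Finite G] (h2 : IsPGroup 2 G) (Y : Subgroup G)
    (h : Subgroup.closure {x : G | ∃ g : G, x = g * g} ⊔ Y = ⊤) : Y = ⊤ := by
  by_contra hY
  obtain ⟨n, hn⟩ := IsPGroup.iff_card.1 h2
  obtain ⟨k, hk⟩ := IsPGroup.iff_card.1 (h2.to_subgroup Y)
  have hlt : k < n := by
    have h1 : Nat.card Y < Nat.card G := by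
      rcases lt_or_eq_of_le (Subgroup.card_le_card_group Y) with h | h
      · exact h
      · exact absurd ((Subgroup.card_eq_iff_eq_top Y).1 h) hY
    rw [hn, hk] at h1
    exact (Nat.pow_lt_pow_iff_right (by norm_num)).1 h1
  have : Fact (Nat.Prime 2) := ⟨Nat.prime_two⟩
  obtain ⟨K, hK, hYK⟩ := Sylow.exists_subgroup_card_pow_prime_le 2 (n := k) (m := n - 1)
    (by rw [hn]; exact pow_dvd_pow 2 (Nat.sub_le n 1)) Y hk (by omega)
  have hidx : K.index = 2 := by
    have h1 := K.card_mul_index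
    rw [hK, hn] at h1
    have h3 : 2 ^ n = 2 ^ (n - 1) * 2 := by rw [← pow_succ]; congr 1; omega
    rw [h3] at h1
    exact Nat.eq_of_mul_eq_mul_left (by positivity) h1
  have : (⊤ : Subgroup G) ≤ K := by
    rw [← h, sup_le_iff, Subgroup.closure_le]
    refine ⟨?_, hYK⟩
    rintro x ⟨g, rfl⟩
    exact Subgroup.mul_self_mem_of_index_two hidx g
  have h1 : K = ⊤ := top_le_iff.1 this
  rw [h1, Subgroup.index_top] at hidx
  norm_num at hidx

end Pool.Agent.Helper466.Starter
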