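import Mathlib
import Pool.Agent.Helper466.Starter.Doubles
import Pool.Agent.Helper466.Starter.TwoGroup
import Pool.Agent.Helper466.Starter.ClaimA

set_option autoImplicit false

namespace Pool.Agent.Helper466.Starter

/-- a subgroup containing all squares is normal -/
theorem normal_of_sq {G : Type*} [Group G] (K : Subgroup G) (h : ∀ g : G, g * g ∈ K) :
    K.Normal := by
  constructor
  intro n hn g
  have e : g * n * g⁻¹ = (g * n) * (g * n) * n⁻¹ * (g⁻¹ * g⁻¹) := by group
  rw [e]
  exact K.mul_mem (K.mul_mem (h _) (K.inv_mem hn)) (h _)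

/-- the Klein four-group `{1, z, e, e z}` -/
def kl4 {G : Type*} [Group G] (z e : G) (hzz : z * z = 1) (hzc : ∀ g, g * z = z * g)
    (hee : e * e = 1) : Subgroup G where
  carrier := {x | x = 1 ∨ x = z ∨ x = e ∨ x = e * z}
  one_mem' := Or.inl rfl
  mul_mem' := by
    have c1 : e * z * z = e := by rw [mul_assoc, hzz, mul_one]
    have c2 : e * z * e = z := by rw [hzc e, mul_assoc, hee, mul_one]
    rintro a b (rfl | rfl | rfl | rfl) (rfl | rfl | rfl | rfl)
    · left; simp
    · right; left; simp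
    · right; right; left; simp
    · right; right; right; simp
    · right; left; simp
    · left; exact hzz
    · right; right; right; exact (hzc _).symm
    · right; right; left
      rw [← mul_assoc, ← hzc, c1]
    · right; right; left; simp
    · right; right; right; rfl
    · left; exact hee
    · right; left
      rw [← mul_assoc, hee, one_mul]
    · right; right; right; simp
    · right; right; left; exact c1
    · right; left; exact c2
    · left
      rw [← mul_assoc, c2, hzz]
  inv_mem' := by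
    have hzi : z⁻¹ = z := by rw [inv_eq_iff_mul_eq_one]; exact hzz
    have hei : e⁻¹ = e := by rw [inv_eq_iff_mul_eq_one]; exact hee
    rintro a (rfl | rfl | rfl | rfl)
    · left; simp
    · right; left; exact hzi
    · right; right; left; exact hei
    · right; right; right
      rw [mul_inv_rev, hzi, hei, hzc]

theorem mem_kl4 {G : Type*} [Group G] {z e : G} {hzz : z * z = 1} {hzc : ∀ g, g * z = z * g}
    {hee : e * e = 1} {x : G} :
    x ∈ kl4 z e hzz hzc hee ↔ x = 1 ∨ x = z ∨ x = e ∨ x = e * z := Iff.rfl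

theorem card_kl4 {G : Type*} [Group G] {z e : G} (hzz : z * z = 1) (hzc : ∀ g, g * z = z * g)
    (hee : e * e = 1) (hz1 : z ≠ 1) (he1 : e ≠ 1) (hez : e ≠ z) :
    Nat.card (kl4 z e hzz hzc hee) = 4 := by
  classical
  have hzi : z⁻¹ = z := by rw [inv_eq_iff_mul_eq_one]; exact hzz
  have h1 : ((kl4 z e hzz hzc hee : Subgroup G) : Set G) = (({1, z, e, e * z} : Finset G) : Set G) := by
    ext x
    simp only [SetLike.mem_coe, mem_kl4, Finset.coe_insert, Finset.coe_singleton,
      Set.mem_insert_iff, Set.mem_singleton_iff]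
  have h2 : Nat.card (kl4 z e hzz hzc hee) = ({1, z, e, e * z} : Finset G).card := by
    have : Nat.card (kl4 z e hzz hzc hee) =
        ((kl4 z e hzz hzc hee : Subgroup G) : Set G).ncard := rfl
    rw [this, h1, Set.ncard_coe_finset]
  rw [h2]
  have hez1 : e * z ≠ 1 := by
    intro h
    rw [mul_eq_one_iff_eq_inv, hzi] at h
    exact hez h
  rw [Finset.card_insert_of_notMem, Finset.card_insert_of_notMem, Finset.card_insert_of_notMem,
    Finset.card_singleton]
  · simp only [Finset.mem_singleton]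
    intro h; exact hz1 (by simpa using h.symm)
  · simp only [Finset.mem_insert, Finset.mem_singleton, not_or]
    refine ⟨hez.symm, ?_⟩
    intro h; exact he1 (by simpa using h.symm)
  · simp only [Finset.mem_insert, Finset.mem_singleton, not_or]
    exact ⟨hz1.symm, he1.symm, hez1.symm⟩

theorem index_layer {G : Type*} [Group G] {L U A : Subgroup G} [L.Normal] [U.Normal]
    (hLU : L ≤ U) (hAU : A ⊓ U = ⊥) (d0 : G) (hd0U : d0 ∈ U) (hd0L : d0 ∉ L)
    (hdU : ∀ x ∈ U, x ∈ L ∨ d0 * x ∈ L) : (L ⊔ A).index = 2 * (U ⊔ A).index := by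
  have h : (L ⊔ A).relIndex (U ⊔ A) = 2 := by
    rw [Subgroup.relIndex_eq_two_iff_exists_notMem_and']
    refine ⟨d0, Subgroup.mem_sup_left hd0U, fun h => hd0L (mem_of_mem_sup hLU hAU hd0U h), ?_⟩
    intro b hb
    rw [Subgroup.mem_sup_of_normal_left] at hb
    obtain ⟨u, hu, a, ha, rfl⟩ := hb
    rcases hdU u hu with h | h
    · right
      exact Subgroup.mul_mem _ (Subgroup.mem_sup_left h) (Subgroup.mem_sup_right ha)
    · left
      rw [← mul_assoc]
      exact Subgroup.mul_mem _ (Subgroup.mem_sup_left h) (Subgroup.mem_sup_right ha)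
  rw [← Subgroup.relIndex_mul_index (sup_le_sup_right hLU A), h]

theorem index_kl {G : Type*} [Group G] [Finite G] {E A : Subgroup G} [E.Normal]
    (hAE : A ⊓ E = ⊥) : (E ⊔ A).index * (Nat.card E * Nat.card A) = Nat.card G := by
  have h1 : E.relIndex (E ⊔ A) = Nat.card A := by
    rw [Subgroup.relIndex_sup_left, ← Subgroup.inf_relIndex_right, inf_comm, hAE,
      Subgroup.relIndex_bot_left]
  have h2 := Subgroup.relIndex_mul_index (le_sup_left : E ≤ E ⊔ A)
  have h3 := Subgroup.card_mul_index E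
  rw [← h3, ← h2, h1]
  ring

theorem quad_notMem {G : Type*} [Group G] [DecidableEq G] {M : Subgroup G} {pr : G → G} {f x : G}
    (hf : f ∉ M) (hpr : f⁻¹ * pr f ∈ M) (hx : x ∈ quad pr f) : x ∉ M := by
  have hprM : pr f ∉ M := by
    intro h
    apply hf
    have h1 := M.mul_mem h (M.inv_mem hpr)
    have e : pr f * (f⁻¹ * pr f)⁻¹ = f := by group
    rwa [e] at h1
  simp only [quad, Finset.mem_insert, Finset.mem_singleton] at hx
  rcases hx with h | h | h | h
  · rw [h]; exact hf
  · rw [h, M.inv_mem_iff]; exact hf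
  · rw [h]; exact hprM
  · rw [h, M.inv_mem_iff]; exact hprM

theorem quad_inv {G : Type*} [Group G] [DecidableEq G] {pr : G → G} {f x : G}
    (hx : x ∈ quad pr f) : x⁻¹ ∈ quad pr f := by
  simp only [quad, Finset.mem_insert, Finset.mem_singleton] at hx ⊢
  rcases hx with rfl | rfl | rfl | rfl <;> simp

/-- the layer induction -/
theorem layer_induction {G : Type*} [Group G] [Finite G] [DecidableEq G] (h2 : IsPGroup 2 G)
    (z e : G) (hz1 : z ≠ 1) (hzz : z * z = 1)
    (hzc : ∀ g, g * z = z * g) (hee : e * e = 1) (he1 : e ≠ 1) (hez : e ≠ z)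
    (hconj : ∀ g, g * e * g⁻¹ = e ∨ g * e * g⁻¹ = e * z)
    (P A M : Subgroup G) [hPn : P.Normal] (hzP : z ∈ P) (heP : e ∈ P)
    (hcomm : ∀ x ∈ P, x * e = e * x) (hAP : A ⊓ P = ⊥) (hPM : P ≤ M) (hAM : A ≤ M)
    (hM : M.index = 2) (C0 : Finset G) (hC0M : ∀ f ∈ C0, f ∉ M)
    (hC0 : ∀ f ∈ C0, ∀ f' ∈ C0, ∀ s t s' t' : Bool, qd (prt z e) f s t = qd (prt z e) f' s' t' →
        f = f' ∧ s = s' ∧ t = t')
    (hcount : (kl4 z e hzz hzc hee ⊔ A).index ≤ 2 * C0.card) :
    ∃ D : Finset G, Cov D ∧ 1 ∉ D ∧ (∀ x ∈ D, x⁻¹ ∈ D) ∧ ∀ x ∈ P, x * x ≠ 1 → x ∈ D := by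
  classical
  set E : Subgroup G := kl4 z e hzz hzc hee with hE
  have hEP : E ≤ P := by
    intro x hx
    rcases mem_kl4.1 hx with rfl | rfl | rfl | rfl
    · exact P.one_mem
    · exact hzP
    · exact heP
    · exact P.mul_mem heP hzP
  have hEn : E.Normal := by
    constructor
    intro x hx g
    rcases mem_kl4.1 hx with rfl | rfl | rfl | rfl
    · rw [mul_one, mul_inv_cancel]; exact E.one_mem
    · rw [hzc, mul_assoc, mul_inv_cancel, mul_one]; exact hx
    · rcases hconj g with h | h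
      · rw [h]; exact hx
      · rw [h]; exact mem_kl4.2 (Or.inr (Or.inr (Or.inr rfl)))
    · have e1 : g * (e * z) * g⁻¹ = (g * e * g⁻¹) * z := by
        calc g * (e * z) * g⁻¹ = g * e * (z * g⁻¹) := by group
          _ = g * e * (g⁻¹ * z) := by rw [hzc g⁻¹]
          _ = (g * e * g⁻¹) * z := by group
      rw [e1]
      rcases hconj g with h | h
      · rw [h]; exact hx
      · rw [h, mul_assoc, hzz, mul_one]; exact mem_kl4.2 (Or.inr (Or.inr (Or.inl rfl)))
  have hprtE : ∀ f : G, f⁻¹ * prt z e f ∈ E := by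
    intro f
    unfold prt
    split_ifs
    · rw [inv_mul_cancel_left]; exact mem_kl4.2 (Or.inr (Or.inr (Or.inl rfl)))
    · rw [inv_mul_cancel_left]; exact mem_kl4.2 (Or.inr (Or.inl rfl))
  have hprtM : ∀ f : G, f⁻¹ * prt z e f ∈ M := fun f => hPM (hEP (hprtE f))
  have hEsq : ∀ x ∈ E, x * x = 1 := by
    intro x hx
    rcases mem_kl4.1 hx with rfl | rfl | rfl | rfl
    · simp
    · exact hzz
    · exact hee
    · calc e * z * (e * z) = e * (z * e) * z := by group
        _ = e * (e * z) * z := by rw [← hzc e]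
        _ = (e * e) * (z * z) := by group
        _ = 1 := by rw [hee, hzz, one_mul]
  -- the predicate
  set Q : Subgroup G → Prop := fun N => N.Normal ∧ E ≤ N ∧ N ≤ P ∧ ∃ C' ⊆ C0,
    (N ⊔ A).index ≤ 2 * C'.card ∧ ∃ D : Finset G, Cov D ∧
      ∀ x, x ∈ D ↔ (x ∈ N ∧ x * x ≠ 1) ∨ ∃ f ∈ C0 \ C', x ∈ quad (prt z e) f with hQ
  have hQE : Q E := by
    refine ⟨hEn, le_rfl, hEP, C0, subset_rfl, hcount, ∅, Cov.empty, ?_⟩
    intro x
    simp only [Finset.notMem_empty, Finset.sdiff_self, false_and, exists_false, or_false,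
      false_iff, not_and, not_not]
    exact hEsq x
  obtain ⟨N, hN⟩ := (Set.toFinite {N | Q N}).exists_maximal ⟨E, hQE⟩
  obtain ⟨hNn, hEN, hNP, C1, hC1, hC1c, D, hD, hDmem⟩ := hN.prop
  by_cases hNeq : N = P
  · subst hNeq
    refine ⟨D, hD, ?_, ?_, ?_⟩
    · intro h
      rcases (hDmem 1).1 h with h | ⟨f, hf, h⟩
      · exact h.2 (one_mul 1)
      · exact quad_notMem (hC0M f (Finset.mem_sdiff.1 hf).1) (hprtM f) h M.one_mem
    · intro x hx
      rw [hDmem] at hx ⊢
      rcases hx with ⟨h1, h2⟩ | ⟨f, hf, h⟩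
      · left
        refine ⟨N.inv_mem h1, ?_⟩
        intro h
        apply h2
        have := congrArg (·⁻¹) h
        simpa using this
      · right
        exact ⟨f, hf, quad_inv h⟩
    · intro x hx hxx
      rw [hDmem]
      exact Or.inl ⟨hx, hxx⟩
  · exfalso
    have hlt : N < P := lt_of_le_of_ne hNP hNeq
    obtain ⟨K, d, hKn, hNK, hKP, hdK, hdN, hdU⟩ := exists_layer h2 N P hlt
    have hAK : A ⊓ K = ⊥ := by
      rw [eq_bot_iff, ← hAP]
      exact inf_le_inf_left A hKP
    have hidx := index_layer hNK hAK d hdK hdN hdU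
    have hKAM : K ⊔ A ≤ M := sup_le (hKP.trans hPM) hAM
    have hev : Even (K ⊔ A).index := by
      rw [← Subgroup.relIndex_mul_index hKAM, hM]
      exact ⟨(K ⊔ A).relIndex M, by ring⟩
    -- the layer
    haveI := Fintype.ofFinite G
    set T : Finset G := Finset.univ.filter (fun x => x ∈ K ∧ x ∉ N ∧ x * x ≠ 1) with hT
    have hTmem : ∀ x, x ∈ T ↔ x ∈ K ∧ x ∉ N ∧ x * x ≠ 1 := by
      intro x; simp [hT]
    have hTz : ∀ f ∈ T, f * z ∈ T := by
      intro f hf
      rw [hTmem] at hf ⊢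
      have hzN : z ∈ N := hEN (mem_kl4.2 (Or.inr (Or.inl rfl)))
      refine ⟨K.mul_mem hf.1 (hNK hzN), ?_, ?_⟩
      · intro h
        exact hf.2.1 ((N.mul_mem_cancel_right hzN).1 h)
      · intro h
        apply hf.2.2
        calc f * f = f * f * (z * z) := by rw [hzz, mul_one]
          _ = f * (f * z) * z := by group
          _ = f * (z * f) * z := by rw [hzc f]
          _ = f * z * (f * z) := by group
          _ = 1 := h
    have hTe : ∀ f ∈ T, f * e ∈ T := by
      intro f hf
      rw [hTmem] at hf ⊢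
      have heN : e ∈ N := hEN (mem_kl4.2 (Or.inr (Or.inr (Or.inl rfl))))
      refine ⟨K.mul_mem hf.1 (hNK heN), ?_, ?_⟩
      · intro h
        exact hf.2.1 ((N.mul_mem_cancel_right heN).1 h)
      · intro h
        apply hf.2.2
        calc f * f = f * f * (e * e) := by rw [hee, mul_one]
          _ = f * (f * e) * e := by group
          _ = f * (e * f) * e := by rw [hcomm f (hKP hf.1)]
          _ = f * e * (f * e) := by group
          _ = 1 := h
    have hTinv : ∀ f ∈ T, f⁻¹ ∈ T := by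
      intro f hf
      rw [hTmem] at hf ⊢
      refine ⟨K.inv_mem hf.1, ?_, ?_⟩
      · rw [N.inv_mem_iff]; exact hf.2.1
      · intro h
        apply hf.2.2
        have := congrArg (·⁻¹) h
        simpa using this
    have hTsq : ∀ f ∈ T, f * f ≠ 1 := fun f hf => ((hTmem f).1 hf).2.2
    obtain ⟨CT, _, hCTc, _⟩ := exists_doubles hz1 hzz hzc hee he1 hez hconj T hTz hTe hTinv hTsq
    obtain ⟨R, hRT, hRinv, hTR, hTc⟩ := exists_reps T hTinv hTsq
    have hReven : Even R.card := ⟨CT.card, by omega⟩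
    obtain ⟨C2, hC2, hC2c, hcov⟩ := layer_cov N K A M hNK d hdK hdN hAK (hKP.trans hPM) hAM hM
      hidx (prt z e) C1 (fun f hf => hC0M f (hC1 hf)) (fun f _ => hEN (hprtE f))
      (fun f hf f' hf' => hC0 f (hC1 hf) f' (hC1 hf')) hev (by omega) R.card R le_rfl
      (fun x hx => ((hTmem x).1 (hRT hx)).1) (fun x hx => ((hTmem x).1 (hRT hx)).2.1) hRinv hReven
    rw [← hTR] at hcov
    have hquaddis : ∀ f ∈ C0, ∀ f' ∈ C0, ∀ x, x ∈ quad (prt z e) f → x ∈ quad (prt z e) f' →
        f = f' := by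
      intro f hf f' hf' x hx hx'
      rw [mem_quad] at hx hx'
      obtain ⟨s, t, hst⟩ := hx
      obtain ⟨s', t', hst'⟩ := hx'
      exact (hC0 f hf f' hf' s t s' t' (hst.trans hst'.symm)).1
    have hdis : Disjoint D (T ∪ (C1 \ C2).biUnion (quad (prt z e))) := by
      rw [Finset.disjoint_left]
      intro x hx hx'
      rw [hDmem] at hx
      rcases Finset.mem_union.1 hx' with h' | h'
      · rw [hTmem] at h'
        rcases hx with h | ⟨f, hf, h⟩
        · exact h'.2.1 h.1
        · exact quad_notMem (hC0M f (Finset.mem_sdiff.1 hf).1) (hprtM f) h (hPM (hKP h'.1))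
      · obtain ⟨f', hf', hxf'⟩ := Finset.mem_biUnion.1 h'
        rw [Finset.mem_sdiff] at hf'
        rcases hx with h | ⟨f, hf, h⟩
        · exact quad_notMem (hC0M f' (hC1 hf'.1)) (hprtM f') hxf' (hPM (hNP h.1))
        · rw [Finset.mem_sdiff] at hf
          have := hquaddis f hf.1 f' (hC1 hf'.1) x h hxf'
          rw [this] at hf
          exact hf.2 hf'.1
    have hQK : Q K := by
      refine ⟨hKn, hEN.trans hNK, hKP, C2, hC2.trans hC1, by omega, _,
        Cov.union hD hcov hdis, ?_⟩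
      intro x
      simp only [Finset.mem_union, hDmem, hTmem, Finset.mem_biUnion]
      constructor
      · rintro ((⟨h1, h2⟩ | ⟨f, hf, h⟩) | (⟨h1, _, h3⟩ | ⟨f, hf, h⟩))
        · exact Or.inl ⟨hNK h1, h2⟩
        · right
          refine ⟨f, ?_, h⟩
          rw [Finset.mem_sdiff] at hf ⊢
          exact ⟨hf.1, fun hh => hf.2 (hC2 hh)⟩
        · exact Or.inl ⟨h1, h3⟩
        · right
          refine ⟨f, ?_, h⟩
          rw [Finset.mem_sdiff] at hf ⊢
          exact ⟨hC1 hf.1, hf.2⟩
      · rintro (⟨h1, h2⟩ | ⟨f, hf, h⟩)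
        · by_cases hxN : x ∈ N
          · exact Or.inl (Or.inl ⟨hxN, h2⟩)
          · exact Or.inr (Or.inl ⟨h1, hxN, h2⟩)
        · rw [Finset.mem_sdiff] at hf
          by_cases hf1 : f ∈ C1
          · right; right
            exact ⟨f, Finset.mem_sdiff.2 ⟨hf1, hf.2⟩, h⟩
          · left; right
            exact ⟨f, Finset.mem_sdiff.2 ⟨hf.1, hf1⟩, h⟩
    have := hN.le_of_ge hQK hNK
    exact hdN (this hdK)

end Pool.Agent.Helper466.Starter
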