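import Mathlib
import Pool.Agent.Helper466.Starter.TheoremL

set_option autoImplicit false

namespace Pool.Agent.Helper466.Starter

theorem cov_of_data {G : Type*} [Group G] [Finite G] (h2 : IsPGroup 2 G)
    (z e : G) (hz1 : z ≠ 1) (hzz : z * z = 1)
    (hzc : ∀ g, g * z = z * g) (hee : e * e = 1) (he1 : e ≠ 1) (hez : e ≠ z)
    (hconj : ∀ g, g * e * g⁻¹ = e ∨ g * e * g⁻¹ = e * z) :
    ∃ D : Finset G, Cov D ∧ 1 ∉ D ∧ (∀ x ∈ D, x⁻¹ ∈ D) ∧
      ∀ x ∈ Subgroup.closure {y : G | ∃ a : G, y = a * a}, x * x ≠ 1 → x ∈ D := by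
  classical
  haveI := Fintype.ofFinite G
  have hzi : z⁻¹ = z := by rw [inv_eq_iff_mul_eq_one]; exact hzz
  set Φ : Subgroup G := Subgroup.closure {y : G | ∃ a : G, y = a * a} with hΦ
  set E : Subgroup G := kl4 z e hzz hzc hee with hE
  have hsqΦ : ∀ g : G, g * g ∈ Φ := fun g => Subgroup.subset_closure ⟨g, rfl⟩
  set P : Subgroup G := Φ ⊔ E with hP
  have hsqP : ∀ g : G, g * g ∈ P := fun g => Subgroup.mem_sup_left (hsqΦ g)
  haveI hPn : P.Normal := normal_of_sq P hsqP
  have hzE : z ∈ E := mem_kl4.2 (Or.inr (Or.inl rfl))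
  have heE : e ∈ E := mem_kl4.2 (Or.inr (Or.inr (Or.inl rfl)))
  have hzP : z ∈ P := Subgroup.mem_sup_right hzE
  have heP : e ∈ P := Subgroup.mem_sup_right heE
  have hEsq : ∀ x ∈ E, x * x = 1 := by
    intro x hx
    rcases mem_kl4.1 hx with rfl | rfl | rfl | rfl
    · simp
    · exact hzz
    · exact hee
    · calc e * z * (e * z) = e * (z * e) * z := by group
        _ = e * (e * z) * z := by rw [← hzc e]
        _ = (e * e) * (z * z) := by group
        _ = 1 := by rw [hee, hzz, one_mul]
  haveI hEn : E.Normal := by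
    constructor
    intro x hx g
    rcases mem_kl4.1 hx with rfl | rfl | rfl | rfl
    · rw [mul_one, mul_inv_cancel]; exact E.one_mem
    · rw [hzc, mul_assoc, mul_inv_cancel, mul_one]; exact hx
    · rcases hconj g with h | h
      · rw [h]; exact hx
      · rw [h]; exact mem_kl4.2 (Or.inr (Or.inr (Or.inr rfl)))
    · have e1 : g * (e * z) * g⁻¹ = (g * e * g⁻¹) * z := by
        calc g * (e * z) * g⁻¹ = g * e * (z * g⁻¹) := by group
          _ = g * e * (g⁻¹ * z) := by rw [hzc g⁻¹]
          _ = (g * e * g⁻¹) * z := by group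
      rw [e1]
      rcases hconj g with h | h
      · rw [h]; exact hx
      · rw [h, mul_assoc, hzz, mul_one]; exact mem_kl4.2 (Or.inr (Or.inr (Or.inl rfl)))
  -- P centralises e
  have hcomm : ∀ x ∈ P, x * e = e * x := by
    have hle : P ≤ Subgroup.centralizer {e} := by
      refine sup_le ?_ ?_
      · rw [hΦ, Subgroup.closure_le]
        rintro y ⟨a, rfl⟩
        rw [SetLike.mem_coe, Subgroup.mem_centralizer_singleton_iff]
        rcases hconj a with h | h
        · have h1 : a * e = e * a := by
            calc a * e = (a * e * a⁻¹) * a := by group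
              _ = e * a := by rw [h]
          rw [mul_assoc, h1, ← mul_assoc, h1, mul_assoc]
        · have h1 : a * e = e * z * a := by
            calc a * e = (a * e * a⁻¹) * a := by group
              _ = e * z * a := by rw [h]
          calc a * a * e = a * (a * e) := by group
            _ = a * (e * z * a) := by rw [h1]
            _ = (a * e) * z * a := by group
            _ = (e * z * a) * z * a := by rw [h1]
            _ = e * z * (a * z) * a := by group
            _ = e * z * (z * a) * a := by rw [hzc a]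
            _ = e * (z * z) * a * a := by group
            _ = e * (a * a) := by rw [hzz]; group
      · intro y hy
        rw [Subgroup.mem_centralizer_singleton_iff]
        rcases mem_kl4.1 hy with rfl | rfl | rfl | rfl
        · simp
        · exact (hzc e).symm
        · rfl
        · rw [mul_assoc, ← hzc e]
    intro x hx
    exact Subgroup.mem_centralizer_singleton_iff.1 (hle hx)
  -- a maximal complement
  obtain ⟨A, ⟨hA2, hAP⟩, hmax⟩ : ∃ A : Subgroup G, ((∀ a ∈ A, a * a = 1) ∧ A ⊓ P = ⊥) ∧
      ∀ B : Subgroup G, (∀ b ∈ B, b * b = 1) → B ⊓ P = ⊥ → Nat.card B ≤ Nat.card A := by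
    obtain ⟨A, hA, hmax⟩ := Set.exists_max_image
      {A : Subgroup G | (∀ a ∈ A, a * a = 1) ∧ A ⊓ P = ⊥} (fun A => Nat.card A)
      (Set.toFinite _) ⟨⊥, by
        refine ⟨?_, by simp⟩
        intro a ha
        rw [Subgroup.mem_bot.1 ha, mul_one]⟩
    exact ⟨A, hA, fun B hB hBP => hmax B ⟨hB, hBP⟩⟩
  by_cases htop : P ⊔ A = ⊤
  · -- no elements of order larger than two in Φ
    refine ⟨∅, Cov.empty, by simp, by simp, ?_⟩
    intro x hx hxx
    exfalso
    apply hxx
    have hEA : E ⊔ A = ⊤ := by
      apply eq_top_of_sup h2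
      rw [← sup_assoc]
      exact htop
    have hΦE : Φ ≤ E := by
      rw [hΦ, Subgroup.closure_le]
      rintro y ⟨g, rfl⟩
      have hg : g ∈ E ⊔ A := by rw [hEA]; exact Subgroup.mem_top g
      rw [Subgroup.mem_sup_of_normal_left] at hg
      obtain ⟨ε, hε, a, ha, rfl⟩ := hg
      have e1 : ε * a * (ε * a) = ε * (a * ε * a⁻¹) * (a * a) := by group
      rw [SetLike.mem_coe, e1, hA2 a ha, mul_one]
      exact E.mul_mem hε (hEn.conj_mem ε hε a)
    exact hEsq x (hΦE hx)
  · obtain ⟨d, hd⟩ : ∃ d : G, d ∉ P ⊔ A := by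
      by_contra hcon
      push Not at hcon
      exact htop ((Subgroup.eq_top_iff' _).2 hcon)
    obtain ⟨M, hPAM, hM, hdM⟩ := exists_index_two (P ⊔ A)
      (fun g => Subgroup.mem_sup_left (hsqP g)) d hd
    have hPM : P ≤ M := le_sup_left.trans hPAM
    have hAM : A ≤ M := le_sup_right.trans hPAM
    have hEM : E ≤ M := le_sup_right.trans hPM
    set F : Finset G := Finset.univ.filter
      (fun f => f ∉ M ∧ ∀ ε ∈ E, (f * ε) * (f * ε) ≠ 1) with hF
    have hFmem : ∀ f, f ∈ F ↔ f ∉ M ∧ ∀ ε ∈ E, (f * ε) * (f * ε) ≠ 1 := by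
      intro f; simp [hF]
    have hFE : ∀ f ∈ F, ∀ ε ∈ E, f * ε ∈ F := by
      intro f hf ε hε
      rw [hFmem] at hf ⊢
      refine ⟨fun h => hf.1 ((M.mul_mem_cancel_right (hEM hε)).1 h), ?_⟩
      intro ε' hε'
      rw [mul_assoc f ε ε']
      exact hf.2 _ (E.mul_mem hε hε')
    have hFinv : ∀ f ∈ F, f⁻¹ ∈ F := by
      intro f hf
      rw [hFmem] at hf ⊢
      refine ⟨fun h => hf.1 (M.inv_mem_iff.1 h), ?_⟩
      intro ε hε h
      apply hf.2 (f⁻¹ * ε⁻¹ * f)
      · have := hEn.conj_mem ε⁻¹ (E.inv_mem hε) f⁻¹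
        simpa using this
      · have h1 := congrArg (·⁻¹) h
        simp only [inv_one] at h1
        rw [← h1]
        group
    have hFsq : ∀ f ∈ F, f * f ≠ 1 := by
      intro f hf
      have := ((hFmem f).1 hf).2 1 E.one_mem
      simpa using this
    obtain ⟨C0, hC0F, hC0c, hC0⟩ := exists_doubles hz1 hzz hzc hee he1 hez hconj F
      (fun f hf => hFE f hf z hzE) (fun f hf => hFE f hf e heE) hFinv hFsq
    -- counting
    have hcount : (E ⊔ A).index ≤ 2 * C0.card := by
      have hAE : A ⊓ E = ⊥ := by
        rw [eq_bot_iff, ← hAP]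
        exact inf_le_inf_left A le_sup_right
      have h1 := index_kl hAE
      rw [card_kl4 hzz hzc hee hz1 he1 hez] at h1
      have hclaim : ∀ y : G, y ∉ M → ∃ a ∈ A, a * y ∈ F := by
        intro y hy
        have hyAP : y ∉ A ⊔ P := fun h => hy ((sup_le hAM hPM) h)
        obtain ⟨a, ha, hay⟩ := claimA z e hz1 hzz hzc hee he1 hez hconj P A hzP heP hsqP hcomm
          hA2 hAP hmax y hyAP
        refine ⟨a, ha, ?_⟩
        rw [hFmem]
        refine ⟨fun h => hy ((M.mul_mem_cancel_left (hAM ha)).1 h), ?_⟩
        intro ε hε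
        exact hay ε (mem_kl4.1 hε)
      choose! α hαA hαF using hclaim
      have hcard : Nat.card G ≤ 2 * (Nat.card A * F.card) := by
        have hMc := Subgroup.card_mul_index M
        rw [hM] at hMc
        set T : Finset G := Finset.univ.filter (fun x => x ∉ M) with hT
        have hTc : T.card + Nat.card M = Nat.card G := by
          rw [hT, Nat.card_eq_fintype_card, Nat.card_eq_fintype_card]
          have := Finset.card_filter_add_card_filter_not (s := (Finset.univ : Finset G)) (fun x => x ∉ M)
          rw [Finset.card_univ] at this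
          rw [← this]
          congr 1
          rw [Fintype.card_subtype]
          congr 1
          ext x
          simp
        have hTle : T.card ≤ Nat.card A * F.card := by
          have : T.card ≤ ((Finset.univ.filter (fun x => x ∈ A)) ×ˢ F).card := by
            apply Finset.card_le_card_of_injOn (fun y => (α y, α y * y))
            · intro y hy
              have hy' : y ∉ M := by simpa [hT] using hy
              simp only [Finset.coe_product, Set.mem_prod, Finset.mem_coe, Finset.mem_filter,
                Finset.mem_univ, true_and]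
              exact ⟨hαA y hy', hαF y hy'⟩
            · intro y _ y' _ h
              simp only [Prod.mk.injEq] at h
              rw [h.1] at h
              exact mul_left_cancel h.2
          rw [Finset.card_product] at this
          have h3 : (Finset.univ.filter (fun x => x ∈ A)).card = Nat.card A := by
            rw [Nat.card_eq_fintype_card, Fintype.card_subtype]
          rwa [h3] at this
        omega
      have hApos : 0 < Nat.card A := Nat.card_pos
      rw [hC0c, ← h1] at hcard
      have h4 : (E ⊔ A).index * (4 * Nat.card A) ≤ (2 * C0.card) * (4 * Nat.card A) := by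
        calc (E ⊔ A).index * (4 * Nat.card A) ≤ 2 * (Nat.card A * (4 * C0.card)) := hcard
          _ = (2 * C0.card) * (4 * Nat.card A) := by ring
      exact Nat.le_of_mul_le_mul_right h4 (by omega)
    obtain ⟨D, hD, hD1, hDinv, hDmem⟩ := layer_induction h2 z e hz1 hzz hzc hee he1 hez hconj
      P A M hzP heP hcomm hAP hPM hAM hM C0 (fun f hf => ((hFmem f).1 (hC0F hf)).1) hC0 hcount
    exact ⟨D, hD, hD1, hDinv, fun x hx hxx => hDmem x (Subgroup.mem_sup_left hx) hxx⟩

end Pool.Agent.Helper466.Starter
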