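import Mathlib
set_option autoImplicit false
namespace Pool.Agent.Helper466.Starter

/-- the data of the first alternative -/
def Data (G : Type*) [Group G] : Prop :=
  ∃ z e : G, z ≠ 1 ∧ z * z = 1 ∧ (∀ g, g * z = z * g) ∧ e * e = 1 ∧ e ≠ 1 ∧ e ≠ z ∧
      ∀ g, g * e * g⁻¹ = e ∨ g * e * g⁻¹ = e * z

theorem exists_half {G : Type*} [Group G] [Finite G] (h2 : IsPGroup 2 G) (L : Subgroup G)
    (hL : L.Normal) (hne : L ≠ ⊥) :
    ∃ L1 : Subgroup G, L1.Normal ∧ L1 ≤ L ∧ Nat.card L = 2 * Nat.card L1 := by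
  classical
  obtain ⟨L1, hL1⟩ := (Set.toFinite {K : Subgroup G | K.Normal ∧ K < L}).exists_maximal
    ⟨⊥, ⟨inferInstance, bot_lt_iff_ne_bot.2 hne⟩⟩
  obtain ⟨hL1n, hL1L⟩ := hL1.prop
  have := hL1n
  have := hL
  let π := QuotientGroup.mk' L1
  have hπ : Function.Surjective π := QuotientGroup.mk'_surjective L1
  have hker : π.ker = L1 := QuotientGroup.ker_mk' L1
  have hN : (L.map π).Normal := Subgroup.Normal.map hL π hπ
  have hQ : IsPGroup 2 (G ⧸ L1) := h2.to_quotient L1
  have hQ' : IsPGroup 2 (ConjAct (G ⧸ L1)) := hQ.of_equiv ConjAct.toConjAct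
  have hNne : L.map π ≠ ⊥ := by
    rw [Ne, Subgroup.map_eq_bot_iff, hker]
    exact fun h => absurd hL1L (not_lt_of_ge h)
  have hdvd : 2 ∣ Nat.card (L.map π) := by
    obtain ⟨n, hn⟩ := IsPGroup.iff_card.1 (hQ.to_subgroup (L.map π))
    rw [hn]
    apply dvd_pow_self
    rintro rfl
    rw [pow_zero] at hn
    exact hNne (Subgroup.card_eq_one.1 hn)
  obtain ⟨b, hb, hb1⟩ := hQ'.exists_fixed_point_of_prime_dvd_card_of_fixed_point (L.map π) hdvd
    (a := 1) (by intro g; exact smul_one g)
  have hbc : ∀ q : G ⧸ L1, q * (b : G ⧸ L1) * q⁻¹ = b := by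
    intro q
    have h := hb (ConjAct.toConjAct q)
    have h' := congrArg (Subtype.val) h
    exact h'
  have hb1' : (b : G ⧸ L1) ≠ 1 := by
    intro h
    apply hb1
    exact Subtype.ext h.symm
  obtain ⟨k, hk⟩ := IsPGroup.iff_orderOf.1 hQ (b : G ⧸ L1)
  have hk0 : k ≠ 0 := by
    rintro rfl
    rw [pow_zero, orderOf_eq_one_iff] at hk
    exact hb1' hk
  obtain ⟨b', hb', hb'N, hb'c⟩ : ∃ b' : G ⧸ L1, orderOf b' = 2 ∧ b' ∈ L.map π ∧
      ∀ q : G ⧸ L1, q * b' * q⁻¹ = b' := by
    refine ⟨(b : G ⧸ L1) ^ (2 ^ (k - 1)), ?_, Subgroup.pow_mem _ b.2 _, ?_⟩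
    · rw [orderOf_pow_of_dvd (by positivity) (by rw [hk]; exact pow_dvd_pow _ (by omega)), hk,
        Nat.pow_div (by omega) (by norm_num)]
      have : k - (k - 1) = 1 := by omega
      rw [this, pow_one]
    · intro q
      rw [← conj_pow, hbc]
  have hKn : (Subgroup.zpowers b').Normal := by
    constructor
    intro n hn q
    obtain ⟨i, rfl⟩ := Subgroup.mem_zpowers_iff.1 hn
    rw [← conj_zpow, hb'c]
    exact Subgroup.mem_zpowers_iff.2 ⟨i, rfl⟩
  have hKN : Subgroup.zpowers b' ≤ L.map π := by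
    rw [Subgroup.zpowers_le]; exact hb'N
  set L' := (Subgroup.zpowers b').comap π with hL'
  have hL'n : L'.Normal := Subgroup.Normal.comap hKn π
  have hL1L' : L1 ≤ L' := by
    rw [← hker]
    exact Subgroup.ker_le_comap _ _
  have hL'L : L' ≤ L := by
    have h1 : L' ≤ (L.map π).comap π := Subgroup.comap_mono hKN
    rw [Subgroup.comap_map_eq, hker, sup_eq_left.2 hL1L.le] at h1
    exact h1
  have hne' : ¬ L' ≤ L1 := by
    intro h
    obtain ⟨g, hg⟩ := hπ b'
    have h1 : g ∈ L' := by
      rw [hL', Subgroup.mem_comap, hg]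
      exact Subgroup.mem_zpowers b'
    have h3 : g ∈ π.ker := by rw [hker]; exact h h1
    rw [MonoidHom.mem_ker, hg] at h3
    rw [h3, orderOf_one] at hb'
    omega
  have hEq : L' = L := by
    by_contra hcon
    have h1 : L' < L := lt_of_le_of_ne hL'L hcon
    exact hne' (hL1.2 ⟨hL'n, h1⟩ hL1L')
  refine ⟨L1, hL1n, hL1L.le, ?_⟩
  have i1 : L.index = (Subgroup.zpowers b').index := by
    rw [← hEq, hL']
    exact Subgroup.index_comap_of_surjective _ hπ
  have i2 := L.card_mul_index
  have i3 := (Subgroup.zpowers b').card_mul_index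
  have i4 := Subgroup.card_eq_card_quotient_mul_card_subgroup L1
  rw [Nat.card_zpowers, hb'] at i3
  rw [i4, ← i3, i1] at i2
  have hpos : 0 < (Subgroup.zpowers b').index := Nat.pos_of_ne_zero Subgroup.index_ne_zero_of_finite
  have i5 : (Subgroup.zpowers b').index * Nat.card L =
      (Subgroup.zpowers b').index * (2 * Nat.card L1) := by
    rw [mul_comm, i2]; ring
  exact Nat.eq_of_mul_eq_mul_left hpos i5

/-- elements of order 4 and 2 in a cyclic group -/
theorem cyc_four {H : Type*} [Group H] [Finite H] [IsCyclic H] {c y : H} (hc : orderOf c = 4)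
    (hy : orderOf y = 4) : y = c ∨ y = c⁻¹ := by
  classical
  have := Fintype.ofFinite H
  have hc4 : c ^ 4 = 1 := by rw [← hc]; exact pow_orderOf_eq_one c
  have hy4 : y ^ 4 = 1 := by rw [← hy]; exact pow_orderOf_eq_one y
  have h1 : c ≠ 1 := by rintro rfl; rw [orderOf_one] at hc; omega
  have h2 : c ^ 2 ≠ 1 := by
    intro h
    have := orderOf_dvd_of_pow_eq_one h
    rw [hc] at this
    omega
  have hy2 : y ^ 2 ≠ 1 := by
    intro h
    have := orderOf_dvd_of_pow_eq_one h
    rw [hy] at this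
    omega
  have hy1 : y ≠ 1 := by rintro rfl; rw [orderOf_one] at hy; omega
  have h3 : c⁻¹ = c ^ 3 := by
    rw [inv_eq_iff_mul_eq_one, ← pow_succ']; exact hc4
  by_contra hcon
  push Not at hcon
  obtain ⟨hn1, hn2⟩ := hcon
  rw [h3] at hn2
  have hle := IsCyclic.card_pow_eq_one_le (α := H) (n := 4) (by norm_num)
  have hsub : ({1, c, c ^ 2, c ^ 3, y} : Finset H) ⊆ Finset.univ.filter (fun a => a ^ 4 = 1) := by
    intro a ha
    simp only [Finset.mem_insert, Finset.mem_singleton] at ha
    rw [Finset.mem_filter]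
    refine ⟨Finset.mem_univ _, ?_⟩
    rcases ha with rfl | rfl | rfl | rfl | rfl
    · simp
    · exact hc4
    · rw [← pow_mul, mul_comm, pow_mul, hc4, one_pow]
    · rw [← pow_mul, mul_comm, pow_mul, hc4, one_pow]
    · exact hy4
  have e12 : c ≠ c ^ 2 := by
    intro h
    apply h1
    rw [pow_two] at h
    exact (left_eq_mul.1 h)
  have e13 : c ≠ c ^ 3 := by
    intro h
    apply h2
    rw [pow_succ'] at h
    exact (left_eq_mul.1 h)
  have e23 : c ^ 2 ≠ c ^ 3 := by
    intro h
    apply h1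
    rw [pow_succ c 2] at h
    exact (left_eq_mul.1 h)
  have e03 : c ^ 3 ≠ 1 := by
    intro h
    apply h1
    have : c ^ 4 = c ^ 3 * c := pow_succ c 3
    rw [h, hc4, one_mul] at this
    exact this.symm
  have ey2 : y ≠ c ^ 2 := by
    intro h
    apply hy2
    rw [h, ← pow_mul]
    exact hc4
  have hcard : ({1, c, c ^ 2, c ^ 3, y} : Finset H).card = 5 := by
    rw [Finset.card_insert_of_notMem, Finset.card_insert_of_notMem, Finset.card_insert_of_notMem,
      Finset.card_insert_of_notMem, Finset.card_singleton]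
    · simpa using hn2.symm
    · simp only [Finset.mem_insert, Finset.mem_singleton, not_or]
      exact ⟨e23, ey2.symm⟩
    · simp only [Finset.mem_insert, Finset.mem_singleton, not_or]
      exact ⟨e12, e13, hn1.symm⟩
    · simp only [Finset.mem_insert, Finset.mem_singleton, not_or]
      exact ⟨h1.symm, h2.symm, e03.symm, hy1.symm⟩
  have := Finset.card_le_card hsub
  omega

theorem cyc_two {H : Type*} [Group H] [Finite H] [IsCyclic H] {z y : H} (hz : z ≠ 1)
    (hz2 : z * z = 1) (hy : y * y = 1) : y = 1 ∨ y = z := by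
  classical
  have := Fintype.ofFinite H
  by_contra hcon
  push Not at hcon
  have hle := IsCyclic.card_pow_eq_one_le (α := H) (n := 2) (by norm_num)
  have hsub : ({1, z, y} : Finset H) ⊆ Finset.univ.filter (fun a => a ^ 2 = 1) := by
    intro a ha
    simp only [Finset.mem_insert, Finset.mem_singleton] at ha
    rw [Finset.mem_filter]
    refine ⟨Finset.mem_univ _, ?_⟩
    rcases ha with rfl | rfl | rfl
    · simp
    · rw [pow_two]; exact hz2
    · rw [pow_two]; exact hy
  have hcard : ({1, z, y} : Finset H).card = 3 := by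
    rw [Finset.card_insert_of_notMem, Finset.card_insert_of_notMem, Finset.card_singleton]
    · simpa using hcon.2.symm
    · simp only [Finset.mem_insert, Finset.mem_singleton, not_or]
      exact ⟨hz.symm, hcon.1.symm⟩
  have := Finset.card_le_card hsub
  omega

/-- the kernel of `y ↦ y * (x y x⁻¹)` -/
theorem ker_lemma {G : Type*} [Group G] [Finite G] (h2 : IsPGroup 2 G) (L1 : Subgroup G)
    (hcyc : IsCyclic L1) {c x y : G} (hcL : c ∈ L1) (hc : orderOf c = 4) (hxc : x * c = c * x)
    (hy : y ∈ L1) (hxy : y * (x * y * x⁻¹) = 1) : y = 1 ∨ y = c * c := by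
  have hxy' : x * y * x⁻¹ = y⁻¹ := (inv_eq_of_mul_eq_one_right hxy).symm
  have hcc : c * c ≠ 1 := by
    intro h
    have := orderOf_dvd_of_pow_eq_one (x := c) (n := 2) (by rw [pow_two]; exact h)
    rw [hc] at this
    omega
  have hcccc : (c * c) * (c * c) = 1 := by
    have : c ^ 4 = 1 := by rw [← hc]; exact pow_orderOf_eq_one c
    rw [← this, ← pow_two, ← pow_two, ← pow_mul]
  by_cases hyy : y * y = 1
  · have h := cyc_two (H := L1) (z := ⟨c * c, L1.mul_mem hcL hcL⟩) (y := ⟨y, hy⟩)
      (by intro h; exact hcc (congrArg Subtype.val h)) (Subtype.ext hcccc) (Subtype.ext hyy)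
    rcases h with h | h
    · left; exact congrArg Subtype.val h
    · right; exact congrArg Subtype.val h
  · exfalso
    obtain ⟨k, hk⟩ := IsPGroup.iff_orderOf.1 h2 y
    have hk2 : 2 ≤ k := by
      by_contra hlt
      apply hyy
      have h1 : orderOf y ∣ 2 := by
        rw [hk]
        have : k ≤ 1 := by omega
        calc 2 ^ k ∣ 2 ^ 1 := pow_dvd_pow _ this
          _ = 2 := by norm_num
      rw [← pow_two]
      exact orderOf_dvd_iff_pow_eq_one.1 h1
    set y' := y ^ (2 ^ (k - 2)) with hy'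
    have hord : orderOf y' = 4 := by
      rw [hy', orderOf_pow_of_dvd (by positivity) (by rw [hk]; exact pow_dvd_pow _ (by omega)), hk,
        Nat.pow_div (by omega) (by norm_num)]
      have : k - (k - 2) = 2 := by omega
      rw [this]
    have hy'L : y' ∈ L1 := L1.pow_mem hy _
    have hconj : x * y' * x⁻¹ = y'⁻¹ := by
      rw [hy', ← conj_pow, hxy', inv_pow]
    have h4 := cyc_four (H := L1) (c := ⟨c, hcL⟩) (y := ⟨y', hy'L⟩)
      (by rw [Subgroup.orderOf_mk]; exact hc) (by rw [Subgroup.orderOf_mk]; exact hord)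
    have hcomm : x * y' * x⁻¹ = y' := by
      have hxc' : x * c * x⁻¹ = c := by rw [hxc]; group
      rcases h4 with h | h
      · have : y' = c := congrArg Subtype.val h
        rw [this, hxc']
      · have : y' = c⁻¹ := congrArg Subtype.val h
        rw [this, ← conj_inv, hxc']
    rw [hconj] at hcomm
    have h5 : y' ^ 2 = 1 := by
      rw [pow_two]
      nth_rewrite 1 [← hcomm]
      exact inv_mul_cancel y'
    have := orderOf_dvd_of_pow_eq_one h5
    rw [hord] at this
    omega

/-- the image of `y ↦ y * (x y x⁻¹)` -/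
theorem im_lemma {G : Type*} [Group G] [Finite G] (h2 : IsPGroup 2 G) (L1 : Subgroup G)
    (hn : L1.Normal) (hcyc : IsCyclic L1) {c x t : G} (hcL : c ∈ L1) (hc : orderOf c = 4)
    (hxc : x * c = c * x) (ht : t ∈ L1) (N : ℕ) (hN : Nat.card L1 = 2 * N) (htN : t ^ N = 1) :
    ∃ y ∈ L1, y * (x * y * x⁻¹) = t := by
  classical
  have := Fintype.ofFinite L1
  have hcomm : ∀ a b : L1, a * b = b * a := fun a b =>
    (IsCyclic.isMulCommutative (α := L1)).is_comm.comm a b
  let ψ : L1 →* L1 :=
    { toFun := fun y => y * MulAut.conjNormal x y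
      map_one' := by simp
      map_mul' := fun a b => by
        rw [map_mul]
        calc a * b * (MulAut.conjNormal x a * MulAut.conjNormal x b)
            = a * (b * MulAut.conjNormal x a) * MulAut.conjNormal x b := by group
          _ = a * (MulAut.conjNormal x a * b) * MulAut.conjNormal x b := by
              rw [hcomm b (MulAut.conjNormal x a)]
          _ = _ := by group }
  have hψ : ∀ y : L1, (ψ y : G) = y * (x * y * x⁻¹) := fun y => rfl
  have hNpos : 0 < N := by
    rcases Nat.eq_zero_or_pos N with h | h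
    · rw [h] at hN
      have : 0 < Nat.card L1 := Nat.card_pos
      omega
    · exact h
  -- kernel has exactly two elements
  have hcc : c * c ≠ 1 := by
    intro h
    have := orderOf_dvd_of_pow_eq_one (x := c) (n := 2) (by rw [pow_two]; exact h)
    rw [hc] at this
    omega
  have hcccc : (c * c) * (c * c) = 1 := by
    have : c ^ 4 = 1 := by rw [← hc]; exact pow_orderOf_eq_one c
    rw [← this, ← pow_two, ← pow_two, ← pow_mul]
  have hxcc : x * (c * c) * x⁻¹ = c * c := by
    have : x * (c * c) = (c * c) * x := by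
      rw [← mul_assoc, hxc, mul_assoc, hxc, ← mul_assoc]
    rw [this]; group
  have hker : Nat.card ψ.ker = 2 := by
    have hsub : (ψ.ker : Set L1) = {1, ⟨c * c, L1.mul_mem hcL hcL⟩} := by
      ext y
      constructor
      · intro hy
        have h1 : ψ y = 1 := hy
        have h3 : (y : G) * (x * y * x⁻¹) = 1 := by
          rw [← hψ, h1]; rfl
        rcases ker_lemma h2 L1 hcyc hcL hc hxc y.2 h3 with h | h
        · left; exact Subtype.ext h
        · right; exact Subtype.ext h
      · intro hy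
        rcases hy with rfl | rfl
        · exact ψ.ker.one_mem
        · show ψ _ = 1
          apply Subtype.ext
          rw [hψ]
          show c * c * (x * (c * c) * x⁻¹) = 1
          rw [hxcc]
          exact hcccc
    calc Nat.card ψ.ker = Set.ncard (ψ.ker : Set L1) := rfl
      _ = Set.ncard ({1, ⟨c * c, L1.mul_mem hcL hcL⟩} : Set L1) := by rw [hsub]
      _ = 2 := by
        apply Set.ncard_pair
        intro h
        exact hcc (congrArg Subtype.val h).symm
  have hrange : Nat.card ψ.range = N := by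
    have h1 := ψ.ker.card_mul_index
    rw [Subgroup.index_ker, hN, hker] at h1
    omega
  -- the range is the set of elements killed by N
  have hle := IsCyclic.card_pow_eq_one_le (α := L1) (n := N) hNpos
  have hsub : (Finset.univ.filter (fun a => a ∈ ψ.range)) ⊆
      Finset.univ.filter (fun a : L1 => a ^ N = 1) := by
    intro a ha
    rw [Finset.mem_filter] at ha ⊢
    refine ⟨ha.1, ?_⟩
    have h1 : (⟨a, ha.2⟩ : ψ.range) ^ N = 1 := by
      rw [← hrange]; exact pow_card_eq_one'
    exact congrArg Subtype.val h1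
  have hcardS : (Finset.univ.filter (fun a => a ∈ ψ.range)).card = N := by
    rw [← hrange, Nat.card_eq_fintype_card, Fintype.card_subtype]
  have heq := Finset.eq_of_subset_of_card_le hsub (by rw [hcardS]; exact hle)
  have htm : (⟨t, ht⟩ : L1) ∈ Finset.univ.filter (fun a : L1 => a ^ N = 1) := by
    rw [Finset.mem_filter]
    exact ⟨Finset.mem_univ _, Subtype.ext htN⟩
  rw [← heq, Finset.mem_filter] at htm
  obtain ⟨y, hy⟩ := htm.2
  refine ⟨y, y.2, ?_⟩
  rw [← hψ, hy]

theorem half_mul {G : Type*} [Group G] [Finite G] {L L1 : Subgroup G} (hle : L1 ≤ L)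
    (hcard : Nat.card L = 2 * Nat.card L1) {x y : G} (hx : x ∈ L) (hy : y ∈ L) :
    x * y ∈ L1 ↔ (x ∈ L1 ↔ y ∈ L1) := by
  have h1 : (L1.subgroupOf L).index = 2 := by
    have h3 := (L1.subgroupOf L).card_mul_index
    have h4 : Nat.card (L1.subgroupOf L) = Nat.card L1 :=
      Nat.card_congr (Subgroup.subgroupOfEquivOfLe hle).toEquiv
    rw [h4, hcard] at h3
    have h5 : 0 < Nat.card L1 := Nat.card_pos
    exact Nat.eq_of_mul_eq_mul_left h5 (by rw [h3]; ring)
  have h2 := Subgroup.mul_mem_iff_of_index_two h1 (a := ⟨x, hx⟩) (b := ⟨y, hy⟩)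
  exact h2

theorem exists_out {G : Type*} [Group G] [Finite G] {L L1 : Subgroup G} (hle : L1 ≤ L)
    (hcard : Nat.card L = 2 * Nat.card L1) : ∃ x ∈ L, x ∉ L1 := by
  by_contra hcon
  push Not at hcon
  have h : L = L1 := le_antisymm hcon hle
  rw [h] at hcard
  have h5 : 0 < Nat.card L1 := Nat.card_pos
  omega

theorem exists_gen {G : Type*} [Group G] [Finite G] (h2 : IsPGroup 2 G) {L L1 : Subgroup G}
    (hcard : Nat.card L = 2 * Nat.card L1) (hLc : ¬ IsCyclic L) {x : G} (hx : x ∈ L)
    (hx1 : x ∉ L1) (hxx : x * x ∈ L1) (N : ℕ) (hN : Nat.card L1 = 2 * N) :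
    (x * x) ^ N = 1 := by
  obtain ⟨n, hn⟩ := IsPGroup.iff_card.1 (h2.to_subgroup L1)
  obtain ⟨m, hm⟩ := IsPGroup.iff_orderOf.1 h2 x
  have hn0 : n ≠ 0 := by
    rintro rfl
    rw [pow_zero, hN] at hn
    omega
  have hNn : N = 2 ^ (n - 1) := by
    have : 2 ^ n = 2 * 2 ^ (n - 1) := by
      rw [← pow_succ']; congr 1; omega
    rw [hN, this] at hn
    omega
  -- the order of x divides 2^n
  have hmn : m ≤ n := by
    by_contra hlt
    apply hLc
    -- order of x divides card L = 2^(n+1)
    have h1 : orderOf (⟨x, hx⟩ : L) ∣ Nat.card L := orderOf_dvd_natCard _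
    rw [Subgroup.orderOf_mk, hm, hcard, hn, ← pow_succ'] at h1
    have h3 : m ≤ n + 1 := (Nat.pow_dvd_pow_iff_le_right (by norm_num)).1 h1
    have h4 : m = n + 1 := by omega
    apply isCyclic_of_orderOf_eq_card (⟨x, hx⟩ : L)
    rw [Subgroup.orderOf_mk, hm, hcard, hn, ← pow_succ', h4]
  have h5 : (x * x) ^ N = x ^ (2 ^ n) := by
    rw [← pow_two, ← pow_mul, hNn, ← pow_succ']
    congr 2
    omega
  rw [h5]
  exact orderOf_dvd_iff_pow_eq_one.1 (by rw [hm]; exact pow_dvd_pow _ hmn)

theorem four_dvd_case {G : Type*} [Group G] [Finite G] (h2 : IsPGroup 2 G) {L L1 : Subgroup G}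
    (hLn : L.Normal) (hL1n : L1.Normal) (hle : L1 ≤ L) (hcard : Nat.card L = 2 * Nat.card L1)
    (hcyc : IsCyclic L1) (hLc : ¬ IsCyclic L) {c : G} (hcL : c ∈ L1) (hc : orderOf c = 4)
    (hcomm : ∀ x ∈ L, x * c = c * x) : Data G := by
  have hcc : c * c ≠ 1 := by
    intro h
    have := orderOf_dvd_of_pow_eq_one (x := c) (n := 2) (by rw [pow_two]; exact h)
    rw [hc] at this
    omega
  have hcccc : (c * c) * (c * c) = 1 := by
    have : c ^ 4 = 1 := by rw [← hc]; exact pow_orderOf_eq_one c
    rw [← this, ← pow_two, ← pow_two, ← pow_mul]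
  have hccL : c * c ∈ L1 := L1.mul_mem hcL hcL
  have hz : ∀ g : G, g * (c * c) = (c * c) * g := by
    intro g
    have h1 : g * (c * c) * g⁻¹ ∈ L1 := hL1n.conj_mem _ hccL g
    have h3 : (g * (c * c) * g⁻¹) * (g * (c * c) * g⁻¹) = 1 := by
      have : (g * (c * c) * g⁻¹) * (g * (c * c) * g⁻¹) = g * ((c * c) * (c * c)) * g⁻¹ := by group
      rw [this, hcccc]; group
    rcases cyc_two (H := L1) (z := ⟨c * c, hccL⟩) (y := ⟨g * (c * c) * g⁻¹, h1⟩)
      (by intro h; exact hcc (congrArg Subtype.val h)) (Subtype.ext hcccc) (Subtype.ext h3)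
      with h | h
    · exfalso
      have h4 : g * (c * c) * g⁻¹ = 1 := congrArg Subtype.val h
      apply hcc
      have h5 : c * c = g⁻¹ * (g * (c * c) * g⁻¹) * g := by group
      rw [h5, h4]; group
    · have h4 : g * (c * c) * g⁻¹ = c * c := congrArg Subtype.val h
      calc g * (c * c) = (g * (c * c) * g⁻¹) * g := by group
        _ = c * c * g := by rw [h4]
  obtain ⟨x, hx, hx1⟩ := exists_out hle hcard
  have hxx : x * x ∈ L1 := (half_mul hle hcard hx hx).2 Iff.rfl
  obtain ⟨N, hN⟩ : ∃ N, Nat.card L1 = 2 * N := by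
    have h1 : orderOf (⟨c, hcL⟩ : L1) ∣ Nat.card L1 := orderOf_dvd_natCard _
    rw [Subgroup.orderOf_mk, hc] at h1
    obtain ⟨k, hk⟩ := h1
    exact ⟨2 * k, by omega⟩
  have hgen := exists_gen h2 hcard hLc hx hx1 hxx N hN
  obtain ⟨y, hy, hyx⟩ := im_lemma h2 L1 hL1n hcyc hcL hc (hcomm x hx) (t := (x * x)⁻¹)
    (L1.inv_mem hxx) N hN (by rw [inv_pow, hgen, inv_one])
  -- the involution
  have hyL : y ∈ L := hle hy
  set w := y * x with hw
  have hwL : w ∈ L := L.mul_mem hyL hx
  have hw1 : w ∉ L1 := by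
    rw [hw, half_mul hle hcard hyL hx]
    intro h
    exact hx1 (h.1 hy)
  have hww : w * w = 1 := by
    have : w * w = (y * (x * y * x⁻¹)) * (x * x) := by rw [hw]; group
    rw [this, hyx]
    group
  have hinv : ∀ e : G, e ∈ L → e ∉ L1 → e * e = 1 → e = w ∨ e = w * (c * c) := by
    intro e he he1 hee
    have h1 : e * w⁻¹ ∈ L1 := by
      rw [half_mul hle hcard he (L.inv_mem hwL)]
      constructor
      · intro h; exact absurd h he1
      · intro h; exact absurd (by simpa using L1.inv_mem h) hw1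
    have hww' : w⁻¹ = w := by rw [inv_eq_iff_mul_eq_one]; exact hww
    have h3 : (e * w⁻¹) * (w * (e * w⁻¹) * w⁻¹) = 1 := by
      calc (e * w⁻¹) * (w * (e * w⁻¹) * w⁻¹) = e * e * (w⁻¹ * w⁻¹) := by group
        _ = 1 := by rw [hee, hww', hww, one_mul]
    rcases ker_lemma h2 L1 hcyc hcL hc (hcomm w hwL) h1 h3 with h | h
    · left
      calc e = (e * w⁻¹) * w := by group
        _ = w := by rw [h, one_mul]
    · right
      calc e = (e * w⁻¹) * w := by group
        _ = w * (c * c) := by rw [h, hz w]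
  refine ⟨c * c, w, hcc, hcccc, hz, hww, ?_, ?_, ?_⟩
  · intro h; exact hw1 (h ▸ L1.one_mem)
  · intro h; exact hw1 (h ▸ hccL)
  · intro g
    apply hinv
    · exact hLn.conj_mem _ hwL g
    · intro h
      apply hw1
      have h1 := hL1n.conj_mem _ h g⁻¹
      have h3 : g⁻¹ * (g * w * g⁻¹) * g⁻¹⁻¹ = w := by group
      rwa [h3] at h1
    · have h3 : (g * w * g⁻¹) * (g * w * g⁻¹) = g * (w * w) * g⁻¹ := by group
      rw [h3, hww]; group

theorem two_case {G : Type*} [Group G] [Finite G] {L L1 : Subgroup G}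
    (hLn : L.Normal) (hL1n : L1.Normal) (hle : L1 ≤ L) (hcard : Nat.card L = 2 * Nat.card L1)
    (hLc : ¬ IsCyclic L) (h12 : Nat.card L1 = 2) : Data G := by
  have hcyc : IsCyclic L1 := by
    have : Fact (Nat.Prime 2) := ⟨Nat.prime_two⟩
    exact isCyclic_of_prime_card h12
  obtain ⟨z, hz⟩ := IsCyclic.exists_ofOrder_eq_natCard (α := L1)
  rw [h12] at hz
  have hz1 : (z : G) ≠ 1 := by
    intro h
    have : z = 1 := Subtype.ext h
    rw [this, orderOf_one] at hz
    omega
  have hzz' : z * z = 1 := by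
    rw [← pow_two, ← hz]; exact pow_orderOf_eq_one z
  have hzz : (z : G) * z = 1 := congrArg Subtype.val hzz'
  have hmem : ∀ y ∈ L1, y = 1 ∨ y = (z : G) := by
    intro y hy
    have h3 : (⟨y, hy⟩ : L1) * ⟨y, hy⟩ = 1 := by
      rw [← pow_two, ← h12]; exact pow_card_eq_one'
    rcases cyc_two (H := L1) (z := z) (y := ⟨y, hy⟩) (by intro h; exact hz1 (congrArg Subtype.val h))
      hzz' h3 with h | h
    · left; exact congrArg Subtype.val h
    · right; exact congrArg Subtype.val h
  have hzc : ∀ g : G, g * z = z * g := by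
    intro g
    rcases hmem _ (hL1n.conj_mem _ z.2 g) with h | h
    · exfalso
      apply hz1
      have h5 : (z : G) = g⁻¹ * (g * z * g⁻¹) * g := by group
      rw [h5, h]; group
    · calc g * z = (g * z * g⁻¹) * g := by group
        _ = z * g := by rw [h]
  obtain ⟨e, he, he1⟩ := exists_out hle hcard
  have hee : e * e ∈ L1 := (half_mul hle hcard he he).2 Iff.rfl
  have hee1 : e * e = 1 := by
    rcases hmem _ hee with h | h
    · exact h
    · exfalso
      apply hLc
      have h4 : Nat.card L = 4 := by rw [hcard, h12]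
      have hord : orderOf e = 2 ^ (1 + 1) := by
        have := Fact.mk Nat.prime_two
        apply orderOf_eq_prime_pow
        · rw [pow_one, pow_two, h]; exact hz1
        · norm_num
          have : e ^ 4 = (e * e) * (e * e) := by
            rw [← pow_two, ← pow_two, ← pow_mul]
          rw [this, h, hzz]
      apply isCyclic_of_orderOf_eq_card (⟨e, he⟩ : L)
      rw [Subgroup.orderOf_mk, hord, h4]
      norm_num
  refine ⟨z, e, hz1, hzz, hzc, hee1, ?_, ?_, ?_⟩
  · intro h; exact he1 (h ▸ L1.one_mem)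
  · intro h; exact he1 (h ▸ z.2)
  · intro g
    have h1 : g * e * g⁻¹ ∈ L := hLn.conj_mem _ he g
    have h3 : g * e * g⁻¹ ∉ L1 := by
      intro h
      apply he1
      have h1 := hL1n.conj_mem _ h g⁻¹
      have h3 : g⁻¹ * (g * e * g⁻¹) * g⁻¹⁻¹ = e := by group
      rwa [h3] at h1
    have h4 : e⁻¹ * (g * e * g⁻¹) ∈ L1 := by
      rw [half_mul hle hcard (L.inv_mem he) h1]
      constructor
      · intro h; exact absurd (by simpa using L1.inv_mem h) he1
      · intro h; exact absurd h h3
    rcases hmem _ h4 with h | h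
    · left
      calc g * e * g⁻¹ = e * (e⁻¹ * (g * e * g⁻¹)) := by group
        _ = e := by rw [h, mul_one]
    · right
      calc g * e * g⁻¹ = e * (e⁻¹ * (g * e * g⁻¹)) := by group
        _ = e * z := by rw [h]

theorem step {G : Type*} [Group G] [Finite G] (h2 : IsPGroup 2 G) (C : Subgroup G)
    (hCn : C.Normal) (hC : ¬ IsCyclic C) : Data G ∨ ∃ (L L1 : Subgroup G) (c : G), L.Normal ∧
      L1.Normal ∧ L ≤ C ∧ L1 ≤ L ∧ ¬ IsCyclic L ∧ IsCyclic L1 ∧ Nat.card L = 2 * Nat.card L1 ∧
      c ∈ L1 ∧ orderOf c = 4 ∧ ∀ g, g * c * g⁻¹ = c ∨ g * c * g⁻¹ = c⁻¹ := by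
  obtain ⟨L, hL⟩ := (Set.toFinite {K : Subgroup G | K.Normal ∧ K ≤ C ∧ ¬ IsCyclic K}).exists_minimal
    ⟨C, ⟨hCn, le_rfl, hC⟩⟩
  obtain ⟨hLn, hLC, hLc⟩ := hL.prop
  have hLne : L ≠ ⊥ := by
    rintro rfl
    apply hLc
    infer_instance
  obtain ⟨L1, hL1n, hle, hcard⟩ := exists_half h2 L hLn hLne
  have hcyc : IsCyclic L1 := by
    by_contra hcon
    have h1 : L ≤ L1 := hL.2 ⟨hL1n, hle.trans hLC, hcon⟩ hle
    obtain ⟨x, hx, hx1⟩ := exists_out hle hcard
    exact hx1 (h1 hx)
  obtain ⟨n, hn⟩ := IsPGroup.iff_card.1 (h2.to_subgroup L1)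
  rcases Nat.lt_or_ge n 2 with hn2 | hn2
  · left
    have hn1 : n = 0 ∨ n = 1 := by omega
    rcases hn1 with rfl | rfl
    · exfalso
      apply hLc
      have : Fact (Nat.Prime 2) := ⟨Nat.prime_two⟩
      apply isCyclic_of_prime_card (p := 2)
      rw [hcard, hn]; norm_num
    · exact two_case hLn hL1n hle hcard hLc (by rw [hn]; norm_num)
  · right
    obtain ⟨h, hh⟩ := IsCyclic.exists_ofOrder_eq_natCard (α := L1)
    rw [hn] at hh
    have hc : orderOf (h ^ (2 ^ (n - 2))) = 4 := by
      rw [orderOf_pow_of_dvd (by positivity) (by rw [hh]; exact pow_dvd_pow _ (by omega)), hh,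
        Nat.pow_div (by omega) (by norm_num)]
      have : n - (n - 2) = 2 := by omega
      rw [this]
    refine ⟨L, L1, ((h ^ (2 ^ (n - 2)) : L1) : G), hLn, hL1n, hLC, hle, hLc, hcyc, hcard,
      (h ^ (2 ^ (n - 2)) : L1).2, by rw [Subgroup.orderOf_coe]; exact hc, ?_⟩
    intro g
    set c : L1 := h ^ (2 ^ (n - 2)) with hcdef
    have h1 : g * (c : G) * g⁻¹ ∈ L1 := hL1n.conj_mem _ c.2 g
    have h3 : orderOf (g * (c : G) * g⁻¹) = 4 := by
      rw [← hc, ← Subgroup.orderOf_coe c]
      exact orderOf_injective (MulAut.conj g).toMonoidHom (MulAut.conj g).injective (c : G)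
    rcases cyc_four (H := L1) (c := c) (y := ⟨g * (c : G) * g⁻¹, h1⟩) hc
      (by rw [Subgroup.orderOf_mk]; exact h3) with h | h
    · left; exact congrArg Subtype.val h
    · right; exact congrArg Subtype.val h

theorem four_or_maxclass {G : Type*} [Group G] [Finite G] (h2 : IsPGroup 2 G)
    (hnc : ¬ IsCyclic G) :
    (∃ z e : G, z ≠ 1 ∧ z * z = 1 ∧ (∀ g, g * z = z * g) ∧ e * e = 1 ∧ e ≠ 1 ∧ e ≠ z ∧
      ∀ g, g * e * g⁻¹ = e ∨ g * e * g⁻¹ = e * z) ∨
    (∃ g c : G, orderOf c = 4 ∧ c ∈ Subgroup.zpowers g ∧ (Subgroup.zpowers g).index = 2 ∧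
      ∀ s, s ∉ Subgroup.zpowers g → s * c * s⁻¹ = c⁻¹) := by
  have htop : ¬ IsCyclic (⊤ : Subgroup G) := by
    intro h
    apply hnc
    exact isCyclic_of_surjective (Subgroup.topEquiv (G := G)) Subgroup.topEquiv.surjective
  rcases step h2 ⊤ inferInstance htop with hD | ⟨L, L1, c, hLn, hL1n, -, hle, hLc, hcyc, hcard,
    hcL, hc, hconj⟩
  · exact Or.inl hD
  have hzprop : ∀ d : G, orderOf d = 4 → (∀ g, g * d * g⁻¹ = d ∨ g * d * g⁻¹ = d⁻¹) →
      d * d ≠ 1 ∧ (d * d) * (d * d) = 1 ∧ ∀ g, g * (d * d) = (d * d) * g := by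
    intro d hd hdc
    have h4 : (d * d) * (d * d) = 1 := by
      have : d ^ 4 = 1 := by rw [← hd]; exact pow_orderOf_eq_one d
      rw [← this, ← pow_two, ← pow_two, ← pow_mul]
    refine ⟨?_, h4, ?_⟩
    · intro h
      have := orderOf_dvd_of_pow_eq_one (x := d) (n := 2) (by rw [pow_two]; exact h)
      rw [hd] at this
      omega
    · intro g
      have h5 : g * (d * d) * g⁻¹ = (g * d * g⁻¹) * (g * d * g⁻¹) := by group
      have h6 : g * (d * d) * g⁻¹ = d * d := by
        rw [h5]
        rcases hdc g with h | h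
        · rw [h]
        · rw [h, ← mul_inv_rev, inv_eq_iff_mul_eq_one]; exact h4
      calc g * (d * d) = (g * (d * d) * g⁻¹) * g := by group
        _ = d * d * g := by rw [h6]
  obtain ⟨hz1, hz2, hz3⟩ := hzprop c hc hconj
  set C : Subgroup G := Subgroup.centralizer {c} with hCdef
  have hmemC : ∀ g, g ∈ C ↔ g * c * g⁻¹ = c := by
    intro g
    rw [hCdef, Subgroup.mem_centralizer_singleton_iff]
    constructor
    · intro h; rw [h]; group
    · intro h
      calc g * c = (g * c * g⁻¹) * g := by group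
        _ = c * g := by rw [h]
  have hCn : C.Normal := by
    constructor
    intro n hn g
    rw [hmemC] at hn ⊢
    have h1 : g * n * g⁻¹ * c * (g * n * g⁻¹)⁻¹ = g * (n * (g⁻¹ * c * g⁻¹⁻¹) * n⁻¹) * g⁻¹ := by group
    rw [h1]
    have h3 : n * (g⁻¹ * c * g⁻¹⁻¹) * n⁻¹ = g⁻¹ * c * g⁻¹⁻¹ := by
      rcases hconj g⁻¹ with h | h
      · rw [h, hn]
      · rw [h, ← conj_inv, hn]
    rw [h3]; group
  have hout : ∀ s, s ∉ C → s * c * s⁻¹ = c⁻¹ := by
    intro s hs
    rw [hmemC] at hs
    rcases hconj s with h | h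
    · exact absurd h hs
    · exact h
  by_cases hCc : IsCyclic C
  · right
    obtain ⟨g, hg⟩ := IsCyclic.exists_generator (α := C)
    have hCg : C = Subgroup.zpowers (g : G) := by
      ext x
      constructor
      · intro hx
        obtain ⟨i, hi⟩ := Subgroup.mem_zpowers_iff.1 (hg ⟨x, hx⟩)
        exact Subgroup.mem_zpowers_iff.2 ⟨i, congrArg Subtype.val hi⟩
      · intro hx
        obtain ⟨i, rfl⟩ := Subgroup.mem_zpowers_iff.1 hx
        exact C.zpow_mem g.2 i
    have hcC : c ∈ C := by rw [hmemC]; group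
    refine ⟨g, c, hc, hCg ▸ hcC, ?_, ?_⟩
    · rw [← hCg, Subgroup.index_eq_two_iff]
      obtain ⟨a, ha⟩ : ∃ a, a ∉ C := by
        by_contra hcon
        push Not at hcon
        apply hnc
        have : C = ⊤ := by
          rw [eq_top_iff]; intro x _; exact hcon x
        rw [this] at hCc
        exact isCyclic_of_surjective (Subgroup.topEquiv (G := G)) Subgroup.topEquiv.surjective
      refine ⟨a, fun b => ?_⟩
      by_cases hb : b ∈ C
      · right
        refine ⟨hb, ?_⟩
        intro h
        exact ha ((Subgroup.mul_mem_cancel_left C hb).1 h)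
      · left
        refine ⟨?_, hb⟩
        rw [hmemC]
        have h1 : b * a * c * (b * a)⁻¹ = b * (a * c * a⁻¹) * b⁻¹ := by group
        rw [h1, hout a ha, ← conj_inv, hout b hb, inv_inv]
    · intro s hs
      rw [← hCg] at hs
      exact hout s hs
  · left
    rcases step h2 C hCn hCc with hD | ⟨L', L1', c', hLn', hL1n', hLC', hle', hLc', hcyc', hcard',
      hcL', hc', hconj'⟩
    · exact hD
    obtain ⟨hz1', hz2', hz3'⟩ := hzprop c' hc' hconj'
    by_cases hcc' : c' = c ∨ c' = c⁻¹
    · apply four_dvd_case h2 hLn' hL1n' hle' hcard' hcyc' hLc' hcL' hc'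
      intro x hx
      have hxC := (hmemC x).1 (hLC' hx)
      have hxc : x * c = c * x := by
        calc x * c = (x * c * x⁻¹) * x := by group
          _ = c * x := by rw [hxC]
      rcases hcc' with rfl | rfl
      · exact hxc
      · calc x * c⁻¹ = (c⁻¹ * (c * x) * c⁻¹) := by group
          _ = c⁻¹ * (x * c) * c⁻¹ := by rw [hxc]
          _ = c⁻¹ * x := by group
    · push Not at hcc'
      have hcomm : c' * c = c * c' := by
        have h1 := (hmemC c').1 (hLC' (hle' hcL'))
        calc c' * c = (c' * c * c'⁻¹) * c' := by group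
          _ = c * c' := by rw [h1]
      by_cases hzz : c * c = c' * c'
      · -- w = c c'
        have hcinv : c⁻¹ = c * (c * c) := by
          rw [inv_eq_iff_mul_eq_one]
          calc c * (c * (c * c)) = (c * c) * (c * c) := by group
            _ = 1 := hz2
        have hcinv' : c'⁻¹ = c' * (c * c) := by
          rw [hzz, inv_eq_iff_mul_eq_one]
          calc c' * (c' * (c' * c')) = (c' * c') * (c' * c') := by group
            _ = 1 := hz2'
        refine ⟨c * c, c * c', hz1, hz2, hz3, ?_, ?_, ?_, ?_⟩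
        · calc c * c' * (c * c') = c * (c' * c) * c' := by group
            _ = c * (c * c') * c' := by rw [hcomm]
            _ = (c * c) * (c' * c') := by group
            _ = 1 := by rw [← hzz, hz2]
        · intro h
          apply hcc'.2
          exact (eq_inv_of_mul_eq_one_right h)
        · intro h
          apply hcc'.1
          exact mul_left_cancel h
        · intro g
          have h1 : g * (c * c') * g⁻¹ = (g * c * g⁻¹) * (g * c' * g⁻¹) := by group
          rw [h1]
          rcases hconj g with h | h <;> rcases hconj' g with h' | h'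
          · left; rw [h, h']
          · right; rw [h, h', hcinv']; group
          · right
            rw [h, h', hcinv]
            calc c * (c * c) * c' = c * ((c * c) * c') := by group
              _ = c * (c' * (c * c)) := by rw [hz3 c']
              _ = c * c' * (c * c) := by group
          · left
            rw [h, h', hcinv, hcinv']
            calc c * (c * c) * (c' * (c * c)) = c * ((c * c) * c') * (c * c) := by group
              _ = c * (c' * (c * c)) * (c * c) := by rw [hz3 c']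
              _ = c * c' * ((c * c) * (c * c)) := by group
              _ = c * c' := by rw [hz2, mul_one]
      · refine ⟨c * c, c' * c', hz1, hz2, hz3, hz2', hz1', fun h => hzz h.symm, ?_⟩
        intro g
        left
        rw [hz3' g]; group

end Pool.Agent.Helper466.Starter
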