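import Mathlib
import Pool.Agent.Helper466.Starter.Base2

set_option autoImplicit false

namespace Pool.Agent.Helper466.Starter

variable {G : Type*} [Group G]




section maxclass

variable {g s : G} {N : ℕ}

theorem mc_one (hord : orderOf g = 4 * N) (a : ℤ) : g ^ a = 1 ↔ (4 * (N : ℤ)) ∣ a := by
  rw [← orderOf_dvd_iff_zpow_eq_one, hord]
  push_cast
  rfl

theorem mc_eq (hord : orderOf g = 4 * N) (a b : ℤ) : g ^ a = g ^ b ↔ (4 * (N : ℤ)) ∣ a - b := by
  rw [← mc_one hord, zpow_sub, mul_inv_eq_one]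

theorem mc_comm (hq : s * g ^ (N : ℤ) * s⁻¹ = (g ^ (N : ℤ))⁻¹) :
    s * g ^ (N : ℤ) = g ^ (-(N : ℤ)) * s := by
  rw [zpow_neg, ← hq]
  group

theorem mc_comm' (hq : s * g ^ (N : ℤ) * s⁻¹ = (g ^ (N : ℤ))⁻¹) :
    s * g ^ (-(N : ℤ)) = g ^ (N : ℤ) * s := by
  have h := mc_comm hq
  have h2 : g ^ (N : ℤ) * (s * g ^ (N : ℤ)) * g ^ (-(N : ℤ)) =
      g ^ (N : ℤ) * (g ^ (-(N : ℤ)) * s) * g ^ (-(N : ℤ)) := by rw [h]
  have h3 : g ^ (N : ℤ) * (s * g ^ (N : ℤ)) * g ^ (-(N : ℤ)) = g ^ (N : ℤ) * s := by group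
  have h4 : g ^ (N : ℤ) * (g ^ (-(N : ℤ)) * s) * g ^ (-(N : ℤ)) = s * g ^ (-(N : ℤ)) := by group
  rw [h3, h4] at h2
  exact h2.symm

theorem mc_neg (hord : orderOf g = 4 * N) : g ^ (-(2 * (N : ℤ))) = g ^ (2 * (N : ℤ)) := by
  rw [mc_eq hord]
  exact ⟨-1, by ring⟩

theorem mc_sz (hord : orderOf g = 4 * N) (hq : s * g ^ (N : ℤ) * s⁻¹ = (g ^ (N : ℤ))⁻¹) :
    s * g ^ (2 * (N : ℤ)) = g ^ (2 * (N : ℤ)) * s := by
  have h := mc_comm hq
  calc s * g ^ (2 * (N : ℤ)) = (s * g ^ (N : ℤ)) * g ^ (N : ℤ) := by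
        rw [two_mul, zpow_add, mul_assoc]
    _ = g ^ (-(N : ℤ)) * (s * g ^ (N : ℤ)) := by rw [← mul_assoc (g ^ (-(N : ℤ))), ← h]
    _ = g ^ (-(2 * (N : ℤ))) * s := by
        rw [h, ← mul_assoc, ← zpow_add]
        congr 2
        ring
    _ = _ := by rw [mc_neg hord]

theorem mc_zz (hord : orderOf g = 4 * N) : g ^ (2 * (N : ℤ)) * g ^ (2 * (N : ℤ)) = 1 := by
  rw [← zpow_add, mc_one hord]
  exact ⟨1, by ring⟩

/-- the subgroup of order four -/
def mcH (hord : orderOf g = 4 * N) (hq : s * g ^ (N : ℤ) * s⁻¹ = (g ^ (N : ℤ))⁻¹)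
    (hsq : s * s = 1 ∨ s * s = g ^ (2 * (N : ℤ))) : Subgroup G where
  carrier := {x | x = 1 ∨ x = g ^ (2 * (N : ℤ)) ∨ x = s ∨ x = s * g ^ (2 * (N : ℤ))}
  one_mem' := Or.inl rfl
  mul_mem' := by
    have hsz := mc_sz hord hq
    have hzz := mc_zz hord
    generalize g ^ (2 * (N : ℤ)) = z at *
    have e2 : z * (s * z) = s := by rw [← mul_assoc, ← hsz, mul_assoc, hzz, mul_one]
    rintro a b (rfl | rfl | rfl | rfl) (rfl | rfl | rfl | rfl)
    · simp
    · simp
    · simp
    · simp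
    · simp
    · left; exact hzz
    · right; right; right; exact hsz.symm
    · right; right; left; exact e2
    · simp
    · right; right; right; rfl
    · rcases hsq with h | h
      · left; exact h
      · right; left; exact h
    · show _ ∨ _ ∨ _ ∨ _
      rw [← mul_assoc]
      rcases hsq with h | h
      · right; left; rw [h, one_mul]
      · left; rw [h, hzz]
    · simp
    · right; right; left; rw [mul_assoc, hzz, mul_one]
    · show _ ∨ _ ∨ _ ∨ _
      rw [mul_assoc, ← hsz, ← mul_assoc]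
      rcases hsq with h | h
      · right; left; rw [h, one_mul]
      · left; rw [h, hzz]
    · show _ ∨ _ ∨ _ ∨ _
      have e4 : s * z * (s * z) = s * s := by
        rw [mul_assoc, e2]
      rw [e4]
      rcases hsq with h | h
      · left; exact h
      · right; left; exact h
  inv_mem' := by
    have hsz := mc_sz hord hq
    have hzz := mc_zz hord
    generalize g ^ (2 * (N : ℤ)) = z at *
    have hzi : z⁻¹ = z := inv_eq_of_mul_eq_one_left hzz
    rintro a (rfl | rfl | rfl | rfl)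
    · left; simp
    · right; left; exact hzi
    · rcases hsq with h | h
      · right; right; left
        exact inv_eq_of_mul_eq_one_left h
      · right; right; right
        apply inv_eq_of_mul_eq_one_left
        rw [hsz, mul_assoc, h, hzz]
    · rcases hsq with h | h
      · right; right; right
        apply inv_eq_of_mul_eq_one_left
        rw [mul_assoc, ← mul_assoc z, ← hsz, mul_assoc, hzz, mul_one, h]
      · right; right; left
        apply inv_eq_of_mul_eq_one_left
        rw [← mul_assoc, h, hzz]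

theorem mc_mem_iff (hord : orderOf g = 4 * N) (hq : s * g ^ (N : ℤ) * s⁻¹ = (g ^ (N : ℤ))⁻¹)
    (hsq : s * s = 1 ∨ s * s = g ^ (2 * (N : ℤ))) (hs : s ∉ Subgroup.zpowers g) (a : ℤ) :
    g ^ a ∈ mcH hord hq hsq ↔ (2 * (N : ℤ)) ∣ a := by
  have hsC : ∀ k : ℤ, s ≠ g ^ k := fun k h => hs (h ▸ Subgroup.zpow_mem_zpowers g k)
  constructor
  · rintro (h | h | h | h)
    · rw [mc_one hord] at h
      obtain ⟨k, hk⟩ := h
      exact ⟨2 * k, by rw [hk]; ring⟩
    · rw [mc_eq hord] at h
      obtain ⟨k, hk⟩ := h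
      exact ⟨2 * k + 1, by linear_combination hk⟩
    · exact absurd h.symm (hsC a)
    · exfalso
      apply hsC (a - 2 * (N : ℤ))
      rw [zpow_sub, h]
      group
  · rintro ⟨k, hk⟩
    rcases Int.even_or_odd' k with ⟨j, hj | hj⟩
    · left
      rw [mc_one hord]
      exact ⟨j, by rw [hk, hj]; ring⟩
    · right; left
      rw [mc_eq hord]
      exact ⟨j, by rw [hk, hj]; ring⟩

theorem mc_coset (hord : orderOf g = 4 * N) (hq : s * g ^ (N : ℤ) * s⁻¹ = (g ^ (N : ℤ))⁻¹)
    (hsq : s * s = 1 ∨ s * s = g ^ (2 * (N : ℤ))) (hs : s ∉ Subgroup.zpowers g) (a b : ℤ) :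
    ((g ^ a : G) : G ⧸ mcH hord hq hsq) = (g ^ b : G) ↔ (2 * (N : ℤ)) ∣ b - a := by
  rw [QuotientGroup.eq, ← zpow_neg, ← zpow_add, mc_mem_iff hord hq hsq hs]
  rw [show -a + b = b - a by ring]

theorem mc_index [Finite G] (hN : 0 < N) (hord : orderOf g = 4 * N)
    (hidx : (Subgroup.zpowers g).index = 2)
    (hq : s * g ^ (N : ℤ) * s⁻¹ = (g ^ (N : ℤ))⁻¹)
    (hsq : s * s = 1 ∨ s * s = g ^ (2 * (N : ℤ))) (hs : s ∉ Subgroup.zpowers g) :
    (mcH hord hq hsq).index = 2 * N := by
  classical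
  have hsC : ∀ k : ℤ, s ≠ g ^ k := fun k h => hs (h ▸ Subgroup.zpow_mem_zpowers g k)
  have hz1 : g ^ (2 * (N : ℤ)) ≠ 1 := by
    rw [Ne, mc_one hord]
    intro h
    have := Int.le_of_dvd (by positivity) h
    have hN' : (0 : ℤ) < N := by exact_mod_cast hN
    linarith
  have hs1 : s ≠ 1 := fun h => hsC 0 (by simpa using h)
  have hcard : Nat.card (mcH hord hq hsq) = 4 := by
    have h1 : ((mcH hord hq hsq : Subgroup G) : Set G) =
        (({1, g ^ (2 * (N : ℤ)), s, s * g ^ (2 * (N : ℤ))} : Finset G) : Set G) := by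
      ext x
      simp only [Finset.coe_insert, Finset.coe_singleton, Set.mem_insert_iff,
        Set.mem_singleton_iff]
      rfl
    have h2 : Nat.card (mcH hord hq hsq) = ((mcH hord hq hsq : Subgroup G) : Set G).ncard := rfl
    rw [h2, h1, Set.ncard_coe_finset]
    have n1 : s ≠ g ^ (2 * (N : ℤ)) := hsC _
    have n2 : s * g ^ (2 * (N : ℤ)) ≠ 1 := by
      intro h
      apply hsC (-(2 * (N : ℤ)))
      rw [zpow_neg]
      exact eq_inv_of_mul_eq_one_left h
    have n3 : s * g ^ (2 * (N : ℤ)) ≠ g ^ (2 * (N : ℤ)) := by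
      intro h
      exact hs1 (by simpa using h)
    have n4 : s * g ^ (2 * (N : ℤ)) ≠ s := by
      intro h
      exact hz1 (by simpa using h)
    rw [Finset.card_insert_of_notMem, Finset.card_insert_of_notMem, Finset.card_insert_of_notMem,
      Finset.card_singleton]
    · simpa using n4.symm
    · simp only [Finset.mem_insert, Finset.mem_singleton, not_or]
      exact ⟨n1.symm, n3.symm⟩
    · simp only [Finset.mem_insert, Finset.mem_singleton, not_or]
      exact ⟨hz1.symm, hs1.symm, n2.symm⟩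
  have h3 := (mcH hord hq hsq).index_mul_card
  have h4 := (Subgroup.zpowers g).index_mul_card
  rw [hcard] at h3
  rw [hidx, Nat.card_zpowers, hord] at h4
  omega

/-- exponents of the vertices -/
def mcE (N : ℕ) : (Fin (N - 1) ⊕ Fin (N - 1)) ⊕ Bool → ℤ
  | Sum.inl (Sum.inl i) => (i : ℤ) + 1
  | Sum.inl (Sum.inr i) => -((i : ℤ) + 1)
  | Sum.inr false => 0
  | Sum.inr true => N

theorem mcE_inj (hN : 0 < N) (a b : (Fin (N - 1) ⊕ Fin (N - 1)) ⊕ Bool)
    (h : (2 * (N : ℤ)) ∣ mcE N b - mcE N a) : a = b := by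
  have hN' : (0 : ℤ) < N := by exact_mod_cast hN
  have hr : ∀ a, -(N : ℤ) < mcE N a ∧ mcE N a ≤ N := by
    rintro ((i | i) | (_ | _))
    · have := i.2
      simp only [mcE]
      omega
    · have := i.2
      simp only [mcE]
      omega
    · simp only [mcE]
      omega
    · simp only [mcE]
      omega
  have heq : mcE N b = mcE N a := by
    have h1 := hr a
    have h2 := hr b
    obtain ⟨k, hk⟩ := h
    have hk0 : k = 0 := by
      by_contra hne
      rcases lt_or_gt_of_ne hne with h' | h'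
      · have : k ≤ -1 := by omega
        nlinarith
      · have : 1 ≤ k := by omega
        nlinarith
    rw [hk0, mul_zero] at hk
    linarith
  rcases a with (i | i) | (_ | _) <;> rcases b with (j | j) | (_ | _) <;>
    simp only [mcE] at heq
  all_goals first
    | rfl
    | (have hi := i.2; have hj := j.2; first | (exfalso; omega) | (have : i = j := Fin.ext (by omega)); subst this; rfl)
    | (have hi := i.2; exfalso; omega)
    | (have hj := j.2; exfalso; omega)
    | (exfalso; omega)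

end maxclass


section maxclass2

variable {g s : G} {N : ℕ}

theorem mc_small {a m : ℤ} (h : m ∣ a) (h1 : -m < a) (h2 : a < m) : a = 0 :=
  Int.eq_zero_of_abs_lt_dvd h (abs_lt.2 ⟨h1, h2⟩)

theorem mc_blk1 [Finite G] (hN : 0 < N) (hord : orderOf g = 4 * N)
    (hidx : (Subgroup.zpowers g).index = 2)
    (hq : s * g ^ (N : ℤ) * s⁻¹ = (g ^ (N : ℤ))⁻¹)
    (hss : s * s = 1) (hs : s ∉ Subgroup.zpowers g) :
    ∃ D : Finset G, Blk D ∧ 1 ∉ D ∧ (∀ x ∈ D, x⁻¹ ∈ D) ∧
      ∀ j : ℤ, 0 < j → j < N → g ^ (2 * j) ∈ D ∧ g ^ (-(2 * j)) ∈ D := by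
  classical
  have hN' : (0 : ℤ) < N := by exact_mod_cast hN
  have hsC : ∀ k : ℤ, s ≠ g ^ k := fun k h => hs (h ▸ Subgroup.zpow_mem_zpowers g k)
  have hs1 : s ≠ 1 := fun h => hsC 0 (by simpa using h)
  have hsi : s⁻¹ = s := inv_eq_of_mul_eq_one_left hss
  have hsq : s * s = 1 ∨ s * s = g ^ (2 * (N : ℤ)) := Or.inl hss
  set x : Fin (N - 1) → G := fun i => g ^ ((i : ℤ) + 1) with hx
  set y : Fin (N - 1) → G := fun i => g ^ (-((i : ℤ) + 1)) with hy
  set u : Bool → G := fun b => if b then g ^ (N : ℤ) else 1 with hu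
  set v : Bool → G := fun b => u b * s with hv
  have f1 : ∀ i, x i * (y i)⁻¹ = g ^ (2 * ((i : ℤ) + 1)) := by
    intro i
    rw [hx, hy]
    simp only
    rw [← zpow_neg, ← zpow_add]
    congr 1
    ring
  have f2 : ∀ i, y i * (x i)⁻¹ = g ^ (-(2 * ((i : ℤ) + 1))) := by
    intro i
    rw [hx, hy]
    simp only
    rw [← zpow_neg, ← zpow_add]
    congr 1
    ring
  have f3 : u false * (v false)⁻¹ = s := by
    simp [hu, hv, hsi]
  have f4 : u true * (v true)⁻¹ = g ^ (2 * (N : ℤ)) * s := by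
    have h1 := mc_comm' hq
    simp only [hu, hv, if_true]
    rw [mul_inv_rev, hsi, ← zpow_neg, h1, ← mul_assoc, ← zpow_add]
    congr 2
    ring
  set F : (Fin (N - 1) ⊕ Fin (N - 1)) ⊕ Bool → G := Sum.elim (Sum.elim
    (fun i => x i * (y i)⁻¹) (fun i => y i * (x i)⁻¹)) (fun j => u j * (v j)⁻¹) with hF
  have hlong : ∀ i, (x i * (y i)⁻¹) * (x i * (y i)⁻¹) ≠ 1 := by
    intro i h
    rw [f1, ← zpow_add, mc_one hord] at h
    have hi := i.2
    have := mc_small h (by omega) (by omega)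
    omega
  have hshort : ∀ j, ∃ t ∈ mcH hord hq hsq, t ≠ 1 ∧ t * t = 1 ∧ v j = u j * t :=
    fun j => ⟨s, Or.inr (Or.inr (Or.inl rfl)), hs1, hss, rfl⟩
  have hV : Function.Injective (Sum.elim (Sum.elim (fun i => (x i : G ⧸ mcH hord hq hsq))
      (fun i => (y i : G ⧸ mcH hord hq hsq))) (fun j => (u j : G ⧸ mcH hord hq hsq))) := by
    have hVe : ∀ a, Sum.elim (Sum.elim (fun i => (x i : G ⧸ mcH hord hq hsq))
      (fun i => (y i : G ⧸ mcH hord hq hsq))) (fun j => (u j : G ⧸ mcH hord hq hsq)) a =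
        ((g ^ (mcE N a) : G) : G ⧸ mcH hord hq hsq) := by
      rintro ((i | i) | (_ | _))
      · rfl
      · rfl
      · simp [mcE, hu]
      · simp [mcE, hu]
    intro a b hab
    rw [hVe, hVe, mc_coset hord hq hsq hs] at hab
    exact mcE_inj hN a b hab
  have hcard : 2 * Fintype.card (Fin (N - 1)) + Fintype.card Bool = (mcH hord hq hsq).index := by
    rw [mc_index hN hord hidx hq hsq hs, Fintype.card_fin, Fintype.card_bool]
    omega
  have hFinj : Function.Injective F := by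
    have g1 : ∀ i, F (Sum.inl (Sum.inl i)) = g ^ (2 * ((i : ℤ) + 1)) := f1
    have g2 : ∀ i, F (Sum.inl (Sum.inr i)) = g ^ (-(2 * ((i : ℤ) + 1))) := f2
    have g3 : F (Sum.inr false) = s := f3
    have g4 : F (Sum.inr true) = g ^ (2 * (N : ℤ)) * s := f4
    have n1 : ∀ a : ℤ, g ^ a ≠ s := fun a h => hsC a h.symm
    have n2 : ∀ a : ℤ, g ^ a ≠ g ^ (2 * (N : ℤ)) * s := by
      intro a h
      apply hsC (a - 2 * (N : ℤ))
      rw [sub_eq_neg_add, zpow_add, h, ← mul_assoc, ← zpow_add]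
      simp
    have n3 : s ≠ g ^ (2 * (N : ℤ)) * s := by
      intro h
      have h2 : g ^ (2 * (N : ℤ)) = 1 := by simpa using h
      rw [mc_one hord] at h2
      have := mc_small h2 (by omega) (by omega)
      omega
    rintro ((i | i) | (_ | _)) ((j | j) | (_ | _)) h
    · rw [g1, g1, mc_eq hord] at h
      have hi := i.2; have hj := j.2
      have := mc_small h (by omega) (by omega)
      have : i = j := Fin.ext (by omega)
      rw [this]
    · exfalso
      rw [g1, g2, mc_eq hord] at h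
      have hi := i.2; have hj := j.2
      have := mc_small h (by omega) (by omega)
      omega
    · rw [g1, g3] at h; exact absurd h (n1 _)
    · rw [g1, g4] at h; exact absurd h (n2 _)
    · exfalso
      rw [g1, g2, mc_eq hord] at h
      have hi := i.2; have hj := j.2
      have := mc_small h (by omega) (by omega)
      omega
    · rw [g2, g2, mc_eq hord] at h
      have hi := i.2; have hj := j.2
      have := mc_small h (by omega) (by omega)
      have : i = j := Fin.ext (by omega)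
      rw [this]
    · rw [g2, g3] at h; exact absurd h (n1 _)
    · rw [g2, g4] at h; exact absurd h (n2 _)
    · rw [g1, g3] at h; exact absurd h.symm (n1 _)
    · rw [g2, g3] at h; exact absurd h.symm (n1 _)
    · rfl
    · rw [g3, g4] at h; exact absurd h n3
    · rw [g1, g4] at h; exact absurd h.symm (n2 _)
    · rw [g2, g4] at h; exact absurd h.symm (n2 _)
    · rw [g3, g4] at h; exact absurd h.symm n3
    · rfl
  have hmem : ∀ a : G, a ∈ Finset.univ.image F ↔ (∃ i, x i * (y i)⁻¹ = a) ∨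
      (∃ i, y i * (x i)⁻¹ = a) ∨ (∃ j, u j * (v j)⁻¹ = a) := by
    intro a
    simp only [Finset.mem_image, Finset.mem_univ, true_and]
    constructor
    · rintro ⟨((i | i) | j), h⟩
      · exact Or.inl ⟨i, h⟩
      · exact Or.inr (Or.inl ⟨i, h⟩)
      · exact Or.inr (Or.inr ⟨j, h⟩)
    · rintro (⟨i, h⟩ | ⟨i, h⟩ | ⟨j, h⟩)
      · exact ⟨Sum.inl (Sum.inl i), h⟩
      · exact ⟨Sum.inl (Sum.inr i), h⟩
      · exact ⟨Sum.inr j, h⟩
  refine ⟨Finset.univ.image F, Blk.mk' (mcH hord hq hsq) x y u v hlong hshort hV hcard _ hFinj hmem,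
    ?_, ?_, ?_⟩
  · rw [hmem]
    rintro (⟨i, h⟩ | ⟨i, h⟩ | ⟨j, h⟩)
    · exact hlong i (by rw [h, mul_one])
    · apply hlong i
      have : x i * (y i)⁻¹ = (y i * (x i)⁻¹)⁻¹ := by group
      rw [this, h]; simp
    · rw [hv] at h
      apply hs1
      simp only at h
      have h5 : u j * s⁻¹ * (u j)⁻¹ = 1 := by rw [← h]; group
      rw [mul_inv_eq_one] at h5
      simpa using h5
  · intro a ha
    rw [hmem] at ha ⊢
    rcases ha with ⟨i, h⟩ | ⟨i, h⟩ | ⟨j, h⟩
    · exact Or.inr (Or.inl ⟨i, by rw [← h]; group⟩)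
    · exact Or.inl ⟨i, by rw [← h]; group⟩
    · refine Or.inr (Or.inr ⟨j, ?_⟩)
      rw [← h, hv]
      simp only
      calc u j * (u j * s)⁻¹ = u j * s⁻¹ * (u j)⁻¹ := by group
        _ = u j * s * (u j)⁻¹ := by rw [hsi]
        _ = (u j * (u j * s)⁻¹)⁻¹ := by group
  · intro j hj1 hj2
    have hlt : (j - 1).toNat < N - 1 := by omega
    constructor
    · rw [hmem]
      left
      refine ⟨⟨(j - 1).toNat, hlt⟩, ?_⟩
      rw [f1]
      congr 1
      simp only
      omega
    · rw [hmem]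
      right; left
      refine ⟨⟨(j - 1).toNat, hlt⟩, ?_⟩
      rw [f2]
      congr 1
      simp only
      omega

end maxclass2


section maxclass3

variable {g s : G} {N : ℕ}

theorem mc_blk2 [Finite G] (hN : 0 < N) (hord : orderOf g = 4 * N)
    (hidx : (Subgroup.zpowers g).index = 2)
    (hq : s * g ^ (N : ℤ) * s⁻¹ = (g ^ (N : ℤ))⁻¹)
    (hss : s * s = g ^ (2 * (N : ℤ))) (hs : s ∉ Subgroup.zpowers g) :
    ∃ D : Finset G, Blk D ∧ 1 ∉ D ∧ (∀ x ∈ D, x⁻¹ ∈ D) ∧
      ∀ j : ℤ, 0 < j → j < N → g ^ (2 * j) ∈ D ∧ g ^ (-(2 * j)) ∈ D := by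
  classical
  have hN' : (0 : ℤ) < N := by exact_mod_cast hN
  have hsC : ∀ k : ℤ, s ≠ g ^ k := fun k h => hs (h ▸ Subgroup.zpow_mem_zpowers g k)
  have hsz := mc_sz hord hq
  have hzz := mc_zz hord
  have hsi : s⁻¹ = g ^ (2 * (N : ℤ)) * s := by
    apply inv_eq_of_mul_eq_one_left
    rw [mul_assoc, hss, hzz]
  have hz1 : g ^ (2 * (N : ℤ)) ≠ 1 := by
    rw [Ne, mc_one hord]
    intro h
    have := mc_small h (by omega) (by omega)
    omega
  have hsq : s * s = 1 ∨ s * s = g ^ (2 * (N : ℤ)) := Or.inr hss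
  set x : Option (Fin (N - 1)) → G := fun i => i.elim s fun i => g ^ ((i : ℤ) + 1) with hx
  set y : Option (Fin (N - 1)) → G := fun i => i.elim (g ^ (N : ℤ)) fun i => g ^ (-((i : ℤ) + 1))
    with hy
  set u : Empty → G := fun b => b.elim with hu
  set v : Empty → G := fun b => b.elim with hv
  have f1 : ∀ i, x (some i) * (y (some i))⁻¹ = g ^ (2 * ((i : ℤ) + 1)) := by
    intro i
    rw [hx, hy]
    simp only [Option.elim_some]
    rw [← zpow_neg, ← zpow_add]
    congr 1
    ring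
  have f2 : ∀ i, y (some i) * (x (some i))⁻¹ = g ^ (-(2 * ((i : ℤ) + 1))) := by
    intro i
    rw [hx, hy]
    simp only [Option.elim_some]
    rw [← zpow_neg, ← zpow_add]
    congr 1
    ring
  have f3 : x none * (y none)⁻¹ = g ^ (N : ℤ) * s := by
    rw [hx, hy]
    simp only [Option.elim_none]
    rw [← zpow_neg, mc_comm' hq]
  have f4 : y none * (x none)⁻¹ = g ^ (-(N : ℤ)) * s := by
    rw [hx, hy]
    simp only [Option.elim_none]
    rw [hsi, ← mul_assoc, ← zpow_add]
    congr 1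
    rw [mc_eq hord]
    exact ⟨1, by ring⟩
  set F : (Option (Fin (N - 1)) ⊕ Option (Fin (N - 1))) ⊕ Empty → G := Sum.elim (Sum.elim
    (fun i => x i * (y i)⁻¹) (fun i => y i * (x i)⁻¹)) (fun j => u j * (v j)⁻¹) with hF
  have hlong : ∀ i, (x i * (y i)⁻¹) * (x i * (y i)⁻¹) ≠ 1 := by
    rintro (_ | i) h
    · rw [f3] at h
      apply hz1
      rw [← hss]
      calc s * s = g ^ (N : ℤ) * (g ^ (-(N : ℤ)) * s) * s := by group
        _ = g ^ (N : ℤ) * (s * g ^ (N : ℤ)) * s := by rw [mc_comm hq]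
        _ = g ^ (N : ℤ) * s * (g ^ (N : ℤ) * s) := by group
        _ = 1 := h
    · rw [f1, ← zpow_add, mc_one hord] at h
      have hi := i.2
      have := mc_small h (by omega) (by omega)
      omega
  have hshort : ∀ j, ∃ t ∈ mcH hord hq hsq, t ≠ 1 ∧ t * t = 1 ∧ v j = u j * t :=
    fun j => j.elim
  let φ : (Option (Fin (N - 1)) ⊕ Option (Fin (N - 1))) ⊕ Empty →
      (Fin (N - 1) ⊕ Fin (N - 1)) ⊕ Bool := Sum.elim (Sum.elim
    (fun i => i.elim (Sum.inr false) fun i => Sum.inl (Sum.inl i))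
    (fun i => i.elim (Sum.inr true) fun i => Sum.inl (Sum.inr i))) (fun j => j.elim)
  have hφ : Function.Injective φ := by
    rintro (((_ | i) | (_ | i)) | e1) (((_ | j) | (_ | j)) | e2) h
    all_goals first
      | exact e1.elim
      | exact e2.elim
      | rfl
      | (simp [φ] at h; done)
      | (have h' : i = j := by simpa [φ] using h
         rw [h'])
  have hV : Function.Injective (Sum.elim (Sum.elim (fun i => (x i : G ⧸ mcH hord hq hsq))
      (fun i => (y i : G ⧸ mcH hord hq hsq))) (fun j => (u j : G ⧸ mcH hord hq hsq))) := by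
    have hVe : ∀ a, Sum.elim (Sum.elim (fun i => (x i : G ⧸ mcH hord hq hsq))
      (fun i => (y i : G ⧸ mcH hord hq hsq))) (fun j => (u j : G ⧸ mcH hord hq hsq)) a =
        ((g ^ (mcE N (φ a)) : G) : G ⧸ mcH hord hq hsq) := by
      rintro (((_ | i) | (_ | i)) | j)
      · have h0 : mcE N (φ (Sum.inl (Sum.inl none))) = 0 := rfl
        rw [h0, zpow_zero]
        show ((s : G) : G ⧸ mcH hord hq hsq) = ((1 : G) : G ⧸ mcH hord hq hsq)
        rw [QuotientGroup.eq, mul_one]
        exact (mcH hord hq hsq).inv_mem (Or.inr (Or.inr (Or.inl rfl)))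
      · rfl
      · rfl
      · rfl
      · exact j.elim
    intro a b hab
    rw [hVe, hVe, mc_coset hord hq hsq hs] at hab
    exact hφ (mcE_inj hN _ _ hab)
  have hcard : 2 * Fintype.card (Option (Fin (N - 1))) + Fintype.card Empty =
      (mcH hord hq hsq).index := by
    rw [mc_index hN hord hidx hq hsq hs, Fintype.card_option, Fintype.card_fin]
    simp only [Fintype.card_eq_zero]
    omega
  have hFinj : Function.Injective F := by
    have g1 : ∀ i, F (Sum.inl (Sum.inl (some i))) = g ^ (2 * ((i : ℤ) + 1)) := f1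
    have g2 : ∀ i, F (Sum.inl (Sum.inr (some i))) = g ^ (-(2 * ((i : ℤ) + 1))) := f2
    have g3 : F (Sum.inl (Sum.inl none)) = g ^ (N : ℤ) * s := f3
    have g4 : F (Sum.inl (Sum.inr none)) = g ^ (-(N : ℤ)) * s := f4
    have n2 : ∀ a b : ℤ, g ^ a ≠ g ^ b * s := by
      intro a b h
      apply hsC (a - b)
      rw [sub_eq_neg_add, zpow_add, h, ← mul_assoc, ← zpow_add]
      simp
    have n3 : g ^ (N : ℤ) * s ≠ g ^ (-(N : ℤ)) * s := by
      intro h
      have h2 : g ^ (N : ℤ) = g ^ (-(N : ℤ)) := mul_right_cancel h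
      rw [mc_eq hord] at h2
      have := mc_small h2 (by omega) (by omega)
      omega
    rintro (((_ | i) | (_ | i)) | i) (((_ | j) | (_ | j)) | j) h
    all_goals first
      | exact i.elim
      | exact j.elim
      | rfl
      | (rw [g1, g1, mc_eq hord] at h
         have hi := i.2; have hj := j.2
         have h7 := mc_small h (by omega) (by omega)
         have h8 : i = j := Fin.ext (by omega)
         rw [h8])
      | (rw [g2, g2, mc_eq hord] at h
         have hi := i.2; have hj := j.2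
         have h7 := mc_small h (by omega) (by omega)
         have h8 : i = j := Fin.ext (by omega)
         rw [h8])
      | (exfalso
         rw [g1, g2, mc_eq hord] at h
         have hi := i.2; have hj := j.2
         have h7 := mc_small h (by omega) (by omega)
         omega)
      | (rw [g3, g4] at h; exact absurd h n3)
      | (rw [g3, g4] at h; exact absurd h.symm n3)
      | (rw [g1, g3] at h; exact absurd h (n2 _ _))
      | (rw [g1, g4] at h; exact absurd h (n2 _ _))
      | (rw [g2, g3] at h; exact absurd h (n2 _ _))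
      | (rw [g2, g4] at h; exact absurd h (n2 _ _))
      | (rw [g1, g3] at h; exact absurd h.symm (n2 _ _))
      | (rw [g1, g4] at h; exact absurd h.symm (n2 _ _))
      | (rw [g2, g3] at h; exact absurd h.symm (n2 _ _))
      | (rw [g2, g4] at h; exact absurd h.symm (n2 _ _))
  have hmem : ∀ a : G, a ∈ Finset.univ.image F ↔ (∃ i, x i * (y i)⁻¹ = a) ∨
      (∃ i, y i * (x i)⁻¹ = a) ∨ (∃ j, u j * (v j)⁻¹ = a) := by
    intro a
    simp only [Finset.mem_image, Finset.mem_univ, true_and]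
    constructor
    · rintro ⟨((i | i) | j), h⟩
      · exact Or.inl ⟨i, h⟩
      · exact Or.inr (Or.inl ⟨i, h⟩)
      · exact Or.inr (Or.inr ⟨j, h⟩)
    · rintro (⟨i, h⟩ | ⟨i, h⟩ | ⟨j, h⟩)
      · exact ⟨Sum.inl (Sum.inl i), h⟩
      · exact ⟨Sum.inl (Sum.inr i), h⟩
      · exact ⟨Sum.inr j, h⟩
  refine ⟨Finset.univ.image F, Blk.mk' (mcH hord hq hsq) x y u v hlong hshort hV hcard _ hFinj hmem,
    ?_, ?_, ?_⟩
  · rw [hmem]
    rintro (⟨i, h⟩ | ⟨i, h⟩ | ⟨j, h⟩)
    · exact hlong i (by rw [h, mul_one])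
    · apply hlong i
      have : x i * (y i)⁻¹ = (y i * (x i)⁻¹)⁻¹ := by group
      rw [this, h]; simp
    · exact j.elim
  · intro a ha
    rw [hmem] at ha ⊢
    rcases ha with ⟨i, h⟩ | ⟨i, h⟩ | ⟨j, h⟩
    · exact Or.inr (Or.inl ⟨i, by rw [← h]; group⟩)
    · exact Or.inl ⟨i, by rw [← h]; group⟩
    · exact j.elim
  · intro j hj1 hj2
    have hlt : (j - 1).toNat < N - 1 := by omega
    constructor
    · rw [hmem]
      left
      refine ⟨some ⟨(j - 1).toNat, hlt⟩, ?_⟩
      rw [f1]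
      congr 1
      simp only
      omega
    · rw [hmem]
      right; left
      refine ⟨some ⟨(j - 1).toNat, hlt⟩, ?_⟩
      rw [f2]
      congr 1
      simp only
      omega

/-- squares of elements outside the cyclic subgroup -/
theorem mc_sq {e : ℕ} (hord : orderOf g = 4 * 2 ^ e) (hidx : (Subgroup.zpowers g).index = 2)
    (hq : s * g ^ ((2 ^ e : ℕ) : ℤ) * s⁻¹ = (g ^ ((2 ^ e : ℕ) : ℤ))⁻¹) :
    s * s = 1 ∨ s * s = g ^ (2 * ((2 ^ e : ℕ) : ℤ)) := by
  set N := 2 ^ e with hNdef
  have hN : 0 < N := by positivity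
  have hN' : (0 : ℤ) < N := by exact_mod_cast hN
  obtain ⟨k, hk⟩ := Subgroup.mem_zpowers_iff.1 (Subgroup.mul_self_mem_of_index_two hidx s)
  rw [← hk]
  by_cases hdiv : (2 * (N : ℤ)) ∣ k
  · obtain ⟨j, hj⟩ := hdiv
    rcases Int.even_or_odd' j with ⟨i, hi | hi⟩
    · left
      rw [mc_one hord]
      exact ⟨i, by rw [hj, hi]; ring⟩
    · right
      rw [mc_eq hord]
      exact ⟨i, by rw [hj, hi]; ring⟩
  · exfalso
    have hk0 : k ≠ 0 := by
      rintro rfl
      exact hdiv (dvd_zero _)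
    obtain ⟨a, m, hm, hkm⟩ := Nat.exists_eq_two_pow_mul_odd (n := k.natAbs) (by omega)
    have hae : a ≤ e := by
      by_contra hcon
      push Not at hcon
      apply hdiv
      have h1 : 2 * N ∣ k.natAbs := by
        rw [hkm, hNdef, ← pow_succ']
        exact (pow_dvd_pow 2 hcon).mul_right _
      have h2 := Int.natCast_dvd.2 h1
      exact_mod_cast h2
    -- s commutes with g^(k * 2^(e-a))
    have hc1 : Commute s (g ^ k) := by
      rw [hk]
      exact (Commute.refl s).mul_right (Commute.refl s)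
    have hc2 : Commute s ((g ^ k) ^ ((2 ^ (e - a) : ℕ) : ℤ)) := hc1.zpow_right _
    rw [← zpow_mul] at hc2
    have hkk : k * ((2 ^ (e - a) : ℕ) : ℤ) = N * m ∨ k * ((2 ^ (e - a) : ℕ) : ℤ) = -(N * m) := by
      have h3 : 2 ^ a * 2 ^ (e - a) = N := by rw [hNdef, ← pow_add]; congr 1; omega
      have h3' : ((2 : ℤ) ^ a) * 2 ^ (e - a) = N := by exact_mod_cast h3
      rcases Int.natAbs_eq k with h | h
      · left
        rw [h, hkm]
        push_cast
        rw [← h3']
        ring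
      · right
        rw [h, hkm]
        push_cast
        rw [← h3']
        ring
    have hc3 : Commute s (g ^ ((N : ℤ) * m)) := by
      rcases hkk with h | h
      · rwa [h] at hc2
      · rw [h, zpow_neg] at hc2
        simpa using hc2.inv_right
    obtain ⟨i, hi⟩ := hm
    have hqm : g ^ ((N : ℤ) * m) = g ^ (2 * (N : ℤ) * i) * g ^ (N : ℤ) := by
      rw [← zpow_add]
      congr 1
      rw [hi]
      push_cast
      ring
    have hcz : Commute s (g ^ (2 * (N : ℤ) * i)) := by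
      rw [zpow_mul]
      exact Commute.zpow_right (show Commute s _ from mc_sz hord hq) _
    have hc4 : Commute s (g ^ (N : ℤ)) := by
      have h4 : g ^ (N : ℤ) = (g ^ (2 * (N : ℤ) * i))⁻¹ * g ^ ((N : ℤ) * m) := by
        rw [hqm]; group
      rw [h4]
      exact hcz.inv_right.mul_right hc3
    have h5 : g ^ (N : ℤ) = g ^ (-(N : ℤ)) := by
      rw [zpow_neg, ← hq, hc4.eq]
      group
    rw [mc_eq hord] at h5
    have := mc_small h5 (by omega) (by omega)
    omega

end maxclass3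

/-- Noncyclic-type 2-groups with a cyclic subgroup `⟨g⟩` of index two containing an element `c` of
order four that is inverted by all elements outside: all elements of the subgroup generated by
the squares which are not of square 1 can be covered by a block. -/
theorem cov_maxclass [Finite G] (h2 : IsPGroup 2 G) (g c : G) (hc4 : orderOf c = 4)
    (hc : c ∈ Subgroup.zpowers g) (hidx : (Subgroup.zpowers g).index = 2)
    (hinv : ∀ s, s ∉ Subgroup.zpowers g → s * c * s⁻¹ = c⁻¹) :
    ∃ D : Finset G, Cov D ∧ 1 ∉ D ∧ (∀ x ∈ D, x⁻¹ ∈ D) ∧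
      ∀ x ∈ Subgroup.closure {y : G | ∃ a : G, y = a * a}, x * x ≠ 1 → x ∈ D := by
  classical
  -- the order of `g`
  obtain ⟨f, hf⟩ := IsPGroup.iff_orderOf.1 h2 g
  have h4 : 4 ∣ orderOf g := hc4 ▸ orderOf_dvd_of_mem_zpowers hc
  obtain ⟨e, hord⟩ : ∃ e, orderOf g = 4 * 2 ^ e := by
    have hf2 : 2 ≤ f := by
      by_contra hcon
      rw [hf] at h4
      have : f = 0 ∨ f = 1 := by omega
      rcases this with rfl | rfl
      · norm_num at h4
      · norm_num at h4
    exact ⟨f - 2, by rw [hf, show f = (f - 2) + 2 by omega, pow_add]; simp [mul_comm]⟩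
  set N := 2 ^ e with hNdef
  have hN : 0 < N := by positivity
  have hN' : (0 : ℤ) < N := by exact_mod_cast hN
  -- `c` is `q` or `q⁻¹`
  obtain ⟨m, hm⟩ := Subgroup.mem_zpowers_iff.1 hc
  have hc4' : g ^ (4 * m) = 1 := by
    rw [mul_comm, zpow_mul, hm]
    have := pow_orderOf_eq_one c
    rw [hc4] at this
    exact_mod_cast this
  have hc2' : g ^ (2 * m) ≠ 1 := by
    intro h
    rw [mul_comm, zpow_mul, hm] at h
    have h' : c ^ 2 = 1 := by exact_mod_cast h
    have := orderOf_dvd_of_pow_eq_one h'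
    rw [hc4] at this
    norm_num at this
  rw [mc_one hord] at hc4'
  rw [Ne, mc_one hord] at hc2'
  obtain ⟨m', hm'⟩ : (N : ℤ) ∣ m := by
    obtain ⟨t, ht⟩ := hc4'
    exact ⟨t, by linarith⟩
  have hodd : Odd m' := by
    rw [← Int.not_even_iff_odd]
    rintro ⟨t, ht⟩
    apply hc2'
    exact ⟨t, by rw [hm', ht]; ring⟩
  have hcq : c = g ^ (N : ℤ) ∨ c = g ^ (-(N : ℤ)) := by
    obtain ⟨t, ht⟩ := hodd
    rcases Int.even_or_odd' t with ⟨i, hi | hi⟩
    · left
      rw [← hm, mc_eq hord]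
      exact ⟨i, by rw [hm', ht, hi]; ring⟩
    · right
      rw [← hm, mc_eq hord]
      exact ⟨i + 1, by rw [hm', ht, hi]; ring⟩
  have hq : ∀ s, s ∉ Subgroup.zpowers g → s * g ^ (N : ℤ) * s⁻¹ = (g ^ (N : ℤ))⁻¹ := by
    intro s hs
    have h := hinv s hs
    rcases hcq with h' | h'
    · rw [h'] at h
      exact h
    · rw [h'] at h
      have h6 : s * g ^ (N : ℤ) * s⁻¹ = (s * g ^ (-(N : ℤ)) * s⁻¹)⁻¹ := by
        rw [zpow_neg]; group
      rw [h6, h]
      simp
  have hsqs : ∀ s, s ∉ Subgroup.zpowers g → s * s = 1 ∨ s * s = g ^ (2 * (N : ℤ)) :=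
    fun s hs => mc_sq hord hidx (hq s hs)
  -- an element outside
  obtain ⟨s, hs⟩ : ∃ s, s ∉ Subgroup.zpowers g := by
    by_contra hcon
    push Not at hcon
    have : Subgroup.zpowers g = ⊤ := by
      rw [eq_top_iff]
      intro x _
      exact hcon x
    rw [this, Subgroup.index_top] at hidx
    omega
  have hblk : ∃ D : Finset G, Blk D ∧ 1 ∉ D ∧ (∀ x ∈ D, x⁻¹ ∈ D) ∧
      ∀ j : ℤ, 0 < j → j < N → g ^ (2 * j) ∈ D ∧ g ^ (-(2 * j)) ∈ D := by
    rcases hsqs s hs with h | h
    · exact mc_blk1 hN hord hidx (hq s hs) h hs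
    · exact mc_blk2 hN hord hidx (hq s hs) h hs
  obtain ⟨D, hD, hD1, hDi, hDm⟩ := hblk
  refine ⟨D, ?_, hD1, hDi, ?_⟩
  · have := Cov.cons ∅ D Cov.empty hD (Finset.disjoint_empty_left _)
    rwa [Finset.empty_union] at this
  · intro x hx hxx
    have hle : Subgroup.closure {y : G | ∃ a : G, y = a * a} ≤ Subgroup.zpowers (g ^ (2 : ℤ)) := by
      rw [Subgroup.closure_le]
      rintro _ ⟨a, rfl⟩
      show a * a ∈ Subgroup.zpowers (g ^ (2 : ℤ))
      rw [Subgroup.mem_zpowers_iff]
      by_cases ha : a ∈ Subgroup.zpowers g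
      · obtain ⟨k, rfl⟩ := Subgroup.mem_zpowers_iff.1 ha
        refine ⟨k, ?_⟩
        rw [← zpow_mul, ← zpow_add]
        congr 1
        ring
      · rcases hsqs a ha with h | h
        · exact ⟨0, by rw [h]; simp⟩
        · exact ⟨N, by rw [h, ← zpow_mul]⟩
    obtain ⟨k, hk⟩ := Subgroup.mem_zpowers_iff.1 (hle hx)
    rw [← zpow_mul] at hk
    have hxk : ¬ (4 * (N : ℤ)) ∣ 4 * k := by
      intro h
      apply hxx
      rw [← hk, ← zpow_add, mc_one hord]
      convert h using 1
      ring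
    set r := k % (2 * (N : ℤ)) with hr
    have hr0 : 0 ≤ r := Int.emod_nonneg _ (by omega)
    have hr1 : r < 2 * N := Int.emod_lt_of_pos _ (by omega)
    have hrk : k = 2 * N * (k / (2 * (N : ℤ))) + r := by
      have := Int.mul_ediv_add_emod k (2 * (N : ℤ))
      linarith
    have hrne0 : r ≠ 0 := by
      intro h
      apply hxk
      refine ⟨2 * (k / (2 * (N : ℤ))), ?_⟩
      rw [h] at hrk
      linear_combination 4 * hrk
    have hrneN : r ≠ N := by
      intro h
      apply hxk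
      refine ⟨2 * (k / (2 * (N : ℤ))) + 1, ?_⟩
      rw [h] at hrk
      linear_combination 4 * hrk
    rw [← hk]
    rcases lt_or_gt_of_ne hrneN with h | h
    · have h7 : g ^ (2 * k) = g ^ (2 * r) := by
        rw [mc_eq hord]
        exact ⟨k / (2 * (N : ℤ)), by linear_combination 2 * hrk⟩
      rw [h7]
      exact (hDm r (by omega) h).1
    · have h7 : g ^ (2 * k) = g ^ (-(2 * (2 * N - r))) := by
        rw [mc_eq hord]
        exact ⟨k / (2 * (N : ℤ)) + 1, by linear_combination 2 * hrk⟩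
      rw [h7]
      exact (hDm (2 * N - r) (by omega) (by omega)).2

end Pool.Agent.Helper466.Starter
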